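import Pool.Agent.Lib.MP_50bb2e_nt.Imq.Iface
import Pool.Agent.Lib.MP_50bb2e_nt.Bia.Act

/-!
MP_50bb2e_nt, board IMQ, row GACT: the action of `SL_2(C)` on hyperbolic 3-space.
-/

namespace Pool.Agent.Lib.MP_50bb2e_nt.Imq.Gact

open Complex
open scoped ComplexConjugate
open Pool.Agent.Lib.MP_50bb2e_nt.Bia.Act (norm_sq_c dn az dn_pos key key_den)

theorem det_c (g : SLC) : g 0 0 * g 1 1 - g 0 1 * g 1 0 = 1 := by
  have h := g.2
  rw [Matrix.det_fin_two] at h
  exact h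

theorem mul_c (g k : SLC) (i j : Fin 2) :
    (g * k) i j = g i 0 * k 0 j + g i 1 * k 1 j := by
  rw [Matrix.SpecialLinearGroup.coe_mul, Matrix.mul_apply, Fin.sum_univ_two]

theorem den_eq (g : SLC) (z : ℂ) (y : ℝ) : den g z y = dn (g 1 0) (g 1 1) z y := rfl

theorem den_pos (g : SLC) (z : ℂ) (y : ℝ) (hy : 0 < y) : 0 < den g z y :=
  dn_pos _ _ _ _ z y (det_c g) hy

theorem acty_pos (g : SLC) (z : ℂ) (y : ℝ) (hy : 0 < y) : 0 < acty g z y :=
  div_pos hy (den_pos g z y hy)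

theorem den_mul (g k : SLC) (z : ℂ) (y : ℝ) (hy : 0 < y) :
    den g (actz k z y) (acty k z y) * den k z y = den (g * k) z y := by
  have h := key_den (g 1 0) (g 1 1) (k 0 0) (k 0 1) (k 1 0) (k 1 1) z y (det_c k)
    (den_pos k z y hy).ne'
  rw [den_eq (g * k), mul_c, mul_c]
  exact h

theorem actz_mul (g k : SLC) (z : ℂ) (y : ℝ) (hy : 0 < y) :
    actz (g * k) z y = actz g (actz k z y) (acty k z y) := by
  have hD := (den_pos k z y hy).ne'
  have hD' : (den k z y : ℂ) ≠ 0 := by exact_mod_cast hD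
  have h := key (g 0 0) (g 0 1) (g 1 0) (g 1 1) (k 0 0) (k 0 1) (k 1 0) (k 1 1) z y (det_c k) hD
  have hm : (den g (actz k z y) (acty k z y) : ℂ) * (den k z y : ℂ) =
      (den (g * k) z y : ℂ) := by
    exact_mod_cast den_mul g k z y hy
  have h1 : actz g (actz k z y) (acty k z y) =
      ((g 0 0 * actz k z y + g 0 1) *
        conj (g 1 0 * actz k z y + g 1 1) +
        g 0 0 * conj (g 1 0) * (acty k z y : ℂ) ^ 2) * (den k z y : ℂ) /
        ((den g (actz k z y) (acty k z y) : ℂ) * (den k z y : ℂ)) := by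
    rw [mul_div_mul_right _ _ hD']
    rfl
  have h2 : actz (g * k) z y =
      (((g * k) 0 0 * z + (g * k) 0 1) *
        conj ((g * k) 1 0 * z + (g * k) 1 1) +
        (g * k) 0 0 * conj ((g * k) 1 0) * (y : ℂ) ^ 2) / (den (g * k) z y : ℂ) := rfl
  rw [h1, h2, hm]
  congr 1
  rw [mul_c, mul_c, mul_c, mul_c]
  exact h.symm

theorem acty_mul (g k : SLC) (z : ℂ) (y : ℝ) (hy : 0 < y) :
    acty (g * k) z y = acty g (actz k z y) (acty k z y) := by
  have hm := den_mul g k z y hy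
  have h1 : acty g (actz k z y) (acty k z y) =
      y / den k z y / den g (actz k z y) (acty k z y) := rfl
  have h2 : acty (g * k) z y = y / den (g * k) z y := rfl
  rw [h1, h2, ← hm, div_div, mul_comm]

theorem act_inf (g : SLC) (hc : g 1 0 = 0) :
    ∃ b : ℂ, ∃ t : ℝ, 0 < t ∧ ∀ (z' : ℂ) (y' : ℝ), 0 < y' →
      actz g z' y' = g 0 0 / g 1 1 * z' + b ∧ acty g z' y' = t * y' := by
  have hdet := det_c g
  have hd : g 1 1 ≠ 0 := by
    intro h
    rw [h, hc] at hdet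
    simp at hdet
  have hn : ‖g 1 1‖ ≠ 0 := norm_ne_zero_iff.2 hd
  have hcd : conj (g 1 1) ≠ 0 := by
    intro h
    exact hd ((map_eq_zero _).1 h)
  have hden : ∀ (z' : ℂ) (y' : ℝ), den g z' y' = ‖g 1 1‖ ^ 2 := by
    intro z' y'
    unfold den
    rw [hc]
    simp
  refine ⟨g 0 1 / g 1 1, 1 / ‖g 1 1‖ ^ 2, by positivity, fun z' y' _ => ⟨?_, ?_⟩⟩
  · unfold actz
    rw [hden, hc]
    push_cast
    rw [norm_sq_c, map_zero]
    have e : (g 0 0 * z' + g 0 1) * conj (0 * z' + g 1 1) + g 0 0 * 0 * (y' : ℂ) ^ 2 =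
        (g 0 0 * z' + g 0 1) * conj (g 1 1) := by
      rw [zero_mul, zero_add]
      ring
    rw [e]
    field_simp
  · unfold acty
    rw [hden]
    field_simp

theorem act_cusp (g : SLC) (y : ℝ) (hy : 0 < y) (hc : g 1 0 ≠ 0) :
    actz g (-(g 1 1) / g 1 0) y = g 0 0 / g 1 0 ∧
      acty g (-(g 1 1) / g 1 0) y = 1 / (‖g 1 0‖ ^ 2 * y) := by
  have h0 : g 1 0 * (-(g 1 1) / g 1 0) + g 1 1 = 0 := by
    field_simp
    ring
  have hden : den g (-(g 1 1) / g 1 0) y = ‖g 1 0‖ ^ 2 * y ^ 2 := by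
    unfold den
    rw [h0]
    simp
  have hn : ‖g 1 0‖ ≠ 0 := norm_ne_zero_iff.2 hc
  have hy' : (y : ℂ) ≠ 0 := by exact_mod_cast hy.ne'
  constructor
  · unfold actz
    rw [hden, h0]
    push_cast
    rw [norm_sq_c, map_zero, mul_zero, zero_add]
    have hcc : conj (g 1 0) ≠ 0 := by
      intro h
      exact hc ((map_eq_zero _).1 h)
    field_simp
  · unfold acty
    rw [hden]
    field_simp

/-- row GACT -/
theorem gact_proof : GactStatement := by
  intro g k z y hy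
  exact ⟨den_pos g z y hy, acty_pos g z y hy, actz_mul g k z y hy, acty_mul g k z y hy,
    act_inf g, act_cusp g y hy⟩

end Pool.Agent.Lib.MP_50bb2e_nt.Imq.Gact
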