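import Pool.Agent.Lib.MP_50bb2e_nt.Imq.Iface
import Pool.Agent.Lib.MP_50bb2e_nt.Bia.Cvm

/-!
# Row GCVM: central values by the Mellin transform, for any Dirichlet series
-/

namespace Pool.Agent.Lib.MP_50bb2e_nt.Imq.Gcvm

open Complex MeasureTheory Filter Topology Set Asymptotics
open Pool.Agent.Lib.MP_50bb2e_nt.Bia (bes BesStatement)
open Pool.Agent.Lib.MP_50bb2e_nt.Bia.Cvm (bes_pow abel)

noncomputable section

variable {U : Type}

/-- the terms of the series -/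
def tm (e : U → ℂ) (ν : U → ℝ) (κ : ℝ) (a : U) (y : ℝ) : ℂ :=
  e a / (ν a : ℂ) ^ 2 * (bes (κ * ν a * y) : ℂ)

/-- the function -/
def ph (e : U → ℂ) (ν : U → ℝ) (κ : ℝ) (y : ℝ) : ℂ := ∑' a : U, tm e ν κ a y

theorem norm_tm (hB : BesStatement) (e : U → ℂ) (ν : U → ℝ) (κ : ℝ) (a : U) (y : ℝ) :
    ‖tm e ν κ a y‖ = ‖e a‖ / ν a ^ 2 * bes (κ * ν a * y) := by
  unfold tm
  rw [norm_mul, norm_div, norm_pow, Complex.norm_real, Complex.norm_real, Real.norm_eq_abs,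
    Real.norm_eq_abs, sq_abs, abs_of_nonneg (hB.2.1 _)]

theorem tm_bound (hB : BesStatement) {e : U → ℂ} {ν : U → ℝ} {κ ρ : ℝ} (hκ : 0 < κ)
    (hρ : 0 < ρ) (hν : ∀ a, ρ ≤ ν a) {A : ℕ} (N : ℕ) (hN : A ≤ N) :
    ∃ K : ℝ, 0 ≤ K ∧ ∀ a : U, ∀ y : ℝ, 0 < y →
      ‖tm e ν κ a y‖ ≤ K * (‖e a‖ / ν a ^ A) * (y ^ N)⁻¹ := by
  obtain ⟨K, hK0, hK⟩ := bes_pow hB N
  refine ⟨K / κ ^ N / ρ ^ (N + 2 - A), by positivity, fun a y hy => ?_⟩
  have hn0 : 0 < ν a := lt_of_lt_of_le hρ (hν a)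
  rw [norm_tm hB]
  have h1 : bes (κ * ν a * y) ≤ K / (κ * ν a * y) ^ N := hK _ (by positivity)
  have h0 : 0 ≤ bes (κ * ν a * y) := hB.2.1 _
  have h2 : ρ ^ (N + 2 - A) ≤ ν a ^ (N + 2 - A) := pow_le_pow_left₀ hρ.le (hν a) _
  have h3 : ν a ^ (N + 2) = ν a ^ (N + 2 - A) * ν a ^ A := by
    rw [← pow_add]
    congr 1
    omega
  calc ‖e a‖ / ν a ^ 2 * bes (κ * ν a * y)
      ≤ ‖e a‖ / ν a ^ 2 * (K / (κ * ν a * y) ^ N) := by gcongr
    _ = K / κ ^ N * (‖e a‖ / ν a ^ (N + 2)) * (y ^ N)⁻¹ := by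
        rw [mul_pow, mul_pow, pow_add]
        field_simp
    _ = K / κ ^ N / ν a ^ (N + 2 - A) * (‖e a‖ / ν a ^ A) * (y ^ N)⁻¹ := by
        rw [h3]
        field_simp
    _ ≤ K / κ ^ N / ρ ^ (N + 2 - A) * (‖e a‖ / ν a ^ A) * (y ^ N)⁻¹ := by gcongr

section main

variable (hB : BesStatement) {e : U → ℂ} {ν : U → ℝ} {κ ρ : ℝ} {l : ℂ}
  (hκ : 0 < κ) (hρ : 0 < ρ) (hν : ∀ a, ρ ≤ ν a) {A : ℕ}
  (hA : Summable fun a => ‖e a‖ / ν a ^ A)

include hB in
theorem tm_cont (a : U) : Continuous (tm e ν κ a) := by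
  unfold tm
  have h := hB.2.2.2.2.1
  have h1 : Continuous fun y : ℝ => bes (κ * ν a * y) := h.comp (by fun_prop)
  exact continuous_const.mul (Complex.continuous_ofReal.comp h1)

include hB hκ hρ hν hA in
theorem ph_contOn : ContinuousOn (ph e ν κ) (Ioi 0) := by
  intro y hy
  have hy : 0 < y := hy
  obtain ⟨K, hK0, hK⟩ := tm_bound (e := e) hB hκ hρ hν A le_rfl
  have h1 : ContinuousOn (ph e ν κ) (Ioi (y / 2)) := by
    refine continuousOn_tsum (α := U) (f := fun a => tm e ν κ a)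
      (u := fun a : U => K * (‖e a‖ / ν a ^ A) * ((y / 2) ^ A)⁻¹)
      (fun a => (tm_cont hB a).continuousOn) ((hA.mul_left K).mul_right _) ?_
    intro a x hx
    have hx : y / 2 < x := hx
    refine (hK a x (by linarith)).trans ?_
    have hn0 : 0 < ν a := lt_of_lt_of_le hρ (hν a)
    gcongr
  exact (h1.continuousAt (Ioi_mem_nhds (by linarith))).continuousWithinAt

include hB hκ hρ hν hA in
theorem ph_bound (N : ℕ) (hN : A ≤ N) : ∃ K : ℝ, ∀ y : ℝ, 0 < y →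
    ‖ph e ν κ y‖ ≤ K * (y ^ N)⁻¹ := by
  obtain ⟨K, hK0, hK⟩ := tm_bound (e := e) hB hκ hρ hν N hN
  refine ⟨K * ∑' a : U, ‖e a‖ / ν a ^ A, fun y hy => ?_⟩
  have h1 : HasSum (fun a : U => K * (‖e a‖ / ν a ^ A) * (y ^ N)⁻¹)
      (K * (∑' a : U, ‖e a‖ / ν a ^ A) * (y ^ N)⁻¹) :=
    (hA.hasSum.mul_left K).mul_right _
  exact tsum_of_norm_bounded h1 fun a => hK a y hy

include hB hκ hρ hν hA in
theorem ph_top (r : ℝ) : ph e ν κ =O[atTop] (· ^ (-r) : ℝ → ℝ) := by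
  obtain ⟨N, hN⟩ := exists_nat_ge (max r (A : ℝ))
  have hN1 : A ≤ N := by exact_mod_cast (le_max_right _ _).trans hN
  obtain ⟨K, hK⟩ := ph_bound hB hκ hρ hν hA N hN1
  refine IsBigO.of_bound K ?_
  filter_upwards [eventually_ge_atTop 1] with y hy
  have hy0 : 0 < y := by linarith
  have h1 := hK y hy0
  have hK0 : 0 ≤ K := by
    have h2 := (norm_nonneg _).trans h1
    exact nonneg_of_mul_nonneg_left h2 (by positivity)
  refine h1.trans ?_
  rw [Real.norm_of_nonneg (Real.rpow_nonneg hy0.le _)]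
  gcongr
  rw [← Real.rpow_natCast, ← Real.rpow_neg hy0.le]
  exact Real.rpow_le_rpow_of_exponent_le hy (by have := (le_max_left _ _).trans hN; linarith)

include hB hκ hρ hν hA in
theorem ph_loc : LocallyIntegrableOn (ph e ν κ) (Ioi 0) :=
  (ph_contOn hB hκ hρ hν hA).locallyIntegrableOn measurableSet_Ioi

theorem ph_bot (hl : Tendsto (ph e ν κ) (𝓝[>] 0) (𝓝 l)) :
    ph e ν κ =O[𝓝[>] 0] (· ^ (-(0 : ℝ)) : ℝ → ℝ) := by
  have h1 := hl.isBigO_one ℝ
  refine h1.trans ?_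
  refine IsBigO.of_bound 1 ?_
  filter_upwards with y
  simp

include hB hκ hρ hν hA in
theorem ph_conv (hl : Tendsto (ph e ν κ) (𝓝[>] 0) (𝓝 l)) (w : ℂ) (hw : 0 < w.re) :
    MellinConvergent (ph e ν κ) w :=
  mellinConvergent_of_isBigO_rpow (ph_loc hB hκ hρ hν hA)
    (ph_top hB hκ hρ hν hA (w.re + 1)) (by linarith) (ph_bot hl) hw

include hB hκ hρ hν hA in
theorem ph_diff (hl : Tendsto (ph e ν κ) (𝓝[>] 0) (𝓝 l)) (w : ℂ) (hw : 0 < w.re) :
    DifferentiableAt ℂ (mellin (ph e ν κ)) w :=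
  mellin_differentiableAt_of_isBigO_rpow (ph_loc hB hκ hρ hν hA)
    (ph_top hB hκ hρ hν hA (w.re + 1)) (by linarith) (ph_bot hl) hw

include hB hκ hρ hν hA in
theorem ph_int (hl : Tendsto (ph e ν κ) (𝓝[>] 0) (𝓝 l)) :
    IntegrableOn (ph e ν κ) (Ioi 0) := by
  have h := ph_conv hB hκ hρ hν hA hl 1 (by simp)
  unfold MellinConvergent at h
  refine h.congr_fun (fun t ht => ?_) measurableSet_Ioi
  simp

include hB hκ hρ hν in
theorem tm_mellin (a : U) (w : ℂ) (hw : 0 < w.re) :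
    MellinConvergent (tm e ν κ a) w ∧
      mellin (tm e ν κ a) w = e a / (ν a : ℂ) ^ 2 * (((κ * ν a : ℝ) : ℂ) ^ (-w) *
        mellin (fun x => (bes x : ℂ)) w) := by
  have hn : 0 < κ * ν a := mul_pos hκ (lt_of_lt_of_le hρ (hν a))
  obtain ⟨h1, -⟩ := hB.2.2.2.2.2 w hw
  have h2 : MellinConvergent (fun y => (bes (κ * ν a * y) : ℂ)) w :=
    (MellinConvergent.comp_mul_left (f := fun x => (bes x : ℂ)) hn).2 h1
  have h3 : mellin (fun y => (bes (κ * ν a * y) : ℂ)) w =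
      ((κ * ν a : ℝ) : ℂ) ^ (-w) • mellin (fun x => (bes x : ℂ)) w :=
    mellin_comp_mul_left (fun x => (bes x : ℂ)) w hn
  have h4 : tm e ν κ a = fun y => (e a / (ν a : ℂ) ^ 2) • (bes (κ * ν a * y) : ℂ) := by
    funext y
    rfl
  rw [h4]
  refine ⟨h2.const_smul _, ?_⟩
  rw [mellin_const_smul, h3, smul_eq_mul, smul_eq_mul]

include hB hκ hρ hν hA in
theorem ph_mellin [Countable U] (w : ℂ) (hw0 : 0 < w.re) (hw : (A : ℝ) < w.re) :
    HasSum (fun a : U => e a / (ν a : ℂ) ^ 2 * (((κ * ν a : ℝ) : ℂ) ^ (-w) *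
        mellin (fun x => (bes x : ℂ)) w)) (mellin (ph e ν κ) w) := by
  have h1 : ∀ a : U, Integrable (fun y : ℝ => (y : ℂ) ^ (w - 1) • tm e ν κ a y)
      (volume.restrict (Ioi 0)) := by
    intro a
    exact (tm_mellin hB hκ hρ hν a w hw0).1
  set K : ℝ := ∫ y in Ioi (0 : ℝ), y ^ (w.re - 1) * bes y with hK
  have h2 : ∀ a : U, ∫ y in Ioi (0 : ℝ), ‖(y : ℂ) ^ (w - 1) • tm e ν κ a y‖ =
      ‖e a‖ / ν a ^ 2 * ((κ * ν a) ^ (-w.re) * K) := by
    intro a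
    have hn : 0 < κ * ν a := mul_pos hκ (lt_of_lt_of_le hρ (hν a))
    have h3 : ∫ y in Ioi (0 : ℝ), ‖(y : ℂ) ^ (w - 1) • tm e ν κ a y‖ =
        ∫ y in Ioi (0 : ℝ), ‖e a‖ / ν a ^ 2 * (κ * ν a) ^ (-(w.re - 1)) *
          ((fun u : ℝ => u ^ (w.re - 1) * bes u) (κ * ν a * y)) := by
      refine setIntegral_congr_fun measurableSet_Ioi fun y hy => ?_
      have hy : 0 < y := hy
      simp only [norm_smul]
      rw [norm_tm hB, Complex.norm_cpow_eq_rpow_re_of_pos hy, Real.mul_rpow hn.le hy.le,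
        Real.rpow_neg hn.le]
      have h5 : (κ * ν a) ^ (w.re - 1) ≠ 0 := (Real.rpow_pos_of_pos hn _).ne'
      simp only [Complex.sub_re, Complex.one_re]
      generalize (κ * ν a) ^ (w.re - 1) = q at h5 ⊢
      field_simp
    rw [h3, integral_const_mul, integral_comp_mul_left_Ioi (fun u : ℝ => u ^ (w.re - 1) * bes u)
      0 hn, mul_zero, ← hK, smul_eq_mul]
    have h6 : (κ * ν a) ^ (-w.re) =
        (κ * ν a) ^ (-(w.re - 1)) * (κ * ν a)⁻¹ := by
      rw [← Real.rpow_neg_one, ← Real.rpow_add hn]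
      ring_nf
    rw [h6]
    ring
  have h4 : Summable fun a : U => ∫ y in Ioi (0 : ℝ), ‖(y : ℂ) ^ (w - 1) • tm e ν κ a y‖ := by
    have h5 : Summable fun a : U =>
        κ ^ (-w.re) * |K| * ρ ^ (-((2 : ℝ) + (w.re - A))) * (‖e a‖ / ν a ^ A) :=
      hA.mul_left _
    refine h5.of_norm_bounded fun a => ?_
    have hn0 : 0 < ν a := lt_of_lt_of_le hρ (hν a)
    rw [h2 a, Real.norm_eq_abs, abs_mul, abs_mul, abs_of_nonneg (by positivity),
      abs_of_nonneg (Real.rpow_nonneg (mul_pos hκ hn0).le _), Real.mul_rpow hκ.le hn0.le]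
    have h6 : ν a ^ (-((2 : ℝ) + (w.re - A))) =
        ν a ^ A / ν a ^ 2 * ν a ^ (-w.re) := by
      rw [show -((2 : ℝ) + (w.re - A)) = (A : ℝ) - (2 : ℕ) + -w.re by push_cast; ring,
        Real.rpow_add hn0, Real.rpow_sub hn0, Real.rpow_natCast, Real.rpow_natCast]
    have h7 : ν a ^ (-((2 : ℝ) + (w.re - A))) ≤ ρ ^ (-((2 : ℝ) + (w.re - A))) :=
      Real.rpow_le_rpow_of_nonpos hρ (hν a) (by linarith)
    rw [h6] at h7
    have h8 : 0 ≤ κ ^ (-w.re) := Real.rpow_nonneg hκ.le _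
    calc ‖e a‖ / ν a ^ 2 * (κ ^ (-w.re) * ν a ^ (-w.re) * |K|)
        = κ ^ (-w.re) * |K| * (ν a ^ A / ν a ^ 2 * ν a ^ (-w.re)) * (‖e a‖ / ν a ^ A) := by
          field_simp
      _ ≤ _ := by gcongr
  have h5 := hasSum_integral_of_summable_integral_norm h1 h4
  have h6 : mellin (ph e ν κ) w =
      ∫ y in Ioi (0 : ℝ), ∑' a : U, (y : ℂ) ^ (w - 1) • tm e ν κ a y := by
    unfold mellin
    refine setIntegral_congr_fun measurableSet_Ioi fun y hy => ?_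
    simp only [smul_eq_mul]
    rw [tsum_mul_left]
    rfl
  rw [h6]
  have h7 : (fun a : U => e a / (ν a : ℂ) ^ 2 * (((κ * ν a : ℝ) : ℂ) ^ (-w) *
      mellin (fun x => (bes x : ℂ)) w)) =
      fun a : U => ∫ y in Ioi (0 : ℝ), (y : ℂ) ^ (w - 1) • tm e ν κ a y := by
    funext a
    exact (tm_mellin hB hκ hρ hν a w hw0).2.symm
  rw [h7]
  exact h5

include hB hκ hρ hν hA in
theorem core [Countable U] (hl' : Tendsto (ph e ν κ) (𝓝[>] 0) (𝓝 l)) :
    ∃ L : ℂ → ℂ, DifferentiableOn ℂ L {s | 1 < s.re} ∧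
      (∃ σ : ℝ, ∀ s : ℂ, σ < s.re → HasSum (fun t => e t * (ν t : ℂ) ^ (-2 * s)) (L s)) ∧
      Tendsto (fun t : ℝ => L t) (𝓝[>] 1) (𝓝 l) := by
  have hκ0 : (κ : ℂ) ≠ 0 := Complex.ofReal_ne_zero.2 hκ.ne'
  have hG : ∀ s : ℂ, 0 < s.re → Complex.Gamma s ≠ 0 := fun s hs =>
    Complex.Gamma_ne_zero_of_re_pos hs
  have h2 : ∀ w : ℂ, (2 : ℂ) ^ w ≠ 0 := fun w => by
    rw [Complex.cpow_def_of_ne_zero two_ne_zero]
    exact Complex.exp_ne_zero _
  refine ⟨fun s => (2 * s - 2) * mellin (ph e ν κ) (2 * s - 2) * (κ : ℂ) ^ (2 * s - 2) /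
    ((2 : ℂ) ^ (2 * s - 2) * Complex.Gamma s ^ 2), ?_, ⟨A + 2, ?_⟩, ?_⟩
  · intro s hs
    have hs : 1 < s.re := hs
    have hw : 0 < (2 * s - 2).re := by
      simp only [Complex.sub_re, Complex.mul_re, Complex.re_ofNat, Complex.im_ofNat]
      linarith
    refine DifferentiableAt.differentiableWithinAt ?_
    have d1 : DifferentiableAt ℂ (fun s : ℂ => 2 * s - 2) s := by fun_prop
    have d2 : DifferentiableAt ℂ (fun s : ℂ => mellin (ph e ν κ) (2 * s - 2)) s :=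
      DifferentiableAt.comp (f := fun s : ℂ => 2 * s - 2) s
        (ph_diff hB hκ hρ hν hA hl' _ hw) d1
    have d3 : DifferentiableAt ℂ (fun s : ℂ => (κ : ℂ) ^ (2 * s - 2)) s :=
      d1.const_cpow (Or.inl hκ0)
    have d4 : DifferentiableAt ℂ (fun s : ℂ => (2 : ℂ) ^ (2 * s - 2)) s :=
      d1.const_cpow (Or.inl two_ne_zero)
    have d5 : DifferentiableAt ℂ Complex.Gamma s := by
      refine Complex.differentiableAt_Gamma s fun m hm => ?_
      have := congrArg Complex.re hm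
      simp at this
      have h0 : (0 : ℝ) ≤ m := Nat.cast_nonneg m
      linarith
    exact ((d1.mul d2).mul d3).div (d4.mul (d5.pow 2))
      (mul_ne_zero (h2 _) (pow_ne_zero _ (hG s (by linarith))))
  · intro s hs
    have hA0 : (0 : ℝ) ≤ A := Nat.cast_nonneg A
    obtain ⟨w, hw⟩ : ∃ w : ℂ, w = 2 * s - 2 := ⟨_, rfl⟩
    have hs' : s = w / 2 + 1 := by rw [hw]; ring
    have hwre : w.re = 2 * s.re - 2 := by
      rw [hw]
      simp
    have hwA : (A : ℝ) < w.re := by rw [hwre]; linarith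
    have hw0 : 0 < w.re := by linarith
    have hwne : w ≠ 0 := fun h => by
      rw [h] at hw0
      simp at hw0
    have h1 := ph_mellin hB hκ hρ hν hA w hw0 hwA
    rw [(hB.2.2.2.2.2 w hw0).2] at h1
    have h3 := h1.mul_left (w * (κ : ℂ) ^ w / ((2 : ℂ) ^ w * Complex.Gamma s ^ 2))
    simp only
    rw [← hw]
    have h4 : w * mellin (ph e ν κ) w * (κ : ℂ) ^ w / ((2 : ℂ) ^ w * Complex.Gamma s ^ 2) =
        w * (κ : ℂ) ^ w / ((2 : ℂ) ^ w * Complex.Gamma s ^ 2) * mellin (ph e ν κ) w := by ring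
    rw [h4]
    refine Eq.subst (motive := fun F => HasSum F _) (funext fun a => Eq.symm ?_) h3
    have hn0 : 0 < ν a := lt_of_lt_of_le hρ (hν a)
    have hnc : ((ν a : ℝ) : ℂ) ≠ 0 := Complex.ofReal_ne_zero.2 hn0.ne'
    have h5 : (((κ * ν a : ℝ) : ℂ)) ^ (-w) =
        (κ : ℂ) ^ (-w) * ((ν a : ℝ) : ℂ) ^ (-w) := by
      rw [Complex.ofReal_mul, Complex.mul_cpow_ofReal_nonneg hκ.le hn0.le]
    have h6 : ((ν a : ℝ) : ℂ) ^ (-2 * s) =
        (((ν a : ℝ) : ℂ) ^ 2)⁻¹ * ((ν a : ℝ) : ℂ) ^ (-w) := by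
      rw [show -2 * s = -(2 : ℕ) + -w by rw [hs']; push_cast; ring, Complex.cpow_add _ _ hnc,
        Complex.cpow_neg, Complex.cpow_natCast]
    have h7 : Complex.Gamma s = w / 2 * Complex.Gamma (w / 2) := by
      rw [hs', Complex.Gamma_add_one _ (div_ne_zero hwne two_ne_zero)]
    have h8 : (2 : ℂ) ^ (w - 1) = (2 : ℂ) ^ w / 2 := by
      rw [Complex.cpow_sub _ _ two_ne_zero, Complex.cpow_one]
    have h9 : (κ : ℂ) ^ (-w) = ((κ : ℂ) ^ w)⁻¹ := Complex.cpow_neg _ _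
    have h10 : (κ : ℂ) ^ w ≠ 0 := by
      rw [Complex.cpow_def_of_ne_zero hκ0]
      exact Complex.exp_ne_zero _
    have h11 : Complex.Gamma (w / 2 + 1) = Complex.Gamma s := by rw [hs']
    have h12 : Complex.Gamma s ≠ 0 := hG s (by linarith)
    rw [h5, h6, h8, h9, h11]
    have h13 : Complex.Gamma (w / 2) = Complex.Gamma s / (w / 2) := by
      rw [h7]
      field_simp
    rw [h13]
    have h14 := h2 w
    generalize Complex.Gamma s = G at h12 ⊢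
    generalize (2 : ℂ) ^ w = T at h14 ⊢
    generalize (κ : ℂ) ^ w = X at h10 ⊢
    field_simp
  · have h1 := abel (ph_int hB hκ hρ hν hA hl') hl'
    have h3 : Tendsto (fun t : ℝ => 2 * t - 2) (𝓝[>] 1) (𝓝[>] 0) := by
      refine tendsto_nhdsWithin_iff.2 ⟨?_, ?_⟩
      · have : Tendsto (fun t : ℝ => 2 * t - 2) (𝓝 1) (𝓝 (2 * 1 - 2)) :=
          (tendsto_id.const_mul 2).sub_const 2
        norm_num at this
        exact this.mono_left nhdsWithin_le_nhds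
      · filter_upwards [self_mem_nhdsWithin] with t ht
        have ht : 1 < t := ht
        show 0 < 2 * t - 2
        linarith
    have h4 := h1.comp h3
    have h5 : Tendsto (fun t : ℝ => (κ : ℂ) ^ (2 * (t : ℂ) - 2) /
        ((2 : ℂ) ^ (2 * (t : ℂ) - 2) * Complex.Gamma t ^ 2)) (𝓝[>] 1) (𝓝 1) := by
      have c1 : ContinuousAt (fun t : ℝ => 2 * (t : ℂ) - 2) 1 := by fun_prop
      have c2 : ContinuousAt (fun t : ℝ => (κ : ℂ) ^ (2 * (t : ℂ) - 2)) 1 :=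
        c1.const_cpow (Or.inl hκ0)
      have c3 : ContinuousAt (fun t : ℝ => (2 : ℂ) ^ (2 * (t : ℂ) - 2)) 1 :=
        c1.const_cpow (Or.inl two_ne_zero)
      have c4 : ContinuousAt (fun t : ℝ => Complex.Gamma (t : ℂ)) 1 := by
        have c5 : ContinuousAt Complex.Gamma ((1 : ℝ) : ℂ) := by
          refine (Complex.differentiableAt_Gamma _ fun m hm => ?_).continuousAt
          have := congrArg Complex.re hm
          simp at this
          have h0 : (0 : ℝ) ≤ m := Nat.cast_nonneg m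
          linarith
        exact ContinuousAt.comp (f := fun t : ℝ => (t : ℂ)) c5
          Complex.continuous_ofReal.continuousAt
      have c6 : ContinuousAt (fun t : ℝ => (κ : ℂ) ^ (2 * (t : ℂ) - 2) /
          ((2 : ℂ) ^ (2 * (t : ℂ) - 2) * Complex.Gamma t ^ 2)) 1 := by
        refine c2.div (c3.mul (c4.pow 2)) (mul_ne_zero (h2 _) (pow_ne_zero _ ?_))
        exact hG _ (by simp)
      have c7 := c6.tendsto
      simp only [Complex.ofReal_one, Complex.Gamma_one] at c7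
      norm_num at c7
      exact c7.mono_left nhdsWithin_le_nhds
    have h6 := h4.mul h5
    rw [mul_one] at h6
    refine h6.congr fun t => ?_
    simp only [Function.comp]
    push_cast
    ring

end main

theorem gcvm_proof (hB : BesStatement) : GcvmStatement := by
  intro T e ν κ ρ l hκ hρ hν ⟨r, hr⟩ hl
  obtain ⟨A, hA⟩ := exists_nat_ge r
  obtain ⟨e', he'⟩ : ∃ e' : {t // e t ≠ 0} → ℂ, e' = fun t => e t.1 := ⟨_, rfl⟩
  obtain ⟨ν', hν'⟩ : ∃ ν' : {t // e t ≠ 0} → ℝ, ν' = fun t => ν t.1 := ⟨_, rfl⟩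
  have hνρ : ∀ t, ρ ≤ ν' t := fun t => by
    rw [hν']
    exact hν t.1 t.2
  have hr' : Summable fun t : {t // e t ≠ 0} => ‖e' t‖ * ν' t ^ (-r) := by
    rw [he', hν']
    exact hr.subtype {t | e t ≠ 0}
  have hne : ∀ t, e' t ≠ 0 := fun t => by
    rw [he']
    exact t.2
  have hcount : Countable {t // e t ≠ 0} := by
    have h1 := hr'.countable_support
    have h2 : Function.support (fun t : {t // e t ≠ 0} => ‖e' t‖ * ν' t ^ (-r)) = Set.univ := by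
      ext t
      simp only [Function.mem_support, Set.mem_univ, iff_true]
      exact mul_ne_zero (norm_ne_zero_iff.2 (hne t))
        (Real.rpow_pos_of_pos (lt_of_lt_of_le hρ (hνρ t)) _).ne'
    rw [h2] at h1
    exact Set.countable_univ_iff.1 h1
  have hA' : Summable fun t : {t // e t ≠ 0} => ‖e' t‖ / ν' t ^ A := by
    refine (hr'.mul_left (ρ ^ (-((A : ℝ) - r)))).of_norm_bounded fun t => ?_
    have hn0 : 0 < ν' t := lt_of_lt_of_le hρ (hνρ t)
    rw [Real.norm_of_nonneg (by positivity)]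
    have h1 : ν' t ^ (-((A : ℝ) - r)) ≤ ρ ^ (-((A : ℝ) - r)) :=
      Real.rpow_le_rpow_of_nonpos hρ (hνρ t) (by linarith)
    have h2 : (ν' t ^ A)⁻¹ = ν' t ^ (-((A : ℝ) - r)) * ν' t ^ (-r) := by
      rw [← Real.rpow_add hn0, ← Real.rpow_natCast, ← Real.rpow_neg hn0.le]
      congr 1
      ring
    rw [div_eq_mul_inv, h2]
    have h3 : 0 ≤ ν' t ^ (-r) := Real.rpow_nonneg hn0.le _
    calc ‖e' t‖ * (ν' t ^ (-((A : ℝ) - r)) * ν' t ^ (-r))
        = ν' t ^ (-((A : ℝ) - r)) * (‖e' t‖ * ν' t ^ (-r)) := by ring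
      _ ≤ _ := by gcongr
  have hl' : Tendsto (ph e' ν' κ) (𝓝[>] 0) (𝓝 l) := by
    refine hl.congr fun y => ?_
    unfold ph tm
    rw [he', hν']
    refine (tsum_subtype_eq_of_support_subset (s := {t | e t ≠ 0})
      (f := fun t => e t / (ν t : ℂ) ^ 2 * (bes (κ * ν t * y) : ℂ)) ?_).symm
    intro t ht
    simp only [Function.mem_support] at ht
    intro h
    apply ht
    rw [h]
    simp
  obtain ⟨L, hL1, ⟨σ, hσ⟩, hL3⟩ := core hB hκ hρ hνρ hA' hl'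
  refine ⟨L, hL1, ⟨σ, fun s hs => ?_⟩, hL3⟩
  have h1 := hσ s hs
  rw [he', hν'] at h1
  refine (hasSum_subtype_iff_of_support_subset (s := {t | e t ≠ 0})
    (f := fun t => e t * (ν t : ℂ) ^ (-2 * s)) ?_).1 h1
  intro t ht
  simp only [Function.mem_support] at ht
  intro h
  apply ht
  rw [h]
  simp

end

end Pool.Agent.Lib.MP_50bb2e_nt.Imq.Gcvm
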