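import Pool.Agent.Lib.MP_50bb2e_nt.Imq.Gfg
import Pool.Agent.Lib.MP_50bb2e_nt.Imq.Gcvm
import Pool.Agent.Lib.MP_50bb2e_nt.PP.Lmain

/-!
MP_50bb2e_nt, board IMQ, row GINT: the central L-values of the ray classes modulo
`D0 * D`, `D0` fixed and `D` odd, are bounded at `2`.
-/

namespace Pool.Agent.Lib.MP_50bb2e_nt.Imq.Gint

set_option linter.unusedSectionVars false

open Complex Filter Topology NumberField
open scoped ComplexConjugate nonZeroDivisors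
open Pool.Agent.Lib.MP_50bb2e_nt.Bia (bes ee kap BesStatement)
open Pool.Agent.Lib.MP_50bb2e_nt.Imq
open Pool.Agent.Lib.MP_50bb2e_nt.Imq.Gfg (Nm Nm_mul Nm_pos Nm_inv prin Nm_prin addmem submem
  negmem)

noncomputable section

variable {K : Type} [Field K] [NumberField K]

/-! ### The ideals `a A^(-1)` -/

/-- the principal fractional ideal -/
abbrev sp (a : K) : FractionalIdeal (𝓞 K)⁰ K := FractionalIdeal.spanSingleton (𝓞 K)⁰ a

theorem mem_iff (A : FI K) (a : K) :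
    (∃ I : Ideal (𝓞 K), (I : FractionalIdeal (𝓞 K)⁰ K) =
      sp a * ((A⁻¹ : FI K) : FractionalIdeal (𝓞 K)⁰ K)) ↔
      a ∈ (A : FractionalIdeal (𝓞 K)⁰ K) := by
  rw [← FractionalIdeal.le_one_iff_exists_coeIdeal, ← FractionalIdeal.spanSingleton_le_iff_mem]
  constructor
  · intro h
    have h1 := mul_le_mul_left h (A : FractionalIdeal (𝓞 K)⁰ K)
    rwa [mul_assoc, Units.inv_mul, mul_one, one_mul] at h1
  · intro h
    have h1 := mul_le_mul_left h ((A⁻¹ : FI K) : FractionalIdeal (𝓞 K)⁰ K)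
    rwa [Units.mul_inv] at h1

open Classical in
/-- the ideal `a A^(-1)` -/
def Ia (A : FI K) (a : K) : Ideal (𝓞 K) :=
  if h : ∃ I : Ideal (𝓞 K), (I : FractionalIdeal (𝓞 K)⁰ K) =
    sp a * ((A⁻¹ : FI K) : FractionalIdeal (𝓞 K)⁰ K) then h.choose else ⊥

theorem Ia_spec {A : FI K} {a : K} (ha : a ∈ (A : FractionalIdeal (𝓞 K)⁰ K)) :
    (Ia A a : FractionalIdeal (𝓞 K)⁰ K) = sp a * ((A⁻¹ : FI K) : FractionalIdeal (𝓞 K)⁰ K) := by
  have h := (mem_iff A a).2 ha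
  unfold Ia
  rw [dif_pos h]
  exact h.choose_spec

theorem Ia_eq {A : FI K} {a : K} {I : Ideal (𝓞 K)}
    (h : (I : FractionalIdeal (𝓞 K)⁰ K) = sp a * ((A⁻¹ : FI K) : FractionalIdeal (𝓞 K)⁰ K)) :
    Ia A a = I := by
  have h1 := (mem_iff A a).1 ⟨I, h⟩
  rw [← FractionalIdeal.coeIdeal_inj (K := K), Ia_spec h1, h]

theorem cF_eq (c : Ideal (𝓞 K) → ℂ) {A : FI K} {a : K}
    (ha : a ∈ (A : FractionalIdeal (𝓞 K)⁰ K)) :
    cF c (sp a * ((A⁻¹ : FI K) : FractionalIdeal (𝓞 K)⁰ K)) = c (Ia A a) := by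
  have h := (mem_iff A a).2 ha
  unfold cF Ia
  rw [dif_pos h, dif_pos h]

theorem cF_zero (c : Ideal (𝓞 K) → ℂ) {A : FI K} {a : K}
    (ha : a ∉ (A : FractionalIdeal (𝓞 K)⁰ K)) :
    cF c (sp a * ((A⁻¹ : FI K) : FractionalIdeal (𝓞 K)⁰ K)) = 0 := by
  unfold cF
  rw [dif_neg (fun h => ha ((mem_iff A a).1 h))]

theorem Ia_norm {i : K →+* ℂ} (hN : ∀ a : K, (‖i a‖ ^ 2 : ℝ) = |(Algebra.norm ℚ a : ℝ)|)
    {A : FI K} {a : K} (ha : a ∈ (A : FractionalIdeal (𝓞 K)⁰ K)) :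
    (Ideal.absNorm (Ia A a) : ℝ) * Nm A = ‖i a‖ ^ 2 := by
  have h1 : FractionalIdeal.absNorm (Ia A a : FractionalIdeal (𝓞 K)⁰ K) =
      FractionalIdeal.absNorm (sp a * ((A⁻¹ : FI K) : FractionalIdeal (𝓞 K)⁰ K)) := by
    rw [Ia_spec ha]
  rw [FractionalIdeal.coeIdeal_absNorm, map_mul, FractionalIdeal.absNorm_span_singleton] at h1
  have h2 : (Ideal.absNorm (Ia A a) : ℝ) = |(Algebra.norm ℚ a : ℝ)| * Nm A⁻¹ := by
    have h3 : ((Ideal.absNorm (Ia A a) : ℚ) : ℝ) = ((|Algebra.norm ℚ a| *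
        FractionalIdeal.absNorm ((A⁻¹ : FI K) : FractionalIdeal (𝓞 K)⁰ K) : ℚ) : ℝ) := by rw [h1]
    rw [Rat.cast_mul, Rat.cast_abs, Rat.cast_natCast] at h3
    exact h3
  rw [h2, hN, mul_assoc, mul_comm (Nm A⁻¹), Nm_inv, mul_one]

/-! ### Representatives of the classes -/

theorem class_reps (K : Type) [Field K] [NumberField K] : ∃ R : Finset (FI K),
    ∀ J : Ideal (𝓞 K), J ≠ ⊥ → ∃ A ∈ R, ∃ α : K, α ≠ 0 ∧
      (A : FractionalIdeal (𝓞 K)⁰ K) * (J : FractionalIdeal (𝓞 K)⁰ K) = sp α := by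
  classical
  have hsurj : ∀ x : ClassGroup (𝓞 K), ∃ I : FI K, ClassGroup.mk K I = x := by
    exact ClassGroup.induction K (fun I => ⟨I, rfl⟩)
  choose g hg using hsurj
  refine ⟨Finset.univ.image g, fun J hJ => ?_⟩
  have hJ0 : (J : FractionalIdeal (𝓞 K)⁰ K) ≠ 0 := by
    rwa [Ne, FractionalIdeal.coeIdeal_eq_zero]
  set J' : FI K := Units.mk0 (J : FractionalIdeal (𝓞 K)⁰ K) hJ0 with hJ'
  refine ⟨g (ClassGroup.mk K J')⁻¹, Finset.mem_image_of_mem _ (Finset.mem_univ _), ?_⟩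
  have h1 : ClassGroup.mk K (g (ClassGroup.mk K J')⁻¹ * J') = 1 := by
    rw [map_mul, hg, inv_mul_cancel]
  rw [ClassGroup.mk_eq_one_iff, FractionalIdeal.isPrincipal_iff] at h1
  obtain ⟨α, hα⟩ := h1
  refine ⟨α, ?_, ?_⟩
  · rintro rfl
    rw [FractionalIdeal.spanSingleton_zero] at hα
    exact (g (ClassGroup.mk K J')⁻¹ * J').ne_zero hα
  · show _ = FractionalIdeal.spanSingleton (𝓞 K)⁰ α
    rw [← hα, Units.val_mul, hJ', Units.val_mk0]

/-! ### The ray class and the residue class -/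

/-- the non-zero elements of the residue class -/
def InS (M : Ideal (𝓞 K)) (A : FI K) (α : K) (a : K) : Prop :=
  a ≠ 0 ∧ a - α ∈ (M : FractionalIdeal (𝓞 K)⁰ K) * (A : FractionalIdeal (𝓞 K)⁰ K)

theorem MA_le (M : Ideal (𝓞 K)) (A : FI K) :
    (M : FractionalIdeal (𝓞 K)⁰ K) * (A : FractionalIdeal (𝓞 K)⁰ K) ≤ A := by
  have h0 : (M : FractionalIdeal (𝓞 K)⁰ K) ≤ 1 := FractionalIdeal.coeIdeal_le_one
  have h := mul_le_mul_left h0 (A : FractionalIdeal (𝓞 K)⁰ K)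
  rwa [one_mul] at h

theorem smul_mem_MA {M : Ideal (𝓞 K)} {A : FI K} {m : 𝓞 K} (hm : m ∈ M) {a : K}
    (ha : a ∈ (A : FractionalIdeal (𝓞 K)⁰ K)) :
    (m : K) * a ∈ (M : FractionalIdeal (𝓞 K)⁰ K) * (A : FractionalIdeal (𝓞 K)⁰ K) :=
  FractionalIdeal.mul_mem_mul (FractionalIdeal.mem_coeIdeal_of_mem _ hm) ha

section ray

variable {M J : Ideal (𝓞 K)} {A : FI K} {α : K}
  (hJ : J ≠ ⊥) (hMJ : M ⊔ J = ⊤) (hα : α ≠ 0)
  (hA : (A : FractionalIdeal (𝓞 K)⁰ K) * (J : FractionalIdeal (𝓞 K)⁰ K) = sp α)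

include hA

theorem alpha_mem : α ∈ (A : FractionalIdeal (𝓞 K)⁰ K) := by
  rw [← FractionalIdeal.spanSingleton_le_iff_mem]
  show sp α ≤ _
  rw [← hA, mul_comm]
  exact MA_le J A

theorem InS_mem {a : K} (h : InS M A α a) : a ∈ (A : FractionalIdeal (𝓞 K)⁰ K) := by
  have h1 := addmem (MA_le M A h.2) (alpha_mem hA)
  rwa [sub_add_cancel] at h1

theorem J_eq : (J : FractionalIdeal (𝓞 K)⁰ K) =
    sp α * ((A⁻¹ : FI K) : FractionalIdeal (𝓞 K)⁰ K) := by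
  rw [← hA, mul_comm (A : FractionalIdeal (𝓞 K)⁰ K), mul_assoc, Units.mul_inv, mul_one]

include hJ hMJ hα in
theorem ray_of {a : K} (h : InS M A α a) : RayEq M (Ia A a) J := by
  obtain ⟨j, hj0, hjJ, hjM⟩ : ∃ j : 𝓞 K, j ≠ 0 ∧ j ∈ J ∧ j - 1 ∈ M := by
    have h1 : (1 : 𝓞 K) ∈ M ⊔ J := by rw [hMJ]; exact Submodule.mem_top
    obtain ⟨m, hm, j, hj, h2⟩ := Submodule.mem_sup.1 h1
    by_cases hj0 : j = 0
    · have h3 : (1 : 𝓞 K) ∈ M := by rw [← h2, hj0, add_zero]; exact hm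
      obtain ⟨x, hx, hx0⟩ := Submodule.exists_mem_ne_zero_of_ne_bot hJ
      refine ⟨x, hx0, hx, ?_⟩
      have h4 := M.mul_mem_left (x - 1) h3
      rwa [mul_one] at h4
    · refine ⟨j, hj0, hj, ?_⟩
      have h4 : j - 1 = -m := by rw [← h2]; ring
      rw [h4]
      exact neg_mem hm
  have h1 : (j : K) * (a - α) ∈ sp α * (M : FractionalIdeal (𝓞 K)⁰ K) := by
    have h2 := FractionalIdeal.mul_mem_mul (FractionalIdeal.mem_coeIdeal_of_mem (𝓞 K)⁰ hjJ) h.2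
    have h3 : (J : FractionalIdeal (𝓞 K)⁰ K) * ((M : FractionalIdeal (𝓞 K)⁰ K) *
        (A : FractionalIdeal (𝓞 K)⁰ K)) = sp α * (M : FractionalIdeal (𝓞 K)⁰ K) := by
      rw [← hA]; ring
    rw [h3] at h2
    exact h2
  rw [FractionalIdeal.mem_singleton_mul] at h1
  obtain ⟨m', hm', h2⟩ := h1
  obtain ⟨m, hm, rfl⟩ := (FractionalIdeal.mem_coeIdeal _).1 hm'
  have h3 : ((j + m : 𝓞 K) : K) * α = (j : K) * a := by
    have e : ((j + m : 𝓞 K) : K) = (j : K) + (m : K) := by simp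
    rw [e]
    have h2' : (j : K) * (a - α) = α * (m : K) := h2
    linear_combination -h2'
  refine ⟨j, j + m, hj0, ?_, hjM, ?_, ?_⟩
  · intro h4
    rw [h4] at h3
    have h5 : (j : K) * a = 0 := by rw [← h3]; simp
    rcases mul_eq_zero.1 h5 with h6 | h6
    · exact hj0 (by exact_mod_cast h6)
    · exact h.1 h6
  · have e : j + m - 1 = (j - 1) + m := by ring
    rw [e]
    exact add_mem hjM hm
  · rw [← FractionalIdeal.coeIdeal_inj (K := K), FractionalIdeal.coeIdeal_mul,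
      FractionalIdeal.coeIdeal_mul, FractionalIdeal.coeIdeal_span_singleton,
      FractionalIdeal.coeIdeal_span_singleton, Ia_spec (InS_mem hA h), J_eq hA, ← mul_assoc,
      ← mul_assoc, FractionalIdeal.spanSingleton_mul_spanSingleton,
      FractionalIdeal.spanSingleton_mul_spanSingleton]
    have h3' : (algebraMap (𝓞 K) K) (j + m) * α = (algebraMap (𝓞 K) K) j * a := h3
    rw [h3']

include hα in
theorem of_ray {I : Ideal (𝓞 K)} (h : RayEq M I J) : ∃ a : K, InS M A α a ∧ Ia A a = I := by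
  obtain ⟨x, y, hx, hy, hxM, hyM, hxy⟩ := h
  have hx' : (algebraMap (𝓞 K) K) x ≠ 0 := by
    rw [Ne, map_eq_zero_iff _ (FaithfulSMul.algebraMap_injective (𝓞 K) K)]; exact hx
  have hy' : (algebraMap (𝓞 K) K) y ≠ 0 := by
    rw [Ne, map_eq_zero_iff _ (FaithfulSMul.algebraMap_injective (𝓞 K) K)]; exact hy
  set a : K := (algebraMap (𝓞 K) K) y * α / (algebraMap (𝓞 K) K) x with ha
  have e1 : (algebraMap (𝓞 K) K) x * a = (algebraMap (𝓞 K) K) y * α := by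
    rw [ha]; field_simp
  have h1 : (I : FractionalIdeal (𝓞 K)⁰ K) = sp a *
      ((A⁻¹ : FI K) : FractionalIdeal (𝓞 K)⁰ K) := by
    have h2 : ((Ideal.span {x} * I : Ideal (𝓞 K)) : FractionalIdeal (𝓞 K)⁰ K) =
        ((Ideal.span {y} * J : Ideal (𝓞 K)) : FractionalIdeal (𝓞 K)⁰ K) := by rw [hxy]
    rw [FractionalIdeal.coeIdeal_mul, FractionalIdeal.coeIdeal_mul,
      FractionalIdeal.coeIdeal_span_singleton, FractionalIdeal.coeIdeal_span_singleton, J_eq hA,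
      ← mul_assoc, FractionalIdeal.spanSingleton_mul_spanSingleton, ← e1,
      ← FractionalIdeal.spanSingleton_mul_spanSingleton, mul_assoc] at h2
    have h3 : sp ((algebraMap (𝓞 K) K) x) ≠ 0 := by
      rwa [Ne, FractionalIdeal.spanSingleton_eq_zero_iff]
    exact mul_left_cancel₀ h3 h2
  have haA : a ∈ (A : FractionalIdeal (𝓞 K)⁰ K) := (mem_iff A a).1 ⟨I, h1⟩
  refine ⟨a, ⟨?_, ?_⟩, Ia_eq h1⟩
  · rw [ha]
    exact div_ne_zero (mul_ne_zero hy' hα) hx'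
  · have h2 : a - α = (((y - x : 𝓞 K)) : K) * α - (((x - 1 : 𝓞 K)) : K) * (a - α) := by
      have e2 : (((y - x : 𝓞 K)) : K) = (algebraMap (𝓞 K) K) y - (algebraMap (𝓞 K) K) x :=
        map_sub _ _ _
      have e3 : (((x - 1 : 𝓞 K)) : K) = (algebraMap (𝓞 K) K) x - 1 :=
        (map_sub _ _ _).trans (by rw [map_one])
      rw [e2, e3]
      linear_combination e1
    rw [h2]
    refine submem (smul_mem_MA ?_ (alpha_mem hA)) (smul_mem_MA hxM (submem haA (alpha_mem hA)))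
    have e4 : y - x = (y - 1) - (x - 1) := by ring
    rw [e4]
    exact sub_mem hyM hxM

end ray

/-! ### Units -/

/-- the units which are one modulo `M` -/
def UM (M : Ideal (𝓞 K)) : Subgroup (𝓞 K)ˣ :=
  (Units.map (Ideal.Quotient.mk M : 𝓞 K →* 𝓞 K ⧸ M)).ker

theorem mem_UM {M : Ideal (𝓞 K)} {u : (𝓞 K)ˣ} : u ∈ UM M ↔ (u : 𝓞 K) - 1 ∈ M := by
  unfold UM
  rw [MonoidHom.mem_ker, Units.ext_iff, Units.coe_map, Units.val_one]
  show Ideal.Quotient.mk M (u : 𝓞 K) = 1 ↔ _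
  rw [← map_one (Ideal.Quotient.mk M), Ideal.Quotient.eq]

theorem finite_units {i : K →+* ℂ}
    (hN : ∀ a : K, (‖i a‖ ^ 2 : ℝ) = |(Algebra.norm ℚ a : ℝ)|)
    (hF : ∀ R : ℝ, {a : K | a ∈ ((1 : FI K) : FractionalIdeal (𝓞 K)⁰ K) ∧ ‖i a‖ ≤ R}.Finite) :
    Finite (𝓞 K)ˣ := by
  have := (hF 1).to_subtype
  refine Finite.of_injective (β := {a : K | a ∈ ((1 : FI K) : FractionalIdeal (𝓞 K)⁰ K) ∧
    ‖i a‖ ≤ 1}) (fun u => ⟨((u : 𝓞 K) : K), ?_, ?_⟩) ?_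
  · rw [Units.val_one]
    exact FractionalIdeal.coe_mem_one _ _
  · have h1 := NumberField.isUnit_iff_norm.1 u.isUnit
    have h2 := hN ((u : 𝓞 K) : K)
    have h3 : |(Algebra.norm ℚ ((u : 𝓞 K) : K) : ℝ)| = 1 := by
      rw [RingOfIntegers.coe_norm] at h1
      exact_mod_cast h1
    rw [h3] at h2
    nlinarith [norm_nonneg (i ((u : 𝓞 K) : K))]
  · intro u u' h
    have h1 : ((u : 𝓞 K) : K) = ((u' : 𝓞 K) : K) := Subtype.mk.inj h
    exact Units.ext (RingOfIntegers.ext h1)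

section fiber

variable {M J : Ideal (𝓞 K)} {A : FI K} {α : K}
  (hJ : J ≠ ⊥) (hMJ : M ⊔ J = ⊤) (hα : α ≠ 0)
  (hA : (A : FractionalIdeal (𝓞 K)⁰ K) * (J : FractionalIdeal (𝓞 K)⁰ K) = sp α)

include hMJ in
theorem cop_of_ray {I : Ideal (𝓞 K)} (h : RayEq M I J) : ∃ m ∈ M, ∃ k ∈ I, m + k = 1 := by
  obtain ⟨x, y, hx, hy, hxM, hyM, hxy⟩ := h
  have h1 : (1 : 𝓞 K) ∈ M ⊔ J := by rw [hMJ]; exact Submodule.mem_top
  obtain ⟨m, hm, j, hj, h2⟩ := Submodule.mem_sup.1 h1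
  have h3 : y * j ∈ I := by
    have h4 : y * j ∈ Ideal.span {x} * I := by
      rw [hxy]
      exact Ideal.mul_mem_mul (Ideal.mem_span_singleton_self y) hj
    exact Ideal.mul_le_right h4
  refine ⟨y * m - (y - 1), sub_mem (M.mul_mem_left y hm) hyM, y * j, h3, ?_⟩
  linear_combination y * h2

theorem sp_unit (u : (𝓞 K)ˣ) (a : K) : sp ((u : 𝓞 K) * a) = sp a := by
  symm
  rw [FractionalIdeal.spanSingleton_eq_spanSingleton]
  exact ⟨u, by rw [Units.smul_def, Algebra.smul_def]⟩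

include hJ hMJ hα hA in
theorem unit_of {a b : K} (ha : InS M A α a) (hb : InS M A α b) (h : Ia A a = Ia A b) :
    ∃ u ∈ UM M, ((u : 𝓞 K) : K) * a = b := by
  have haA := InS_mem hA ha
  have h1 : sp a = sp b := by
    have h2 : (Ia A a : FractionalIdeal (𝓞 K)⁰ K) = (Ia A b : FractionalIdeal (𝓞 K)⁰ K) := by
      rw [h]
    rw [Ia_spec haA, Ia_spec (InS_mem hA hb)] at h2
    exact mul_right_cancel₀ (A⁻¹).ne_zero h2
  obtain ⟨u, hu⟩ := FractionalIdeal.spanSingleton_eq_spanSingleton.1 h1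
  rw [Units.smul_def, Algebra.smul_def] at hu
  have hu' : ((u : 𝓞 K) : K) * a = b := hu
  refine ⟨u, ?_, hu'⟩
  rw [mem_UM]
  obtain ⟨m, hm, k, hk, hmk⟩ := cop_of_ray hMJ (ray_of hJ hMJ hα hA ha)
  have h3 : (((u : 𝓞 K) - 1 : 𝓞 K) : K) * a ∈
      (M : FractionalIdeal (𝓞 K)⁰ K) * (A : FractionalIdeal (𝓞 K)⁰ K) := by
    have e : (((u : 𝓞 K) - 1 : 𝓞 K) : K) * a = (b - α) - (a - α) := by
      have e1 : (((u : 𝓞 K) - 1 : 𝓞 K) : K) = ((u : 𝓞 K) : K) - 1 :=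
        (map_sub _ _ _).trans (by rw [map_one])
      rw [e1]
      linear_combination hu'
    rw [e]
    exact submem hb.2 ha.2
  have h4 : ((Ideal.span {(u : 𝓞 K) - 1} * Ia A a : Ideal (𝓞 K)) : FractionalIdeal (𝓞 K)⁰ K) ≤
      (M : FractionalIdeal (𝓞 K)⁰ K) := by
    rw [FractionalIdeal.coeIdeal_mul, FractionalIdeal.coeIdeal_span_singleton, Ia_spec haA,
      ← mul_assoc, FractionalIdeal.spanSingleton_mul_spanSingleton]
    have h5 := mul_le_mul_left ((FractionalIdeal.spanSingleton_le_iff_mem).2 h3)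
      ((A⁻¹ : FI K) : FractionalIdeal (𝓞 K)⁰ K)
    rwa [mul_assoc (M : FractionalIdeal (𝓞 K)⁰ K), Units.mul_inv, mul_one] at h5
  rw [FractionalIdeal.coeIdeal_le_coeIdeal] at h4
  have h5 : ((u : 𝓞 K) - 1) * k ∈ M :=
    h4 (Ideal.mul_mem_mul (Ideal.mem_span_singleton_self _) hk)
  have h6 : (u : 𝓞 K) - 1 = ((u : 𝓞 K) - 1) * m + ((u : 𝓞 K) - 1) * k := by
    rw [← mul_add, hmk, mul_one]
  rw [h6]
  exact add_mem (M.mul_mem_left _ hm) h5

include hA in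
theorem unit_smul {a : K} (ha : InS M A α a) {u : (𝓞 K)ˣ} (hu : u ∈ UM M) :
    InS M A α (((u : 𝓞 K) : K) * a) ∧ Ia A (((u : 𝓞 K) : K) * a) = Ia A a := by
  have haA := InS_mem hA ha
  refine ⟨⟨mul_ne_zero ?_ ha.1, ?_⟩, Ia_eq ?_⟩
  · have h1 : (u : 𝓞 K) ≠ 0 := u.ne_zero
    exact_mod_cast h1
  · have e : ((u : 𝓞 K) : K) * a - α = (((u : 𝓞 K) - 1 : 𝓞 K) : K) * a + (a - α) := by
      have e1 : (((u : 𝓞 K) - 1 : 𝓞 K) : K) = ((u : 𝓞 K) : K) - 1 :=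
        (map_sub _ _ _).trans (by rw [map_one])
      rw [e1]
      ring
    rw [e]
    exact addmem (smul_mem_MA (mem_UM.1 hu) haA) ha.2
  · rw [Ia_spec haA, sp_unit]

open Classical in
include hJ hMJ hα hA in
theorem card_fiber (I : Ideal (𝓞 K)) :
    Nat.card {a : K | InS M A α a ∧ Ia A a = I} = if RayEq M I J then Nat.card (UM M) else 0 := by
  split_ifs with h
  · obtain ⟨a, ha, haI⟩ := of_ray hα hA h
    refine (Nat.card_congr (Equiv.ofBijective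
      (fun u : UM M => (⟨((u.1 : 𝓞 K) : K) * a, (unit_smul hA ha u.2).1, by
        rw [(unit_smul hA ha u.2).2, haI]⟩ : {a : K | InS M A α a ∧ Ia A a = I})) ⟨?_, ?_⟩)).symm
    · intro u u' huu
      have h1 : ((u.1 : 𝓞 K) : K) * a = ((u'.1 : 𝓞 K) : K) * a := Subtype.mk.inj huu
      have h2 := mul_right_cancel₀ ha.1 h1
      exact Subtype.ext (Units.ext (RingOfIntegers.ext h2))
    · rintro ⟨b, hb, hbI⟩
      obtain ⟨u, hu, hub⟩ := unit_of hJ hMJ hα hA ha hb (haI.trans hbI.symm)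
      exact ⟨⟨u, hu⟩, Subtype.ext hub⟩
  · rw [Nat.card_eq_zero]
    left
    refine ⟨fun x => h ?_⟩
    obtain ⟨b, hb, hbI⟩ := x
    rw [← hbI]
    exact ray_of hJ hMJ hα hA hb

open Classical in
include hJ hMJ hα hA in
theorem fiber_sum (f : K → ℂ) (I : Ideal (𝓞 K)) (k : ℂ)
    (h1 : ∀ a, InS M A α a → Ia A a = I → f a = k) (h0 : ∀ a, ¬ InS M A α a → f a = 0) :
    ∑' b : (Ia A ⁻¹' {I} : Set K), f b =
      (if RayEq M I J then (Nat.card (UM M) : ℂ) else 0) * k := by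
  have e : (Ia A ⁻¹' {I} : Set K).indicator f =
      {a : K | InS M A α a ∧ Ia A a = I}.indicator (fun _ => k) := by
    funext a
    by_cases ha : InS M A α a
    · by_cases hI : Ia A a = I
      · rw [Set.indicator_of_mem (show a ∈ Ia A ⁻¹' {I} from hI),
          Set.indicator_of_mem (show a ∈ {a : K | InS M A α a ∧ Ia A a = I} from ⟨ha, hI⟩),
          h1 a ha hI]
      · rw [Set.indicator_of_notMem (show a ∉ Ia A ⁻¹' {I} from hI),
          Set.indicator_of_notMem (show a ∉ {a : K | InS M A α a ∧ Ia A a = I} from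
            fun h => hI h.2)]
    · rw [Set.indicator_of_notMem (show a ∉ {a : K | InS M A α a ∧ Ia A a = I} from
            fun h => ha h.1)]
      by_cases hI : Ia A a = I
      · rw [Set.indicator_of_mem (show a ∈ Ia A ⁻¹' {I} from hI), h0 a ha]
      · rw [Set.indicator_of_notMem (show a ∉ Ia A ⁻¹' {I} from hI)]
  rw [tsum_subtype, e, ← tsum_subtype, tsum_const, card_fiber hJ hMJ hα hA I, nsmul_eq_mul]
  split_ifs <;> simp

end fiber

/-! ### Growth and summability -/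

open Classical in
/-- the coefficients of `HH` -/
def eA (c : Ideal (𝓞 K) → ℂ) (A : FI K) (a : K) : ℂ :=
  if a = 0 then 0 else cF c (sp a * ((A⁻¹ : FI K) : FractionalIdeal (𝓞 K)⁰ K))

theorem eA_zero (c : Ideal (𝓞 K) → ℂ) {A : FI K} {a : K}
    (ha : a ∉ (A : FractionalIdeal (𝓞 K)⁰ K)) : eA c A a = 0 := by
  unfold eA
  rw [cF_zero c ha, ite_self]

theorem eA_bound {i : K →+* ℂ} {δ : ℂ} {n : Ideal (𝓞 K)} {c : Ideal (𝓞 K) → ℂ}
    (hN : ∀ a : K, (‖i a‖ ^ 2 : ℝ) = |(Algebra.norm ℚ a : ℝ)|) (hf : Form i δ n c) (A : FI K) :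
    ∃ C : ℝ, ∃ m : ℕ, 0 ≤ C ∧ ∀ a : K, ‖eA c A a‖ ≤ C * ‖i a‖ ^ (2 * m) := by
  obtain ⟨C, m, h⟩ := hf.growth
  have hA0 := Nm_pos A
  refine ⟨|C| / Nm A ^ m, m, by positivity, fun a => ?_⟩
  by_cases ha0 : a = 0
  · unfold eA
    rw [if_pos ha0, norm_zero]
    positivity
  by_cases ha : a ∈ (A : FractionalIdeal (𝓞 K)⁰ K)
  · have h1 : Ia A a ≠ ⊥ := by
      intro h2
      have h3 := Ia_spec ha
      rw [h2, FractionalIdeal.coeIdeal_bot] at h3
      rcases mul_eq_zero.1 h3.symm with h4 | h4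
      · exact ha0 (FractionalIdeal.spanSingleton_eq_zero_iff.1 h4)
      · exact (A⁻¹).ne_zero h4
    have h2 := h _ h1
    have h3 := Ia_norm hN ha
    have h4 : (Ideal.absNorm (Ia A a) : ℝ) = ‖i a‖ ^ 2 / Nm A := by
      rw [← h3]; field_simp
    unfold eA
    rw [if_neg ha0, cF_eq c ha]
    calc ‖c (Ia A a)‖ ≤ C * (Ideal.absNorm (Ia A a) : ℝ) ^ m := h2
      _ ≤ |C| * (Ideal.absNorm (Ia A a) : ℝ) ^ m :=
          mul_le_mul_of_nonneg_right (le_abs_self C) (by positivity)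
      _ = |C| / Nm A ^ m * ‖i a‖ ^ (2 * m) := by
          rw [h4, div_pow, ← pow_mul]
          ring
  · rw [eA_zero c ha, norm_zero]
    positivity

theorem inv_cube {x : ℝ} (hx : 0 ≤ x) : x ^ (-(3 : ℝ)) = (x ^ 3)⁻¹ := by
  rw [Real.rpow_neg hx]
  norm_cast

theorem summ3 {i : K →+* ℂ} {A : FI K}
    (hS : Summable (fun a : {a : K // a ∈ (A : FractionalIdeal (𝓞 K)⁰ K)} =>
      ‖i a.1‖ ^ (-(3 : ℝ)))) (C : ℝ) (f : K → ℝ) (h0 : ∀ a, 0 ≤ f a)
    (h1 : ∀ a, a ∉ (A : FractionalIdeal (𝓞 K)⁰ K) → f a = 0)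
    (h2 : ∀ a, a ∈ (A : FractionalIdeal (𝓞 K)⁰ K) → f a ≤ C * (‖i a‖ ^ 3)⁻¹) : Summable f := by
  have h3 : Summable ({a : K | a ∈ (A : FractionalIdeal (𝓞 K)⁰ K)}.indicator
      (fun a => ‖i a‖ ^ (-(3 : ℝ)))) := summable_subtype_iff_indicator.1 hS
  refine Summable.of_nonneg_of_le h0 (fun a => ?_) (h3.mul_left C)
  by_cases ha : a ∈ (A : FractionalIdeal (𝓞 K)⁰ K)
  · rw [Set.indicator_of_mem (show a ∈ {a : K | a ∈ (A : FractionalIdeal (𝓞 K)⁰ K)} from ha),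
      inv_cube (norm_nonneg _)]
    exact h2 a ha
  · rw [Set.indicator_of_notMem (show a ∉ {a : K | a ∈ (A : FractionalIdeal (𝓞 K)⁰ K)} from ha),
      h1 a ha, mul_zero]

section sums

variable {i : K →+* ℂ} {δ : ℂ} {n : Ideal (𝓞 K)} {c : Ideal (𝓞 K) → ℂ} {A : FI K}
  (hN : ∀ a : K, (‖i a‖ ^ 2 : ℝ) = |(Algebra.norm ℚ a : ℝ)|) (hf : Form i δ n c)
  (hS : Summable (fun a : {a : K // a ∈ (A : FractionalIdeal (𝓞 K)⁰ K)} => ‖i a.1‖ ^ (-(3 : ℝ))))

include hN hf hS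

theorem summ_pow : ∃ r : ℝ, Summable (fun a : K => ‖eA c A a‖ * ‖i a‖ ^ (-r)) := by
  obtain ⟨C, m, hC, h⟩ := eA_bound hN hf A
  refine ⟨((2 * m + 3 : ℕ) : ℝ), summ3 hS C _ (fun a => by positivity) (fun a ha => ?_)
    (fun a ha => ?_)⟩
  · rw [eA_zero c ha, norm_zero, zero_mul]
  · rw [Real.rpow_neg (norm_nonneg _), Real.rpow_natCast]
    by_cases ha0 : i a = 0
    · rw [ha0]
      simp
    · have h1 : 0 < ‖i a‖ := norm_pos_iff.2 ha0
      calc ‖eA c A a‖ * (‖i a‖ ^ (2 * m + 3))⁻¹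
          ≤ (C * ‖i a‖ ^ (2 * m)) * (‖i a‖ ^ (2 * m + 3))⁻¹ :=
            mul_le_mul_of_nonneg_right (h a) (by positivity)
        _ = C * (‖i a‖ ^ 3)⁻¹ := by
            rw [pow_add]
            field_simp

theorem summ_bes (hB : BesStatement) {κ y : ℝ} (hκ : 0 < κ) (hy : 0 < y) :
    Summable (fun a : K => ‖eA c A a‖ / ‖i a‖ ^ 2 * bes (κ * ‖i a‖ * y)) := by
  obtain ⟨C, m, hC, h⟩ := eA_bound hN hf A
  obtain ⟨k, hk0, hk⟩ := Bia.Cvm.bes_pow hB (2 * m + 1)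
  refine summ3 hS (C * k / (κ * y) ^ (2 * m + 1)) _
    (fun a => mul_nonneg (by positivity) (hB.2.1 _)) (fun a ha => ?_) (fun a ha => ?_)
  · rw [eA_zero c ha, norm_zero, zero_div, zero_mul]
  · by_cases ha0 : i a = 0
    · rw [ha0]
      simp
    · have h1 : 0 < ‖i a‖ := norm_pos_iff.2 ha0
      calc ‖eA c A a‖ / ‖i a‖ ^ 2 * bes (κ * ‖i a‖ * y)
          ≤ (C * ‖i a‖ ^ (2 * m)) / ‖i a‖ ^ 2 * (k / (κ * ‖i a‖ * y) ^ (2 * m + 1)) := by
            refine mul_le_mul ?_ (hk _ (by positivity)) (hB.2.1 _) (by positivity)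
            exact div_le_div_of_nonneg_right (h a) (by positivity)
        _ = C * k / (κ * y) ^ (2 * m + 1) * (‖i a‖ ^ 3)⁻¹ := by
            have e : κ * ‖i a‖ * y = (κ * y) * ‖i a‖ := by ring
            rw [e, mul_pow (κ * y), pow_succ ‖i a‖ (2 * m)]
            field_simp

end sums

/-! ### The limits at the cusps -/

theorem lim_cusp (hact : GactStatement) {i : K →+* ℂ} {δ : ℂ} {n : Ideal (𝓞 K)}
    {c : Ideal (𝓞 K) → ℂ} (hf : Form i δ n c) (A : FI K) (V : Set ℂ)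
    (hV : ∀ (g : SLK K) (l : ℂ),
      (∀ z : ℂ, Tendsto (fun y : ℝ => HH i δ c A (actz (toC i g) z y) (acty (toC i g) z y))
        atTop (𝓝 l)) → l ∈ AddSubgroup.closure V) (r : K) :
    ∃ l ∈ AddSubgroup.closure V, Tendsto (fun y : ℝ => HH i δ c A (i r) y) (𝓝[>] 0) (𝓝 l) := by
  obtain ⟨l, hl⟩ := hf.cusp A (Gfg.tt r)
  refine ⟨l, hV _ l hl, ?_⟩
  have h10 : (toC i (Gfg.tt r)) 1 0 = 1 := by
    rw [Gfg.toC_apply, Gfg.tt10, map_one]
  have h00 : (toC i (Gfg.tt r)) 0 0 = i r := by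
    rw [Gfg.toC_apply, Gfg.tt00]
  have h1 := (hl (-((toC i (Gfg.tt r)) 1 1) / (toC i (Gfg.tt r)) 1 0)).comp
    (tendsto_inv_nhdsGT_zero (𝕜 := ℝ))
  refine h1.congr' ?_
  filter_upwards [self_mem_nhdsWithin] with y hy
  have hy' : 0 < y⁻¹ := inv_pos.2 hy
  obtain ⟨-, -, -, -, -, h6⟩ := hact (toC i (Gfg.tt r)) (toC i (Gfg.tt r)) 0 y⁻¹ hy'
  obtain ⟨h7, h8⟩ := h6 (by rw [h10]; exact one_ne_zero)
  show HH i δ c A _ _ = _
  rw [h7, h8, h10, h00]
  congr 1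
  · rw [div_one]
  · rw [norm_one]
    field_simp

/-! ### Absolute values -/

section av

variable {w : AbsoluteValue ℂ ℝ} (na : ∀ x y : ℂ, w (x + y) ≤ max (w x) (w y))

include na

theorem av_closure (V : Finset ℂ) : ∃ b : ℝ, 0 ≤ b ∧ ∀ x ∈ AddSubgroup.closure (V : Set ℂ),
    w x ≤ b := by
  refine ⟨∑ x ∈ V, w x, Finset.sum_nonneg fun x _ => w.nonneg x, fun x hx => ?_⟩
  have h0 : 0 ≤ ∑ x ∈ V, w x := Finset.sum_nonneg fun x _ => w.nonneg x
  induction hx using AddSubgroup.closure_induction with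
  | mem x hx => exact Finset.single_le_sum (fun x _ => w.nonneg x) hx
  | zero => rw [map_zero]; exact h0
  | add x y _ _ h1 h2 => exact (na x y).trans (max_le h1 h2)
  | neg x _ h1 => rw [map_neg_eq_map]; exact h1

theorem av_sum {ι : Type} (s : Finset ι) (f : ι → ℂ) {b : ℝ} (hb : 0 ≤ b)
    (h : ∀ t ∈ s, w (f t) ≤ b) : w (∑ t ∈ s, f t) ≤ b := by
  classical
  induction s using Finset.induction_on with
  | empty => rw [Finset.sum_empty, map_zero]; exact hb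
  | insert t s ht ih =>
    rw [Finset.sum_insert ht]
    exact (na _ _).trans (max_le (h t (Finset.mem_insert_self _ _))
      (ih fun u hu => h u (Finset.mem_insert_of_mem hu)))

end av

/-! ### The additive character -/

theorem ee_add (δ x y : ℂ) : ee δ (x + y) = ee δ x * ee δ y := by
  unfold ee
  rw [← Complex.exp_add]
  congr 1
  rw [add_div, Complex.add_re]
  push_cast
  ring

theorem norm_ee (δ x : ℂ) : ‖ee δ x‖ = 1 := by
  unfold ee
  have e : 2 * (Real.pi : ℂ) * I * ((2 * (x / δ).re : ℝ) : ℂ) =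
      ((2 * Real.pi * (2 * (x / δ).re) : ℝ) : ℂ) * I := by
    push_cast
    ring
  rw [e, Complex.norm_exp_ofReal_mul_I]

/-! ### The main computation -/

open Classical in
/-- the coefficients on the residue class -/
def eS (c : Ideal (𝓞 K) → ℂ) (M : Ideal (𝓞 K)) (A : FI K) (α a : K) : ℂ :=
  if InS M A α a then eA c A a else 0

theorem eS_le (c : Ideal (𝓞 K) → ℂ) (M : Ideal (𝓞 K)) (A : FI K) (α a : K) :
    ‖eS c M A α a‖ ≤ ‖eA c A a‖ := by
  unfold eS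
  split_ifs
  · exact le_rfl
  · rw [norm_zero]; exact norm_nonneg _

section main

variable {i : K →+* ℂ} {δ : ℂ} {n : Ideal (𝓞 K)} {c : Ideal (𝓞 K) → ℂ} {A : FI K}
  (hN : ∀ a : K, (‖i a‖ ^ 2 : ℝ) = |(Algebra.norm ℚ a : ℝ)|) (hf : Form i δ n c)
  (hS : Summable (fun a : {a : K // a ∈ (A : FractionalIdeal (𝓞 K)⁰ K)} => ‖i a.1‖ ^ (-(3 : ℝ))))

theorem HH_eq (z : ℂ) (y : ℝ) : HH i δ c A z y =
    ∑' a : K, eA c A a / (‖i a‖ : ℂ) ^ 2 * (bes (kap δ * ‖i a‖ * y) : ℂ) * ee δ (i a * z) := by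
  unfold HH eA
  refine tsum_congr fun a => ?_
  split_ifs
  · simp
  · rfl

include hN hf hS in
theorem term_summ (hB : BesStatement) {κ y : ℝ} (hκ : 0 < κ) (hy : 0 < y) (z : ℂ) :
    Summable (fun a : K => eA c A a / (‖i a‖ : ℂ) ^ 2 * (bes (κ * ‖i a‖ * y) : ℂ) *
      ee δ (i a * z)) := by
  refine Summable.of_norm ?_
  refine (summ_bes hN hf hS hB hκ hy).congr fun a => ?_
  rw [norm_mul, norm_ee, mul_one, norm_mul, norm_div, norm_pow, Complex.norm_real,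
    Complex.norm_real, Real.norm_eq_abs, Real.norm_eq_abs, abs_of_nonneg (norm_nonneg _),
    abs_of_nonneg (hB.2.1 _)]

include hN hf hS in
theorem phi_eq (hB : BesStatement) {M J : Ideal (𝓞 K)} {α : K}
    (hA : (A : FractionalIdeal (𝓞 K)⁰ K) * (J : FractionalIdeal (𝓞 K)⁰ K) = sp α)
    (hκ : 0 < kap δ) (hM : M ≠ ⊥) (T : Finset K) (hT : T.card = Ideal.absNorm M)
    (h1 : ∀ r ∈ T, ∀ a : K, a ∈ (M : FractionalIdeal (𝓞 K)⁰ K) * (A : FractionalIdeal (𝓞 K)⁰ K) →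
        ee δ (i (a * r)) = 1)
    (h2 : ∀ a : K, a ∈ (A : FractionalIdeal (𝓞 K)⁰ K) →
        a ∉ (M : FractionalIdeal (𝓞 K)⁰ K) * (A : FractionalIdeal (𝓞 K)⁰ K) →
        ∑ r ∈ T, ee δ (i (a * r)) = 0) {y : ℝ} (hy : 0 < y) :
    ∑' a : K, eS c M A α a / (‖i a‖ : ℂ) ^ 2 * (bes (kap δ * ‖i a‖ * y) : ℂ) =
      (Ideal.absNorm M : ℂ)⁻¹ * ∑ r ∈ T, ee δ (i (-α * r)) * HH i δ c A (i r) y := by
  have hM0 : (Ideal.absNorm M : ℂ) ≠ 0 := by
    rw [Nat.cast_ne_zero, Ne, Ideal.absNorm_eq_zero_iff]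
    exact hM
  have e1 : ∑ r ∈ T, ee δ (i (-α * r)) * HH i δ c A (i r) y =
      ∑' a : K, ∑ r ∈ T, ee δ (i (-α * r)) * (eA c A a / (‖i a‖ : ℂ) ^ 2 *
        (bes (kap δ * ‖i a‖ * y) : ℂ) * ee δ (i a * i r)) := by
    rw [Summable.tsum_finsetSum (fun r _ => (term_summ hN hf hS hB hκ hy (i r)).mul_left _)]
    refine Finset.sum_congr rfl fun r _ => ?_
    rw [HH_eq, tsum_mul_left]
  rw [e1, ← tsum_mul_left]
  refine tsum_congr fun a => ?_
  have e2 : ∀ r ∈ T, ee δ (i (-α * r)) * (eA c A a / (‖i a‖ : ℂ) ^ 2 *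
        (bes (kap δ * ‖i a‖ * y) : ℂ) * ee δ (i a * i r)) =
      (eA c A a / (‖i a‖ : ℂ) ^ 2 * (bes (kap δ * ‖i a‖ * y) : ℂ)) *
        ee δ (i ((a - α) * r)) := by
    intro r _
    have e3 : i ((a - α) * r) = i (-α * r) + i a * i r := by
      rw [← map_mul, ← map_add]
      congr 1
      ring
    rw [e3, ee_add]
    ring
  rw [Finset.sum_congr rfl e2, ← Finset.mul_sum]
  by_cases ha : a ∈ (A : FractionalIdeal (𝓞 K)⁰ K)
  · have haα : a - α ∈ (A : FractionalIdeal (𝓞 K)⁰ K) := submem ha (alpha_mem hA)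
    by_cases h3 : a - α ∈ (M : FractionalIdeal (𝓞 K)⁰ K) * (A : FractionalIdeal (𝓞 K)⁰ K)
    · rw [Finset.sum_congr rfl (fun r hr => h1 r hr _ h3), Finset.sum_const, hT, nsmul_eq_mul,
        mul_one]
      have e4 : eS c M A α a = eA c A a := by
        unfold eS
        by_cases ha0 : a = 0
        · unfold eA
          rw [if_pos ha0, ite_self]
        · rw [if_pos ⟨ha0, h3⟩]
      rw [e4]
      field_simp
    · rw [h2 _ haα h3, mul_zero, mul_zero]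
      unfold eS
      rw [if_neg (fun h => h3 h.2)]
      simp
  · rw [eA_zero c ha]
    unfold eS
    rw [eA_zero c ha, ite_self]
    simp

end main

open Classical in
/-- from the series over the residue class to the series over the ray class -/
theorem sum_ray {i : K →+* ℂ} {c : Ideal (𝓞 K) → ℂ} {M J : Ideal (𝓞 K)} {A : FI K} {α : K}
    (hN : ∀ a : K, (‖i a‖ ^ 2 : ℝ) = |(Algebra.norm ℚ a : ℝ)|)
    (hJ : J ≠ ⊥) (hMJ : M ⊔ J = ⊤) (hα : α ≠ 0)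
    (hA : (A : FractionalIdeal (𝓞 K)⁰ K) * (J : FractionalIdeal (𝓞 K)⁰ K) = sp α)
    (hU : (Nat.card (UM M) : ℂ) ≠ 0) (s L : ℂ)
    (h : HasSum (fun a : K => eS c M A α a * ((‖i a‖ : ℝ) : ℂ) ^ (-2 * s)) L) :
    HasSum (fun I : Ideal (𝓞 K) => (if RayEq M I J then c I else 0) *
      (Ideal.absNorm I : ℂ) ^ (-s)) ((Nm A : ℂ) ^ s / (Nat.card (UM M) : ℂ) * L) := by
  have h1 := (h.tsum_fiberwise (Ia A)).mul_left ((Nm A : ℂ) ^ s / (Nat.card (UM M) : ℂ))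
  refine (congrArg (fun f : Ideal (𝓞 K) → ℂ => HasSum f
    ((Nm A : ℂ) ^ s / (Nat.card (UM M) : ℂ) * L)) (funext fun I => ?_)).mpr h1
  have h2 := fiber_sum hJ hMJ hα hA
    (fun a : K => eS c M A α a * ((‖i a‖ : ℝ) : ℂ) ^ (-2 * s)) I
    (c I * ((Ideal.absNorm I : ℂ) ^ (-s) * (Nm A : ℂ) ^ (-s))) (fun a ha hI => ?_)
    (fun a ha => ?_)
  · have hA0 : (Nm A : ℂ) ≠ 0 := by
      exact_mod_cast (Nm_pos A).ne'
    have h3 : (Nm A : ℂ) ^ s * (Nm A : ℂ) ^ (-s) = 1 := by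
      rw [Complex.cpow_neg, mul_inv_cancel₀]
      rw [Ne, Complex.cpow_eq_zero_iff]
      exact fun h => hA0 h.1
    rw [h2]
    split_ifs
    · have e : (Nm A : ℂ) ^ s / (Nat.card (UM M) : ℂ) * ((Nat.card (UM M) : ℂ) *
          (c I * ((Ideal.absNorm I : ℂ) ^ (-s) * (Nm A : ℂ) ^ (-s)))) =
          ((Nm A : ℂ) ^ s * (Nm A : ℂ) ^ (-s)) * (c I * (Ideal.absNorm I : ℂ) ^ (-s)) := by
        field_simp
      rw [e, h3, one_mul]
    · rw [zero_mul, zero_mul, mul_zero]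
  · have haA := InS_mem hA ha
    have e1 : eS c M A α a = c I := by
      unfold eS eA
      rw [if_pos ha, if_neg ha.1, cF_eq c haA, hI]
    have e2 := Ia_norm hN haA
    rw [hI] at e2
    have e3 : ((‖i a‖ : ℝ) : ℂ) ^ (-2 * s) = (Ideal.absNorm I : ℂ) ^ (-s) * (Nm A : ℂ) ^ (-s) := by
      have e4 : (-2 * s : ℂ) = ((2 : ℕ) : ℂ) * (-s) := by push_cast; ring
      have e5 : ((Ideal.absNorm I : ℝ) : ℂ) * ((Nm A : ℝ) : ℂ) =
          ((‖i a‖ : ℝ) : ℂ) * ((‖i a‖ : ℝ) : ℂ) := by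
        have e6 := congrArg (fun x : ℝ => (x : ℂ)) e2
        simp only [Complex.ofReal_mul, Complex.ofReal_pow] at e6
        rw [e6, sq]
      have e7 : (Ideal.absNorm I : ℂ) = ((Ideal.absNorm I : ℝ) : ℂ) := by push_cast; rfl
      rw [e4, Complex.cpow_nat_mul, sq, ← Complex.mul_cpow_ofReal_nonneg (norm_nonneg _)
        (norm_nonneg _), ← e5, Complex.mul_cpow_ofReal_nonneg (Nat.cast_nonneg _) (Nm_pos A).le,
        e7]
    rw [e1, e3]
  · unfold eS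
    rw [if_neg ha, zero_mul]

/-- row GINT -/
theorem gint_proof (hB : BesStatement) (hcvm : GcvmStatement) (hact : GactStatement)
    (hlat : GlatStatement) (hdua : GduaStatement) (hfg : GfgStatement) : GintStatement := by
  classical
  intro K _ _ i δ hI n c hn hf v na two D0 hD0
  have hN := (hlat K i δ hI 1).2.1
  have hfinU : Finite (𝓞 K)ˣ := finite_units hN (hlat K i δ hI 1).2.2.2.1
  obtain ⟨R, hR⟩ := class_reps K
  choose V hV using hfg K i δ hI n c hn hf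
  choose b hb0 hb using fun A => av_closure na (V A)
  have hw0 : (Nat.card (𝓞 K)ˣ : ℂ) ≠ 0 := by
    rw [Nat.cast_ne_zero]
    exact Nat.card_pos.ne'
  have hδ : δ ≠ 0 := by
    intro h
    have h1 := hI.2.2
    rw [h, zero_pow two_ne_zero] at h1
    exact NumberField.discr_ne_zero K (by exact_mod_cast h1.symm)
  have hκ : 0 < kap δ := by
    unfold kap
    have := norm_pos_iff.2 hδ
    positivity
  set W : ℝ := (v (Nat.card (𝓞 K)ˣ : ℂ))⁻¹ with hW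
  set Q : ℝ := (v (Ideal.absNorm D0 : ℂ))⁻¹ with hQ
  have hW0 : 0 ≤ W := inv_nonneg.2 (v.nonneg _)
  have hQ0 : 0 ≤ Q := inv_nonneg.2 (v.nonneg _)
  refine ⟨∑ A ∈ R, v (Nm A : ℂ) * W * (Q * b A), fun D J hD hJ hodd hMJ => ?_⟩
  set M : Ideal (𝓞 K) := D0 * D with hMdef
  have hM : M ≠ ⊥ := by
    rw [hMdef]
    exact mul_ne_zero hD0 hD
  obtain ⟨A, hAR, α, hα, hA⟩ := hR J hJ
  obtain ⟨-, hd2⟩ := hdua K i δ hI A
  obtain ⟨T, hT, h1, h2, h3⟩ := hd2 M hM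
  obtain ⟨⟨ρ, hρ, hρ'⟩, -, hsum, -, -⟩ := hlat K i δ hI A
  have hS := hsum 3 (by norm_num)
  choose l hl hlim using lim_cusp hact hf A (V A : Set ℂ) (hV A)
  set lp : ℂ := (Ideal.absNorm M : ℂ)⁻¹ * ∑ r ∈ T, ee δ (i (-α * r)) * l r with hlp
  have hphi : Tendsto (fun y : ℝ => ∑' a : K, eS c M A α a / ((‖i a‖ : ℝ) : ℂ) ^ 2 *
      (bes (kap δ * ‖i a‖ * y) : ℂ)) (𝓝[>] 0) (𝓝 lp) := by
    have h4 : Tendsto (fun y : ℝ => (Ideal.absNorm M : ℂ)⁻¹ * ∑ r ∈ T, ee δ (i (-α * r)) *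
        HH i δ c A (i r) y) (𝓝[>] 0) (𝓝 lp) :=
      (tendsto_finsetSum T fun r _ => (hlim r).const_mul _).const_mul _
    refine h4.congr' ?_
    filter_upwards [self_mem_nhdsWithin] with y hy
    exact (phi_eq hN hf hS hB hA hκ hM T hT h1 h2 hy).symm
  obtain ⟨r, hr⟩ := summ_pow hN hf hS
  obtain ⟨L, hLd, ⟨σ, hLs⟩, hLt⟩ := hcvm K (eS c M A α) (fun a => ‖i a‖) (kap δ) ρ lp hκ hρ
    (fun a ha => by
      have h4 : InS M A α a := by
        by_contra h5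
        apply ha
        unfold eS
        rw [if_neg h5]
      exact hρ' a (InS_mem hA h4) h4.1)
    ⟨r, Summable.of_nonneg_of_le (fun a => by positivity)
      (fun a => mul_le_mul_of_nonneg_right (eS_le c M A α a) (by positivity)) hr⟩ hphi
  have hU : (Nat.card (UM M) : ℂ) ≠ 0 := by
    rw [Nat.cast_ne_zero]
    exact Nat.card_pos.ne'
  have hA0 : (Nm A : ℂ) ≠ 0 := by
    exact_mod_cast (Nm_pos A).ne'
  have hdif : Differentiable ℂ (fun s : ℂ => (Nm A : ℂ) ^ s / (Nat.card (UM M) : ℂ)) := by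
    intro s
    exact ((differentiableAt_id).const_cpow (Or.inl hA0)).div_const _
  refine ⟨(Nm A : ℂ) / (Nat.card (UM M) : ℂ) * lp, ?_, fun s => (Nm A : ℂ) ^ s /
    (Nat.card (UM M) : ℂ) * L s, hdif.differentiableOn.mul hLd, ⟨σ, fun s hs => ?_⟩, ?_⟩
  · -- the bound
    have hUv : (v (Nat.card (UM M) : ℂ))⁻¹ ≤ W := by
      obtain ⟨k, hk⟩ := (UM M).card_subgroup_dvd_card
      have h4 : v (Nat.card (𝓞 K)ˣ : ℂ) ≤ v (Nat.card (UM M) : ℂ) := by
        rw [hk, Nat.cast_mul, map_mul]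
        exact mul_le_of_le_one_right (v.nonneg _) (PP.Lmain.w_nat_le na k)
      exact inv_anti₀ (v.pos hw0) h4
    have hMv : v (Ideal.absNorm M : ℂ) = v (Ideal.absNorm D0 : ℂ) := by
      have h4 : v (Ideal.absNorm D : ℂ) = 1 := by
        have := PP.Lmain.w_odd_eq na two (n := (Ideal.absNorm D : ℤ)) (by exact_mod_cast hodd)
        exact_mod_cast this
      rw [hMdef, map_mul, Nat.cast_mul, map_mul, h4, mul_one]
    have hM0 : Ideal.absNorm M ≠ 0 := by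
      rwa [Ne, Ideal.absNorm_eq_zero_iff]
    have hα' : -α ∈ (A : FractionalIdeal (𝓞 K)⁰ K) := negmem (alpha_mem hA)
    have hsumv : v (∑ r ∈ T, ee δ (i (-α * r)) * l r) ≤ b A := by
      refine av_sum na T _ (hb0 A) fun r hr => ?_
      have h4 : v (ee δ (i (-α * r))) = 1 := by
        have h5 := congrArg v (h3 r hr (-α) hα')
        rw [map_pow, map_one] at h5
        exact (pow_eq_one_iff_of_nonneg (v.nonneg _) hM0).1 h5
      rw [map_mul, h4, one_mul]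
      exact hb A _ (hl r)
    have hlpv : v lp ≤ Q * b A := by
      rw [hlp, map_mul, map_inv₀, hMv]
      exact mul_le_mul_of_nonneg_left hsumv hQ0
    have h5 : v ((Nm A : ℂ) / (Nat.card (UM M) : ℂ) * lp) ≤ v (Nm A : ℂ) * W * (Q * b A) := by
      rw [map_mul, map_div₀, div_eq_mul_inv]
      exact mul_le_mul (mul_le_mul_of_nonneg_left hUv (v.nonneg _)) hlpv (v.nonneg _)
        (mul_nonneg (v.nonneg _) hW0)
    refine h5.trans ?_
    exact Finset.single_le_sum (f := fun A => v (Nm A : ℂ) * W * (Q * b A))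
      (fun A _ => mul_nonneg (mul_nonneg (v.nonneg _) hW0) (mul_nonneg hQ0 (hb0 A))) hAR
  · exact sum_ray hN hJ hMJ hα hA hU s _ (hLs s hs)
  · have h4 : Tendsto (fun t : ℝ => (Nm A : ℂ) ^ (t : ℂ) / (Nat.card (UM M) : ℂ)) (𝓝[>] 1)
        (𝓝 ((Nm A : ℂ) / (Nat.card (UM M) : ℂ))) := by
      have h5 : Continuous (fun t : ℝ => (Nm A : ℂ) ^ (t : ℂ) / (Nat.card (UM M) : ℂ)) :=
        hdif.continuous.comp Complex.continuous_ofReal
      have h6 := (h5.tendsto 1).mono_left (nhdsWithin_le_nhds (s := Set.Ioi (1 : ℝ)))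
      simpa using h6
    exact h4.mul hLt

end

end Pool.Agent.Lib.MP_50bb2e_nt.Imq.Gint
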