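import Pool.Agent.Lib.MP_50bb2e_nt.Imq.Iface
import Pool.Agent.Lib.MP_50bb2e_nt.PP.Iface

/-!
MP_50bb2e_nt, board IMQ, part C: helper29's theorem (PP) for central values in the sense of
`CValI`, twists by fixed ray class characters, and the final statement for imaginary quadratic
fields.
-/

namespace Pool.Agent.Lib.MP_50bb2e_nt.Imq

open Complex MeasureTheory Filter Topology NumberField IsDedekindDomain
open scoped ComplexConjugate nonZeroDivisors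
open Pool.Agent.Lib.MP_50bb2e_nt.PP (Pr nm Cop QChar IsRayUnion Fam Closed)

noncomputable section

open Classical in
/-- `PP.Setting` with central values in the sense of `CValI`. -/
structure SettingC {F : Type} [Field F] [NumberField F] (c : Ideal (𝓞 F) → ℂ)
    (w : AbsoluteValue ℂ ℝ) (B : ℝ) (P : Set (Pr F)) (η : Pr F → ℂ) : Prop where
  na : ∀ x y : ℂ, w (x + y) ≤ max (w x) (w y)
  two : w 2 < 1
  bot : c ⊥ = 0
  conv : ∃ σ : ℝ, Summable (fun a : Ideal (𝓞 F) => ‖c a‖ * (Ideal.absNorm a : ℝ) ^ (-σ))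
  odd : ∀ v ∈ P, Odd (nm v)
  unit : ∀ v ∈ P, w (c v.asIdeal) ≤ 1
  good : ∀ v ∈ P, w (1 - c v.asIdeal + η v) = 1
  hecke : ∀ v ∈ P, ∀ a : Ideal (𝓞 F), ¬ a ≤ v.asIdeal →
    c (v.asIdeal * a) = c v.asIdeal * c a
  hecke' : ∀ v ∈ P, ∀ a : Ideal (𝓞 F),
    c (v.asIdeal * (v.asIdeal * a)) =
      c v.asIdeal * c (v.asIdeal * a) - η v * (nm v : ℂ) * c a
  int : ∀ T : Finset (Pr F), (T : Set (Pr F)) ⊆ P → ∀ E : Set (Ideal (𝓞 F)), IsRayUnion T E →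
    ∃ l : ℂ, CValI (fun a => if a ∈ E then c a else 0) l ∧ w l ≤ B

/-- the twist by `χ` has a non-zero central value -/
def NonVanC {F : Type} [Field F] [NumberField F] (c : Ideal (𝓞 F) → ℂ) (χ : QChar F) : Prop :=
  ∃ l : ℂ, l ≠ 0 ∧ CValI (fun a => c a * (χ.chi a : ℂ)) l

/-- row UNIC: uniqueness and linearity -/
def UnicStatement : Prop :=
  ∀ (F : Type) [Field F] [NumberField F],
    (∀ (e : Ideal (𝓞 F) → ℂ) (l l' : ℂ), CValI e l → CValI e l' → l = l') ∧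
    (∀ (T : Type) (s : Finset T) (e : T → Ideal (𝓞 F) → ℂ) (l k : T → ℂ),
      (∀ t ∈ s, CValI (e t) (l t)) →
        CValI (fun I => ∑ t ∈ s, k t * e t I) (∑ t ∈ s, k t * l t))

open Classical in
/-- row LMC: `PP.LmainStatement` for `CValI` -/
def LmcStatement : Prop :=
  ∀ (F : Type) [Field F] [NumberField F] (c : Ideal (𝓞 F) → ℂ) (w : AbsoluteValue ℂ ℝ) (B : ℝ)
    (P : Set (Pr F)) (η : Pr F → ℂ), SettingC c w B P η → ∀ χ : QChar F,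
    (χ.T : Set (Pr F)) ⊆ P → ∀ T : Finset (Pr F), χ.T ⊆ T → (T : Set (Pr F)) ⊆ P →
    ∃ z : ℂ, CValI (fun a => c a * (χ.chi a : ℂ)) z ∧
      ∀ d : ℂ, CValI (fun a => if Cop T a then c a * (χ.chi a : ℂ) else 0) d → w d = w z

open Classical in
/-- row MAC: `PP.MainAStatement` for `CValI` -/
def MacStatement : Prop :=
  ∀ (F : Type) [Field F] [NumberField F] (ι : Type) [Fintype ι] [Nonempty ι]
    (c : ι → Ideal (𝓞 F) → ℂ) (w : AbsoluteValue ℂ ℝ) (B : ι → ℝ)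
    (P : Set (Pr F)) (η : ι → Pr F → ℂ) (j : ℕ) (l : ι → ℂ),
    (∀ i, SettingC (c i) w (B i) P (η i)) → (∀ i, CValI (c i) (l i)) →
    (w 2) ^ (j + 1) * ∏ i, B i < ∏ i, w (l i) →
    ∀ V : Finset (QChar F), V.Nonempty → (∀ χ ∈ V, (χ.T : Set (Pr F)) ⊆ P) →
      Closed (V : Set (QChar F)) →
      V.card ≤ 2 ^ j * (V.filter (fun χ => ∀ i, NonVanC (c i) χ)).card

open Classical in
/-- row MNC: `PP.MainStatement` for `CValI` -/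
def MncStatement : Prop :=
  ∀ (F : Type) [Field F] [NumberField F] (ι : Type) [Fintype ι] [Nonempty ι]
    (c : ι → Ideal (𝓞 F) → ℂ) (w : AbsoluteValue ℂ ℝ) (B : ι → ℝ)
    (P : Set (Pr F)) (η : ι → Pr F → ℂ) (j : ℕ) (l : ι → ℂ),
    (∀ i, SettingC (c i) w (B i) P (η i)) → (∀ i, CValI (c i) (l i)) →
    (w 2) ^ (j + 1) * ∏ i, B i < ∏ i, w (l i) →
    (∀ V : Finset (QChar F), V.Nonempty → (∀ χ ∈ V, (χ.T : Set (Pr F)) ⊆ P) →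
      Closed (V : Set (QChar F)) →
      V.card ≤ 2 ^ j * (V.filter (fun χ => ∀ i, NonVanC (c i) χ)).card) ∧
    (∀ S : Set (Pr F), ∀ σ : ℝ, 0 ≤ σ →
      ∑' χ : Fam P S, ENNReal.ofReal ((χ.1.cond : ℝ) ^ (-σ)) ≤
        2 ^ j * ∑' χ : {χ : QChar F // χ ∈ Fam P S ∧ ∀ i, NonVanC (c i) χ},
          ENNReal.ofReal ((χ.1.cond : ℝ) ^ (-σ))) ∧
    (∀ S : Set (Pr F), S.Finite →
      ∑' v : P, ENNReal.ofReal ((nm v.1 : ℝ) ^ (-1 : ℝ)) = ⊤ →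
      ∑' χ : {χ : QChar F // χ ∈ Fam P S ∧ ∀ i, NonVanC (c i) χ},
          ENNReal.ofReal ((χ.1.cond : ℝ) ^ (-1 : ℝ)) = ⊤ ∧
      (∀ X : ℕ, {χ : QChar F | χ ∈ Fam P S ∧ χ.cond ≤ X}.Finite) ∧
      ∀ t : ℝ, t < 1 / 2 ^ j → ∃ᶠ X : ℕ in atTop,
        t * Set.ncard {χ : QChar F | χ ∈ Fam P S ∧ χ.cond ≤ X} <
          Set.ncard {χ : QChar F | χ ∈ Fam P S ∧ (∀ i, NonVanC (c i) χ) ∧ χ.cond ≤ X})

/-- `ψ` is a character of the (wide) ray class group modulo `D`, extended by zero. -/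
structure RChar {F : Type} [Field F] [NumberField F] (D : Ideal (𝓞 F))
    (ψ : Ideal (𝓞 F) → ℂ) : Prop where
  bot : ψ ⊥ = 0
  top : ψ ⊤ = 1
  mul : ∀ a b, ψ (a * b) = ψ a * ψ b
  zero : ∀ a, D ⊔ a ≠ ⊤ → ψ a = 0
  fin : ∃ m : ℕ, 0 < m ∧ ∀ a, a ≠ ⊥ → D ⊔ a = ⊤ → ψ a ^ m = 1
  ray : ∀ a b, RayEq D a b → ψ a = ψ b

/-- row PSI: the twist of a form over `K` by a ray class character satisfies the setting -/
def PsiStatement : Prop :=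
  ∀ (K : Type) [Field K] [NumberField K] (i : K →+* ℂ) (δ : ℂ), ImQ i δ →
    ∀ (n : Ideal (𝓞 K)) (c : Ideal (𝓞 K) → ℂ), n ≠ ⊥ → Form i δ n c →
    ∀ v : AbsoluteValue ℂ ℝ, (∀ x y : ℂ, v (x + y) ≤ max (v x) (v y)) → v 2 < 1 →
    ∀ (D : Ideal (𝓞 K)) (ψ : Ideal (𝓞 K) → ℂ), D ≠ ⊥ → RChar D ψ →
    ∃ B : ℝ, ∀ P : Set (Pr K),
      (∀ u ∈ P, Odd (nm u) ∧ ¬ n ≤ u.asIdeal ∧ ¬ D ≤ u.asIdeal ∧
        v (1 - c u.asIdeal * ψ u.asIdeal + ψ u.asIdeal ^ 2) = 1) →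
      SettingC (fun a => c a * ψ a) v B P (fun u => ψ u.asIdeal ^ 2)

/-- row RAYF: the ray classes modulo `D` form a finite set -/
def RayfStatement : Prop :=
  ∀ (K : Type) [Field K] [NumberField K] (D : Ideal (𝓞 K)), D ≠ ⊥ →
    (∀ I J : Ideal (𝓞 K), RayEq D I J → RayEq D J I) ∧ (∀ I : Ideal (𝓞 K), RayEq D I I) ∧
    (∀ I J L : Ideal (𝓞 K), RayEq D I J → RayEq D J L → RayEq D I L) ∧
    (∀ I J : Ideal (𝓞 K), RayEq D I J → J ≠ ⊥ → D ⊔ J = ⊤ → I ≠ ⊥ ∧ D ⊔ I = ⊤) ∧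
    (∃ R : Finset (Ideal (𝓞 K)), (∀ J ∈ R, J ≠ ⊥ ∧ D ⊔ J = ⊤) ∧
      (∀ I : Ideal (𝓞 K), I ≠ ⊥ → D ⊔ I = ⊤ → ∃! J, J ∈ R ∧ RayEq D I J))

/-- row SUMZ: convergence of the zeta function -/
def SumzStatement : Prop :=
  ∀ (K : Type) [Field K] [NumberField K] (σ : ℝ), 1 < σ →
    Summable (fun I : Ideal (𝓞 K) => (Ideal.absNorm I : ℝ) ^ (-σ))

open Classical in
/-- THE FINAL THEOREM -/
def FinalStatement : Prop :=
  ∀ (K : Type) [Field K] [NumberField K] (i : K →+* ℂ) (δ : ℂ), ImQ i δ →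
    ∀ v : AbsoluteValue ℂ ℝ, (∀ x y : ℂ, v (x + y) ≤ max (v x) (v y)) → v 2 < 1 →
    ∀ (ι : Type) [Fintype ι] [Nonempty ι] (n D : ι → Ideal (𝓞 K))
      (c ψ : ι → Ideal (𝓞 K) → ℂ),
    (∀ t, n t ≠ ⊥ ∧ D t ≠ ⊥ ∧ Form i δ (n t) (c t) ∧ RChar (D t) (ψ t)) →
    (∀ t, ∃ l : ℂ, l ≠ 0 ∧ CValI (fun a => c t a * ψ t a) l) →
    ∃ j : ℕ, ∀ P : Set (Pr K),
      (∀ u ∈ P, Odd (nm u) ∧ ∀ t, ¬ n t ≤ u.asIdeal ∧ ¬ D t ≤ u.asIdeal ∧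
        v (1 - c t u.asIdeal * ψ t u.asIdeal + ψ t u.asIdeal ^ 2) = 1) →
      -- finite groups of characters
      (∀ V : Finset (QChar K), V.Nonempty → (∀ χ ∈ V, (χ.T : Set (Pr K)) ⊆ P) →
        Closed (V : Set (QChar K)) →
        V.card ≤ 2 ^ j * (V.filter (fun χ => ∀ t, NonVanC (fun a => c t a * ψ t a) χ)).card) ∧
      -- Dirichlet density
      (∀ S : Set (Pr K), ∀ σ : ℝ, 0 ≤ σ →
        ∑' χ : Fam P S, ENNReal.ofReal ((χ.1.cond : ℝ) ^ (-σ)) ≤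
          2 ^ j * ∑' χ : {χ : QChar K // χ ∈ Fam P S ∧
              ∀ t, NonVanC (fun a => c t a * ψ t a) χ},
            ENNReal.ofReal ((χ.1.cond : ℝ) ^ (-σ))) ∧
      -- natural upper density
      (∀ S : Set (Pr K), S.Finite →
        ∑' u : P, ENNReal.ofReal ((nm u.1 : ℝ) ^ (-1 : ℝ)) = ⊤ →
        ∀ t : ℝ, t < 1 / 2 ^ j → ∃ᶠ X : ℕ in atTop,
          t * Set.ncard {χ : QChar K | χ ∈ Fam P S ∧ χ.cond ≤ X} <
            Set.ncard {χ : QChar K | χ ∈ Fam P S ∧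
              (∀ t, NonVanC (fun a => c t a * ψ t a) χ) ∧ χ.cond ≤ X})

end

end Pool.Agent.Lib.MP_50bb2e_nt.Imq
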