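import Pool.Agent.Lib.MP_50bb2e_nt.Imq.IfaceC
import Pool.Agent.Lib.MP_50bb2e_nt.PP.Lmain
import Pool.Agent.Lib.MP_50bb2e_nt.PP.Lser
import Pool.Agent.Lib.MP_50bb2e_nt.PP.Ray
import Pool.Agent.Lib.MP_50bb2e_nt.PP.Crt

/-!
MP_50bb2e_nt, board IMQ, row LMC: the row LMAIN of board PP for central values in the sense of
`CValI`.
-/

namespace Pool.Agent.Lib.MP_50bb2e_nt.Imq.Lmc

open Complex Filter Topology NumberField IsDedekindDomain
open Pool.Agent.Lib.MP_50bb2e_nt.Imq
open Pool.Agent.Lib.MP_50bb2e_nt.PP (Pr nm Cop QChar IsRayUnion LserStatement RayStatement)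
open Pool.Agent.Lib.MP_50bb2e_nt.PP.Lmain (coef coef_le fac fac_diff cop_mul cop_prime cop_insert
  rayUnion w_factor norm_term)

noncomputable section

variable {F : Type} [Field F] [NumberField F]

/-- absolute convergence to the right of a point of absolute convergence -/
theorem conv_ge {c : Ideal (𝓞 F) → ℂ} (h0 : c ⊥ = 0) {σ σ' : ℝ} (h : σ ≤ σ')
    (hc : Summable (fun a : Ideal (𝓞 F) => ‖c a‖ * (Ideal.absNorm a : ℝ) ^ (-σ))) :
    Summable (fun a : Ideal (𝓞 F) => ‖c a‖ * (Ideal.absNorm a : ℝ) ^ (-σ')) := by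
  refine Summable.of_nonneg_of_le (fun a => by positivity) (fun a => ?_) hc
  by_cases ha : a = ⊥
  · subst ha
    rw [h0]
    simp
  · have h1 : 1 ≤ (Ideal.absNorm a : ℝ) := by
      have h2 : Ideal.absNorm a ≠ 0 := by
        rwa [Ne, Ideal.absNorm_eq_zero_iff]
      exact_mod_cast Nat.one_le_iff_ne_zero.2 h2
    exact mul_le_mul_of_nonneg_left (Real.rpow_le_rpow_of_exponent_le h1 (by linarith))
      (norm_nonneg _)

open Classical in
/-- the twisted series has a central value -/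
theorem exists_val (h3 : RayStatement) {c : Ideal (𝓞 F) → ℂ} {w : AbsoluteValue ℂ ℝ} {B : ℝ}
    {P : Set (Pr F)} {η : Pr F → ℂ} (hS : SettingC c w B P η) (χ : QChar F)
    (hχ : (χ.T : Set (Pr F)) ⊆ P) :
    ∃ z : ℂ, CValI (fun a => c a * (χ.chi a : ℂ)) z := by
  obtain ⟨z₁, ⟨L₁, d1, ⟨σ₁, s1⟩, t1⟩, -⟩ :=
    hS.int χ.T hχ _ (rayUnion h3 χ (t := 1) (by norm_num))
  obtain ⟨z₂, ⟨L₂, d2, ⟨σ₂, s2⟩, t2⟩, -⟩ :=
    hS.int χ.T hχ _ (rayUnion h3 χ (t := -1) (by norm_num))
  refine ⟨z₁ - z₂, fun s => L₁ s - L₂ s, d1.sub d2, ⟨max σ₁ σ₂, fun s hs => ?_⟩, t1.sub t2⟩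
  have h := (s1 s (lt_of_le_of_lt (le_max_left _ _) hs)).sub
    (s2 s (lt_of_le_of_lt (le_max_right _ _) hs))
  refine (congrArg (fun f : Ideal (𝓞 F) → ℂ => HasSum f (L₁ s - L₂ s)) (funext fun a => ?_)).mpr h
  rw [← sub_mul]
  congr 1
  by_cases h0 : a = ⊥
  · subst h0
    simp [χ.bot]
  · by_cases h1 : Cop χ.T a
    · rcases χ.val a h0 h1 with h | h
      · simp [h0, h]
      · simp [h0, h]
    · simp [χ.zero a h1]

open Classical in
theorem step (h1 : LserStatement) {c : Ideal (𝓞 F) → ℂ} {w : AbsoluteValue ℂ ℝ} {B : ℝ}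
    {P : Set (Pr F)} {η : Pr F → ℂ} (hS : SettingC c w B P η) (χ : QChar F)
    (T : Finset (Pr F)) (hT : χ.T ⊆ T) (v : Pr F) (hv : v ∈ P) (hvT : v ∉ T)
    {y : ℂ} (hY : CValI (coef c χ T) y) :
    CValI (coef c χ (insert v T)) (fac c χ η v 1 * y) := by
  obtain ⟨Y, hd, ⟨σ, hs⟩, ht⟩ := hY
  obtain ⟨σ', hconv⟩ := hS.conv
  have hf := fac_diff c χ η v (hS.odd v hv)
  refine ⟨fun s => fac c χ η v s * Y s, hf.differentiableOn.mul hd,
    ⟨max σ (max σ' 2), fun s hs' => ?_⟩, ?_⟩
  · have hs1 : σ < s.re := lt_of_le_of_lt (le_max_left _ _) hs'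
    have hs2 : σ' < s.re := lt_of_le_of_lt ((le_max_left _ _).trans (le_max_right _ _)) hs'
    have hs3 : 2 < s.re := lt_of_le_of_lt ((le_max_right _ _).trans (le_max_right _ _)) hs'
    have hs4 : 3 / 2 < s.re := by linarith
    have hc := conv_ge hS.bot hs2.le hconv
    have hvχ : v ∉ χ.T := fun h => hvT (hT h)
    have hchi : (χ.chi v.asIdeal : ℂ) ^ 2 = 1 := by
      rcases χ.val v.asIdeal v.ne_bot (cop_prime hvχ) with h | h <;> rw [h] <;> norm_num
    have hcv : Cop T v.asIdeal := cop_prime hvT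
    have e0 : coef c χ T v.asIdeal = c v.asIdeal * (χ.chi v.asIdeal : ℂ) := by
      unfold coef
      rw [if_pos hcv]
    have key := h1 F (coef c χ T) v (η v) s hs4
      (PP.Lmain.summable_le (coef_le c χ T) hc)
      (by
        intro a ha
        by_cases h : Cop T a
        · rw [e0]
          unfold coef
          rw [if_pos (cop_mul.2 ⟨hcv, h⟩), if_pos h, hS.hecke v hv a ha, χ.mul]
          push_cast
          ring
        · unfold coef
          rw [if_neg (fun h2 => h (cop_mul.1 h2).2), if_neg h, mul_zero])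
      (by
        intro a
        by_cases h : Cop T a
        · rw [e0]
          unfold coef
          rw [if_pos (cop_mul.2 ⟨hcv, cop_mul.2 ⟨hcv, h⟩⟩), if_pos (cop_mul.2 ⟨hcv, h⟩), if_pos h,
            hS.hecke' v hv a, χ.mul, χ.mul]
          push_cast
          linear_combination (-(η v) * (nm v : ℂ) * c a * (χ.chi a : ℂ)) * hchi
        · unfold coef
          rw [if_neg (fun h2 => h (cop_mul.1 (cop_mul.1 h2).2).2),
            if_neg (fun h2 => h (cop_mul.1 h2).2), if_neg h, mul_zero, mul_zero, sub_zero])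
    have e1 : fac c χ η v s = 1 - coef c χ T v.asIdeal * (nm v : ℂ) ^ (-s) +
        η v * (nm v : ℂ) * ((nm v : ℂ) ^ (-s)) ^ 2 := by
      rw [e0]
      rfl
    have hsum : Summable (fun a : Ideal (𝓞 F) =>
        coef c χ (insert v T) a * (Ideal.absNorm a : ℂ) ^ (-s)) :=
      PP.Lmain.summable_le' (coef_le c χ _) hs4 hc
    have hval : ∑' a : Ideal (𝓞 F), coef c χ (insert v T) a * (Ideal.absNorm a : ℂ) ^ (-s) =
        fac c χ η v s * Y s := by
      rw [← (hs s hs1).tsum_eq, e1, ← key]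
      refine tsum_congr fun a => ?_
      congr 1
      unfold coef
      by_cases h : a ≤ v.asIdeal
      · rw [if_pos h, if_neg]
        exact fun h2 => (cop_insert.1 h2).1 h
      · rw [if_neg h]
        by_cases h2 : Cop T a
        · rw [if_pos h2, if_pos (cop_insert.2 ⟨h, h2⟩)]
        · rw [if_neg h2, if_neg (fun h3 => h2 (cop_insert.1 h3).2)]
    show HasSum _ (fac c χ η v s * Y s)
    rw [← hval]
    exact hsum.hasSum
  · have h5 : Tendsto (fun t : ℝ => fac c χ η v (t : ℂ)) (𝓝[>] 1) (𝓝 (fac c χ η v 1)) := by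
      have h6 : Continuous (fun t : ℝ => fac c χ η v (t : ℂ)) :=
        hf.continuous.comp Complex.continuous_ofReal
      have h7 := (h6.tendsto 1).mono_left (nhdsWithin_le_nhds (s := Set.Ioi (1 : ℝ)))
      simpa using h7
    exact h5.mul ht

open Classical in
theorem exists_removed (h1 : LserStatement) {c : Ideal (𝓞 F) → ℂ} {w : AbsoluteValue ℂ ℝ} {B : ℝ}
    {P : Set (Pr F)} {η : Pr F → ℂ} (hS : SettingC c w B P η) (χ : QChar F)
    {z : ℂ} (hZ : CValI (fun a => c a * (χ.chi a : ℂ)) z) (U : Finset (Pr F))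
    (hU : (U : Set (Pr F)) ⊆ P) :
    ∃ y : ℂ, CValI (coef c χ (χ.T ∪ U)) y ∧ w y = w z := by
  induction U using Finset.induction_on with
  | empty =>
    refine ⟨z, ?_, rfl⟩
    have e : coef c χ (χ.T ∪ ∅) = fun a => c a * (χ.chi a : ℂ) := by
      funext a
      unfold coef
      rw [Finset.union_empty]
      split_ifs with h
      · rfl
      · rw [χ.zero a h]
        simp
    rw [e]
    exact hZ
  | insert v U hv ih =>
    obtain ⟨y, hY, hw⟩ := ih (fun x hx => hU (by simp only [Finset.coe_insert]; exact Or.inr hx))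
    have hvP : v ∈ P := hU (by simp)
    by_cases hvT : v ∈ χ.T ∪ U
    · have e : χ.T ∪ insert v U = χ.T ∪ U := by
        rw [Finset.union_insert, Finset.insert_eq_of_mem hvT]
      rw [e]
      exact ⟨y, hY, hw⟩
    · refine ⟨fac c χ η v 1 * y, ?_, ?_⟩
      · rw [Finset.union_insert]
        exact step h1 hS χ _ Finset.subset_union_left v hvP hvT hY
      · have hvχ : v ∉ χ.T := fun h => hvT (Finset.mem_union_left _ h)
        rw [map_mul, hw]
        have := w_factor hS.na hS.two (hS.odd v hvP) (hS.unit v hvP) (hS.good v hvP)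
          (χ.val v.asIdeal v.ne_bot (cop_prime hvχ))
        unfold fac
        rw [this, one_mul]

/-- row LMC -/
theorem lmc_proof (h2 : UnicStatement) : LmcStatement := by
  classical
  intro F _ _ c w B P η hS χ hχ T hT hTP
  obtain ⟨z, hz⟩ := exists_val (PP.ray PP.crt) hS χ hχ
  refine ⟨z, hz, fun d hd => ?_⟩
  obtain ⟨y, hY, hw⟩ := exists_removed PP.lser hS χ hz T hTP
  have e : χ.T ∪ T = T := Finset.union_eq_right.2 hT
  rw [e] at hY
  have h4 : d = y := by
    refine (h2 F).1 _ d y hd ?_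
    convert hY using 1
    funext a
    unfold coef
    congr 1
  rw [h4, hw]

end

end Pool.Agent.Lib.MP_50bb2e_nt.Imq.Lmc
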