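import Pool.Agent.Lib.MP_50bb2e_nt.Imq.IfaceC
import Pool.Agent.Lib.MP_50bb2e_nt.ND.Good

/-!
MP_50bb2e_nt, board IMQ, row MAC: part one of the main statement (finite groups of characters) for
central values in the sense of `CValI`, from the abstract row GOOD of board ND.
-/

namespace Pool.Agent.Lib.MP_50bb2e_nt.Imq.Mac

open Complex Filter Topology NumberField IsDedekindDomain
open Pool.Agent.Lib.MP_50bb2e_nt.Imq
open Pool.Agent.Lib.MP_50bb2e_nt.PP (Pr nm Cop QChar IsRayUnion Closed trivQ RayStatement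
  InjStatement)
open Pool.Agent.Lib.MP_50bb2e_nt.ND (CVSet LgCV Good good)

noncomputable section

open Classical in
theorem cvset_c (hu : UnicStatement) (hlm : LmcStatement)
    {F : Type} [Field F] [NumberField F] {ι : Type} [Fintype ι] [Nonempty ι]
    {c : ι → Ideal (𝓞 F) → ℂ} {w : AbsoluteValue ℂ ℝ} {B : ι → ℝ} {P : Set (Pr F)}
    {η : ι → Pr F → ℂ} (hS : ∀ i, SettingC (c i) w (B i) P (η i)) : CVSet CValI c w B P := by
  obtain ⟨i0⟩ : Nonempty ι := inferInstance
  refine ⟨(hS i0).na, (hS i0).two, (hu F).1, (hu F).2, fun i T hT E hE => (hS i).int T hT E hE, ?_⟩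
  intro i χ hχ T hT hTP
  exact hlm F (c i) w (B i) P (η i) (hS i) χ hχ T hT hTP

open Classical in
/-- large central values have the group property and the design property -/
theorem good_c (hray : RayStatement) (hinj : InjStatement) (hu : UnicStatement)
    (hlm : LmcStatement) (F : Type) [Field F] [NumberField F] (ι : Type) [Fintype ι] [Nonempty ι]
    (c : ι → Ideal (𝓞 F) → ℂ) (w : AbsoluteValue ℂ ℝ) (B : ι → ℝ)
    (P : Set (Pr F)) (η : ι → Pr F → ℂ) (j : ℕ) (l : ι → ℂ)
    (hS : ∀ i, SettingC (c i) w (B i) P (η i)) (hl : ∀ i, CValI (c i) (l i))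
    (hbig : (w 2) ^ (j + 1) * ∏ i, B i < ∏ i, w (l i)) :
    Good P j (LgCV CValI c w ((w 2) ^ (j + 1) * ∏ i, B i)) ∧
      ∀ χ : QChar F, LgCV CValI c w ((w 2) ^ (j + 1) * ∏ i, B i) χ → ∀ i, NonVanC (c i) χ := by
  obtain ⟨i0⟩ : Nonempty ι := inferInstance
  have hw2 : 0 < w 2 := by
    rw [AbsoluteValue.pos_iff]; norm_num
  have hcv := cvset_c hu hlm hS
  have hB : ∀ i, 0 ≤ B i := by
    intro i
    obtain ⟨l, _, hl⟩ := hcv.int i ∅ (by simp) ∅ ⟨by simp, by simp⟩
    exact (w.nonneg _).trans hl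
  have hb : 0 ≤ (w 2) ^ (j + 1) * ∏ i, B i :=
    mul_nonneg (pow_nonneg hw2.le _) (Finset.prod_nonneg (fun i _ => hB i))
  refine ⟨good hray hinj hcv j ⟨l, fun i => ?_, hbig⟩, ?_⟩
  · have h1 : (fun a => c i a * ((trivQ F).chi a : ℂ)) = c i := by
      funext a
      by_cases ha : a = ⊥
      · subst ha
        rw [(hS i).bot, zero_mul]
      · simp [trivQ, ha]
    rw [h1]
    exact hl i
  · rintro χ ⟨z, hz, hzb⟩ i
    refine ⟨z i, ?_, hz i⟩
    intro h0
    have h2 : ∏ i, w (z i) = 0 := Finset.prod_eq_zero (Finset.mem_univ i) (by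
      rw [h0, map_zero])
    rw [h2] at hzb
    linarith

open Classical in
theorem mac_proof (hray : RayStatement) (hinj : InjStatement) (hu : UnicStatement)
    (hlm : LmcStatement) : MacStatement := by
  intro F _ _ ι _ _ c w B P η j l hS hl hbig V hVne hVP hVcl
  obtain ⟨h1, h2⟩ := good_c hray hinj hu hlm F ι c w B P η j l hS hl hbig
  refine (h1.grp V hVne hVP hVcl).trans (Nat.mul_le_mul_left _ (Finset.card_le_card ?_))
  intro χ hχ
  rw [Finset.mem_filter] at hχ ⊢
  exact ⟨hχ.1, h2 χ hχ.2⟩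

end

end Pool.Agent.Lib.MP_50bb2e_nt.Imq.Mac
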