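import Pool.Agent.Lib.MP_50bb2e_nt.Imq.IfaceC

/-!
MP_50bb2e_nt, board IMQ, row UNIC (helper68): uniqueness (identity theorem on `Re s > 1`) and
linearity of the central values in the sense of `CValI`.
-/

namespace Pool.Agent.Lib.MP_50bb2e_nt.Imq.Unic

open Complex Filter Topology NumberField

theorem uniq {K : Type} [Field K] [NumberField K] (e : Ideal (𝓞 K) → ℂ) (l l' : ℂ)
    (h : CValI e l) (h' : CValI e l') : l = l' := by
  obtain ⟨L, hL, ⟨σ, hσ⟩, hl⟩ := h
  obtain ⟨L', hL', ⟨σ', hσ'⟩, hl'⟩ := h'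
  set U : Set ℂ := {s : ℂ | 1 < s.re} with hU
  have hUo : IsOpen U := isOpen_lt continuous_const Complex.continuous_re
  have hUc : IsPreconnected U := (convex_halfSpace_re_gt 1).isPreconnected
  have hA : AnalyticOnNhd ℂ L U := hL.analyticOnNhd hUo
  have hA' : AnalyticOnNhd ℂ L' U := hL'.analyticOnNhd hUo
  set τ : ℝ := max (max σ σ') 1 + 1 with hτ
  have h1τ : 1 < τ := lt_of_le_of_lt (le_max_right _ _) (lt_add_one _)
  have hστ : σ < τ :=
    lt_of_le_of_lt ((le_max_left σ σ').trans (le_max_left _ _)) (lt_add_one _)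
  have hστ' : σ' < τ :=
    lt_of_le_of_lt ((le_max_right σ σ').trans (le_max_left _ _)) (lt_add_one _)
  have hz : (τ : ℂ) ∈ U := by
    simpa [hU] using h1τ
  have hev : L =ᶠ[𝓝 (τ : ℂ)] L' := by
    have ho : IsOpen {s : ℂ | max σ σ' < s.re} :=
      isOpen_lt continuous_const Complex.continuous_re
    have hm : (τ : ℂ) ∈ {s : ℂ | max σ σ' < s.re} := by
      simp only [Set.mem_setOf_eq, Complex.ofReal_re]
      exact max_lt hστ hστ'
    filter_upwards [ho.mem_nhds hm] with s hs
    have hs1 : σ < s.re := lt_of_le_of_lt (le_max_left _ _) hs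
    have hs2 : σ' < s.re := lt_of_le_of_lt (le_max_right _ _) hs
    exact (hσ s hs1).unique (hσ' s hs2)
  have hEq : Set.EqOn L L' U :=
    hA.eqOn_of_preconnected_of_eventuallyEq hA' hUc hz hev
  refine tendsto_nhds_unique (hl.congr' ?_) hl'
  filter_upwards [self_mem_nhdsWithin] with t ht
  exact hEq (by simpa [hU] using ht)

theorem lin {K : Type} [Field K] [NumberField K] (T : Type) (s : Finset T)
    (e : T → Ideal (𝓞 K) → ℂ) (l k : T → ℂ) (h : ∀ t ∈ s, CValI (e t) (l t)) :
    CValI (fun I => ∑ t ∈ s, k t * e t I) (∑ t ∈ s, k t * l t) := by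
  unfold CValI at h
  choose! L hL hs hl using h
  choose! σ hσ using hs
  refine ⟨fun z => ∑ t ∈ s, k t * L t z, ?_, ⟨∑ t ∈ s, |σ t|, ?_⟩, ?_⟩
  · exact DifferentiableOn.fun_sum (fun t ht => (hL t ht).const_mul (k t))
  · intro z hz
    have h1 : ∀ t ∈ s, HasSum (fun I : Ideal (𝓞 K) =>
        k t * (e t I * (Ideal.absNorm I : ℂ) ^ (-z))) (k t * L t z) := by
      intro t ht
      apply HasSum.mul_left
      apply hσ t ht
      refine lt_of_le_of_lt ?_ hz
      exact (le_abs_self _).trans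
        (Finset.single_le_sum (f := fun t => |σ t|) (fun _ _ => abs_nonneg _) ht)
    have h2 := hasSum_sum h1
    refine h2.congr_fun ?_ 
    intro I
    simp only [Finset.sum_mul, mul_assoc]
  · exact tendsto_finset_sum s (fun t ht => (hl t ht).const_mul (k t))

theorem unic_proof : UnicStatement := by
  intro F _ _
  exact ⟨fun e l l' h h' => uniq e l l' h h', fun T s e l k h => lin T s e l k h⟩

end Pool.Agent.Lib.MP_50bb2e_nt.Imq.Unic
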