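import Pool.Agent.Lib.MP_50bb2e_nt.ND.All
import Pool.Agent.Lib.MP_50bb2e_nt.Imq.IfaceC
import Pool.Agent.Lib.MP_50bb2e_nt.Imq.Unic
import Pool.Agent.Lib.MP_50bb2e_nt.Imq.Lmc
import Pool.Agent.Lib.MP_50bb2e_nt.Imq.Mac
import Pool.Agent.Lib.MP_50bb2e_nt.Imq.Mnc

/-!
MP_50bb2e_nt, boards IMQ and ANF: helper29's theorems (PP, ND) for central values in the sense of
`CValI`, all parts together.
-/

namespace Pool.Agent.Lib.MP_50bb2e_nt.Imq.Core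

open Complex MeasureTheory Filter Topology NumberField IsDedekindDomain
open Pool.Agent.Lib.MP_50bb2e_nt.PP
open Pool.Agent.Lib.MP_50bb2e_nt.ND
open Pool.Agent.Lib.MP_50bb2e_nt.Imq

theorem lmc : LmcStatement := Lmc.lmc_proof Unic.unic_proof

theorem mac : MacStatement := Mac.mac_proof ray' inj' Unic.unic_proof lmc

theorem mnc : MncStatement := Mnc.mnc_proof mac prim' fin' mixH (summ fin') abel div'

/-- positive lower natural density -/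
theorem lower (F : Type) [Field F] [NumberField F] (ι : Type) [Fintype ι] [Nonempty ι]
    (c : ι → Ideal (𝓞 F) → ℂ) (w : AbsoluteValue ℂ ℝ) (B : ι → ℝ)
    (P : Set (Pr F)) (η : ι → Pr F → ℂ) (j : ℕ) (l : ι → ℂ)
    (hS : ∀ i, SettingC (c i) w (B i) P (η i)) (hl : ∀ i, CValI (c i) (l i))
    (hbig : (w 2) ^ (j + 1) * ∏ i, B i < ∏ i, w (l i)) (S : Set (Pr F)) (hSf : S.Finite)
    (hC : ∃ a : ℝ, 0 < a ∧ ∀ᶠ Y : ℕ in atTop, a * Y / Real.log Y ≤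
      Set.ncard {v : Pr F | Y < nm v ∧ nm v ≤ 2 * Y ∧ ∃ χ ∈ Fam P S, χ.T = {v}}) :
    ∃ κ : ℝ, 0 < κ ∧ ∀ᶠ X : ℕ in atTop,
      κ * Set.ncard {χ : QChar F | χ ∈ Fam P S ∧ χ.cond ≤ X} ≤
        Set.ncard {χ : QChar F | χ ∈ Fam P S ∧ (∀ i, NonVanC (c i) χ) ∧ χ.cond ≤ X} := by
  obtain ⟨hG, hLg⟩ := Mac.good_c ray' inj' Unic.unic_proof lmc F ι c w B P η j l hS hl hbig
  obtain ⟨i0⟩ : Nonempty ι := inferInstance
  obtain ⟨κ, hκ, hev⟩ := ndMain F P S j _ hG (hS i0).odd hSf hC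
  refine ⟨κ, hκ, ?_⟩
  filter_upwards [hev] with X hX
  refine hX.trans ?_
  have hfin : {χ : QChar F | χ.cond ≤ X}.Finite := (summ fin' F).1 X
  have := Set.ncard_le_ncard (s := {χ : QChar F | χ ∈ Fam P S ∧
      LgCV CValI c w ((w 2) ^ (j + 1) * ∏ i, B i) χ ∧ χ.cond ≤ X})
    (t := {χ : QChar F | χ ∈ Fam P S ∧ (∀ i, NonVanC (c i) χ) ∧ χ.cond ≤ X})
    (fun χ hχ => ⟨hχ.1, hLg χ hχ.2.1, hχ.2.2⟩) (hfin.subset (fun χ hχ => hχ.2.2))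
  exact_mod_cast this

end Pool.Agent.Lib.MP_50bb2e_nt.Imq.Core
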