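import Pool.Agent.Lib.MP_50bb2e_nt.Imq.IfaceC

/-!
MP_50bb2e_nt, board IMQ, row FINC: the assembly.
-/

namespace Pool.Agent.Lib.MP_50bb2e_nt.Imq.Finc

open Complex MeasureTheory Filter Topology NumberField IsDedekindDomain
open Pool.Agent.Lib.MP_50bb2e_nt.PP (Pr nm Cop QChar IsRayUnion Fam Closed)
open Pool.Agent.Lib.MP_50bb2e_nt.Imq

/-- a power of a number less than one beats every constant -/
theorem exists_exp (x C y : ℝ) (hx0 : 0 ≤ x) (hx : x < 1) (hy : 0 < y) :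
    ∃ j : ℕ, x ^ (j + 1) * C < y := by
  have h1 : Tendsto (fun j : ℕ => x ^ j) atTop (𝓝 0) :=
    tendsto_pow_atTop_nhds_zero_of_lt_one hx0 hx
  have h2 : Tendsto (fun j : ℕ => x ^ (j + 1) * C) atTop (𝓝 (0 * C)) :=
    ((tendsto_add_atTop_iff_nat 1).mpr h1).mul_const C
  rw [zero_mul] at h2
  exact ((tendsto_order.mp h2).2 y hy).exists

theorem finc_proof (hpsi : PsiStatement) (hmnc : MncStatement) : FinalStatement := by
  intro K _ _ i δ hK v hna h2 ι _ _ n D c ψ hf hl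
  choose l hl0 hlv using hl
  have h := fun t => hpsi K i δ hK (n t) (c t) (hf t).1 (hf t).2.2.1 v hna h2 (D t) (ψ t)
    (hf t).2.1 (hf t).2.2.2
  choose B hB using h
  have hpos : 0 < ∏ t, v (l t) := Finset.prod_pos (fun t _ => v.pos (hl0 t))
  obtain ⟨j, hj⟩ := exists_exp (v 2) (∏ t, B t) (∏ t, v (l t)) (v.nonneg 2) h2 hpos
  refine ⟨j, fun P hP => ?_⟩
  have hm := hmnc K ι (fun t a => c t a * ψ t a) v B P (fun t u => ψ t u.asIdeal ^ 2) j l
    (fun t => hB t P (fun u hu => ⟨(hP u hu).1, ((hP u hu).2 t).1, ((hP u hu).2 t).2.1,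
      ((hP u hu).2 t).2.2⟩)) hlv hj
  exact ⟨hm.1, hm.2.1, fun S hS hdiv t ht => (hm.2.2 S hS hdiv).2.2 t ht⟩

end Pool.Agent.Lib.MP_50bb2e_nt.Imq.Finc
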