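import Pool.Agent.Lib.MP_50bb2e_nt.Imq.IfaceC

/-!
MP_50bb2e_nt, board IMQ, row PSI: the twist of a form over `K` by a ray class character satisfies
the setting `SettingC`.
-/

namespace Pool.Agent.Lib.MP_50bb2e_nt.Imq.Psi

open Complex MeasureTheory Filter Topology NumberField IsDedekindDomain
open scoped ComplexConjugate nonZeroDivisors
open Pool.Agent.Lib.MP_50bb2e_nt.PP (Pr nm Cop QChar IsRayUnion Fam Closed)

noncomputable section

/-! ### Absolute values -/

/-- roots of unity have absolute value one -/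
theorem abv_root (v : AbsoluteValue ℂ ℝ) {x : ℂ} {m : ℕ} (hm : 0 < m) (h : x ^ m = 1) :
    v x = 1 := by
  have h1 : (v x) ^ m = 1 := by rw [← map_pow, h, map_one]
  exact (pow_eq_one_iff_of_nonneg (v.nonneg x) hm.ne').mp h1

/-- roots of unity have norm one -/
theorem norm_root {x : ℂ} {m : ℕ} (hm : 0 < m) (h : x ^ m = 1) : ‖x‖ = 1 := by
  have h1 : ‖x‖ ^ m = 1 := by rw [← norm_pow, h, norm_one]
  exact (pow_eq_one_iff_of_nonneg (norm_nonneg x) hm.ne').mp h1

/-- the ultrametric inequality for finite sums -/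
theorem abv_sum (v : AbsoluteValue ℂ ℝ) (na : ∀ x y : ℂ, v (x + y) ≤ max (v x) (v y))
    {T : Type} (s : Finset T) (f : T → ℂ) {B : ℝ} (hB : 0 ≤ B) (h : ∀ t ∈ s, v (f t) ≤ B) :
    v (∑ t ∈ s, f t) ≤ B := by
  classical
  induction s using Finset.induction_on with
  | empty => simpa using hB
  | insert a s ha ih =>
    rw [Finset.sum_insert ha]
    refine le_trans (na _ _) (max_le (h a (Finset.mem_insert_self a s)) (ih ?_))
    intro t ht
    exact h t (Finset.mem_insert_of_mem ht)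

variable {K : Type} [Field K] [NumberField K]

/-! ### Characters -/

theorem rchar_norm {D : Ideal (𝓞 K)} {ψ : Ideal (𝓞 K) → ℂ} (h : RChar D ψ) (a : Ideal (𝓞 K)) :
    ‖ψ a‖ ≤ 1 := by
  by_cases ha : a = ⊥
  · rw [ha, h.bot]; simp
  by_cases hD : D ⊔ a = ⊤
  · obtain ⟨m, hm, h1⟩ := h.fin
    exact (norm_root hm (h1 a ha hD)).le
  · rw [h.zero a hD]; simp

theorem rchar_abv (v : AbsoluteValue ℂ ℝ) {D : Ideal (𝓞 K)} {ψ : Ideal (𝓞 K) → ℂ}
    (h : RChar D ψ) {a : Ideal (𝓞 K)} (ha : a ≠ ⊥) (hD : D ⊔ a = ⊤) : v (ψ a) = 1 := by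
  obtain ⟨m, hm, h1⟩ := h.fin
  exact abv_root v hm (h1 a ha hD)

theorem rchar_abv_le (v : AbsoluteValue ℂ ℝ) {D : Ideal (𝓞 K)} {ψ : Ideal (𝓞 K) → ℂ}
    (h : RChar D ψ) (a : Ideal (𝓞 K)) : v (ψ a) ≤ 1 := by
  by_cases ha : a = ⊥
  · rw [ha, h.bot]; simp
  by_cases hD : D ⊔ a = ⊤
  · exact (rchar_abv v h ha hD).le
  · rw [h.zero a hD]; simp

theorem sup_prime {D : Ideal (𝓞 K)} (u : Pr K) (h : ¬ D ≤ u.asIdeal) : D ⊔ u.asIdeal = ⊤ := by
  have hm : u.asIdeal.IsMaximal := u.isMaximal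
  by_contra hne
  have h1 : u.asIdeal = D ⊔ u.asIdeal := hm.eq_of_le hne le_sup_right
  exact h (by rw [h1]; exact le_sup_left)

/-! ### Products of primes -/

/-- the ideal of a finite set of primes -/
def pT (T : Finset (Pr K)) : Ideal (𝓞 K) := ∏ u ∈ T, u.asIdeal

theorem pT_ne (T : Finset (Pr K)) : pT T ≠ ⊥ := by
  unfold pT
  rw [← Submodule.zero_eq_bot, Finset.prod_ne_zero_iff]
  intro u _
  rw [Submodule.zero_eq_bot]
  exact u.ne_bot

theorem pT_odd (T : Finset (Pr K)) (h : ∀ u ∈ T, Odd (nm u)) : Odd (Ideal.absNorm (pT T)) := by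
  unfold pT
  rw [map_prod]
  exact Finset.prod_induction _ (fun n : ℕ => Odd n) (fun a b ha hb => ha.mul hb) odd_one h

theorem pT_le {T : Finset (Pr K)} {u : Pr K} (hu : u ∈ T) : pT T ≤ u.asIdeal :=
  Ideal.le_of_dvd (Finset.dvd_prod_of_mem _ hu)

theorem pT_cop {T : Finset (Pr K)} {a : Ideal (𝓞 K)} (h : Cop T a) : pT T ⊔ a = ⊤ := by
  unfold pT
  refine Ideal.prod_sup_eq_top ?_
  intro u hu
  have := sup_prime u (h u hu)
  rwa [sup_comm] at this

/-! ### The main part -/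

open Classical in
theorem part (hR : RayfStatement) {D : Ideal (𝓞 K)} {ψ : Ideal (𝓞 K) → ℂ} (hD : D ≠ ⊥)
    (hψ : RChar D ψ) (c : Ideal (𝓞 K) → ℂ) (T : Finset (Pr K)) (E : Set (Ideal (𝓞 K)))
    (hE : IsRayUnion T E) :
    ∃ R : Finset (Ideal (𝓞 K)), (∀ J ∈ R, J ≠ ⊥ ∧ (D * pT T) ⊔ J = ⊤) ∧
      (fun a => if a ∈ E then c a * ψ a else 0) =
        fun I => ∑ J ∈ R, (if J ∈ E then ψ J else 0) *
          (if RayEq (D * pT T) I J then c I else 0) := by
  obtain ⟨hsymm, -, -, hcop, R, hR1, hR2⟩ := hR K (D * pT T)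
    (by
      rw [← Submodule.zero_eq_bot] at *
      exact mul_ne_zero hD (by rw [Submodule.zero_eq_bot]; exact pT_ne T))
  have hE1 : ∀ I J : Ideal (𝓞 K), RayEq (D * pT T) I J → I ∈ E → J ∈ E := by
    rintro I J ⟨α, β, hα, hβ, hα1, hβ1, h⟩ hI
    refine hE.ray I hI J α β hα hβ ?_ h
    intro u hu
    have hle : D * pT T ≤ u.asIdeal := le_trans Ideal.mul_le_right (pT_le hu)
    have ha := hle hα1
    have hb := hle hβ1
    refine ⟨?_, ?_⟩
    · intro hc
      have h1 : (1 : 𝓞 K) ∈ u.asIdeal := by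
        have := u.asIdeal.sub_mem hc ha
        simpa using this
      exact u.isPrime.ne_top ((Ideal.eq_top_iff_one _).mpr h1)
    · have := u.asIdeal.sub_mem ha hb
      simpa using this
  refine ⟨R, hR1, ?_⟩
  funext I
  by_cases hI : I ≠ ⊥ ∧ (D * pT T) ⊔ I = ⊤
  · obtain ⟨J, ⟨hJR, hJ⟩, huniq⟩ := hR2 I hI.1 hI.2
    rw [Finset.sum_eq_single J]
    · rw [if_pos hJ]
      have hψe : ψ I = ψ J := by
        refine hψ.ray I J ?_
        obtain ⟨α, β, hα, hβ, hα1, hβ1, h⟩ := hJ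
        have hle : D * pT T ≤ D := Ideal.mul_le_left
        exact ⟨α, β, hα, hβ, hle hα1, hle hβ1, h⟩
      by_cases hIE : I ∈ E
      · rw [if_pos hIE, if_pos (hE1 I J hJ hIE), hψe, mul_comm]
      · have hJE : J ∉ E := fun hJE => hIE (hE1 J I (hsymm I J hJ) hJE)
        rw [if_neg hIE, if_neg hJE, zero_mul]
    · intro J' hJ' hne
      have h : ¬ RayEq (D * pT T) I J' := fun h => hne (huniq J' ⟨hJ', h⟩)
      rw [if_neg h, mul_zero]
    · intro h
      exact absurd hJR h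
  · have h0 : ∑ J ∈ R, (if J ∈ E then ψ J else 0) *
        (if RayEq (D * pT T) I J then c I else 0) = 0 := by
      refine Finset.sum_eq_zero ?_
      intro J hJ
      have h : ¬ RayEq (D * pT T) I J := fun h => hI (hcop I J h (hR1 J hJ).1 (hR1 J hJ).2)
      rw [if_neg h, mul_zero]
    rw [h0]
    split_ifs with hIE
    · obtain ⟨hI1, hI2⟩ := hE.cop I hIE
      have h1 : ¬ D ⊔ I = ⊤ := by
        intro h1
        refine hI ⟨hI1, ?_⟩
        have h2 : D * pT T ⊔ I = pT T ⊔ I := Ideal.mul_sup_eq_of_coprime_left h1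
        rw [h2]
        exact pT_cop hI2
      rw [hψ.zero I h1, mul_zero]
    · rfl

theorem psi_proof (hG : GintStatement) (hU : UnicStatement) (hR : RayfStatement)
    (hS : SumzStatement) : PsiStatement := by
  intro K _ _ i δ hi n c hn hc v hna h2 D ψ hD hψ
  obtain ⟨B, hB⟩ := hG K i δ hi n c hn hc v hna h2 D hD
  refine ⟨max B 0, ?_⟩
  intro P hP
  refine ⟨hna, h2, ?_, ?_, ?_, ?_, ?_, ?_, ?_, ?_⟩
  · simp [hψ.bot]
  · obtain ⟨C, m, hC⟩ := hc.growth
    refine ⟨m + 2, ?_⟩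
    have hC1 : 1 ≤ C := by
      have := hC ⊤ (by simp)
      rw [hc.one] at this
      simpa using this
    refine Summable.of_nonneg_of_le (f := fun a : Ideal (𝓞 K) =>
      C * (Ideal.absNorm a : ℝ) ^ (-(2 : ℝ))) ?_ ?_ ((hS K 2 (by norm_num)).mul_left C)
    · intro a
      positivity
    · intro a
      by_cases ha : a = ⊥
      · rw [ha]
        simp only [hψ.bot, mul_zero, norm_zero, zero_mul]
        positivity
      · have hN : (0 : ℝ) < (Ideal.absNorm a : ℝ) := by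
          have : Ideal.absNorm a ≠ 0 := by
            rw [Ne, Ideal.absNorm_eq_zero_iff]; exact ha
          exact_mod_cast Nat.pos_of_ne_zero this
        have h1 : ‖c a * ψ a‖ ≤ C * (Ideal.absNorm a : ℝ) ^ m := by
          rw [norm_mul]
          calc ‖c a‖ * ‖ψ a‖ ≤ ‖c a‖ * 1 :=
                mul_le_mul_of_nonneg_left (rchar_norm hψ a) (norm_nonneg _)
            _ ≤ C * (Ideal.absNorm a : ℝ) ^ m := by rw [mul_one]; exact hC a ha
        calc ‖c a * ψ a‖ * (Ideal.absNorm a : ℝ) ^ (-((m : ℝ) + 2))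
            ≤ (C * (Ideal.absNorm a : ℝ) ^ m) * (Ideal.absNorm a : ℝ) ^ (-((m : ℝ) + 2)) :=
              mul_le_mul_of_nonneg_right h1 (by positivity)
          _ = C * (Ideal.absNorm a : ℝ) ^ (-(2 : ℝ)) := by
              rw [mul_assoc, ← Real.rpow_natCast, ← Real.rpow_add hN]
              congr 2
              ring
  · intro u hu
    exact (hP u hu).1
  · intro u hu
    obtain ⟨-, -, hDu, h1⟩ := hP u hu
    have hψ1 : v (ψ u.asIdeal) = 1 := rchar_abv v hψ u.ne_bot (sup_prime u hDu)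
    have h3 : v (1 + ψ u.asIdeal ^ 2) ≤ 1 := by
      refine le_trans (hna _ _) ?_
      rw [map_one, map_pow, hψ1]
      norm_num
    have h4 : c u.asIdeal * ψ u.asIdeal = (1 + ψ u.asIdeal ^ 2) +
        -(1 - c u.asIdeal * ψ u.asIdeal + ψ u.asIdeal ^ 2) := by ring
    show v (c u.asIdeal * ψ u.asIdeal) ≤ 1
    rw [h4]
    refine le_trans (hna _ _) (max_le h3 ?_)
    rw [v.map_neg, h1]
  · intro u hu
    exact (hP u hu).2.2.2
  · intro u hu a ha
    show c (u.asIdeal * a) * ψ (u.asIdeal * a) = c u.asIdeal * ψ u.asIdeal * (c a * ψ a)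
    rw [hc.hecke u.asIdeal u.isPrime u.ne_bot (hP u hu).2.1 a ha, hψ.mul]
    ring
  · intro u hu a
    show c (u.asIdeal * (u.asIdeal * a)) * ψ (u.asIdeal * (u.asIdeal * a)) =
      c u.asIdeal * ψ u.asIdeal * (c (u.asIdeal * a) * ψ (u.asIdeal * a)) -
        ψ u.asIdeal ^ 2 * (nm u : ℂ) * (c a * ψ a)
    by_cases ha : a = ⊥
    · have h0 : ψ a = 0 := by rw [ha, hψ.bot]
      rw [hψ.mul, hψ.mul, h0]
      ring
    · have h1 := hc.hecke' u.asIdeal u.isPrime u.ne_bot (hP u hu).2.1 a ha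
      have h5 : c (u.asIdeal * (u.asIdeal * a)) =
          c u.asIdeal * c (u.asIdeal * a) - (nm u : ℂ) * c a := by
        rw [← h1]
        unfold nm
        ring
      rw [h5, hψ.mul, hψ.mul]
      ring
  · intro T hT E hE
    classical
    obtain ⟨R, hR1, hR2⟩ := part hR hD hψ c T E hE
    have hodd : Odd (Ideal.absNorm (pT T)) := pT_odd T (fun u hu => (hP u (hT hu)).1)
    have hl : ∀ J : Ideal (𝓞 K), ∃ l : ℂ, J ∈ R → (v l ≤ B ∧
        CValI (fun I => if RayEq (D * pT T) I J then c I else 0) l) := by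
      intro J
      by_cases hJ : J ∈ R
      · obtain ⟨l, h1, h2⟩ := hB (pT T) J (pT_ne T) (hR1 J hJ).1 hodd (hR1 J hJ).2
        refine ⟨l, fun _ => ⟨h1, ?_⟩⟩
        convert h2
      · exact ⟨0, fun h => absurd h hJ⟩
    choose l hl using hl
    refine ⟨∑ J ∈ R, (if J ∈ E then ψ J else 0) * l J, ?_, ?_⟩
    · have h6 := (hU K).2 (Ideal (𝓞 K)) R
        (fun J I => if RayEq (D * pT T) I J then c I else 0) l
        (fun J => if J ∈ E then ψ J else 0) (fun J hJ => (hl J hJ).2)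
      convert h6
    · refine abv_sum v hna R _ (le_max_right _ _) ?_
      intro J hJ
      rw [map_mul]
      split_ifs with hJE
      · calc v (ψ J) * v (l J) ≤ 1 * v (l J) :=
              mul_le_mul_of_nonneg_right (rchar_abv_le v hψ J) (v.nonneg _)
          _ ≤ max B 0 := by rw [one_mul]; exact le_trans (hl J hJ).1 (le_max_left _ _)
      · rw [map_zero, zero_mul]
        exact le_max_right _ _

end

end Pool.Agent.Lib.MP_50bb2e_nt.Imq.Psi
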