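import Pool.Agent.Lib.MP_50bb2e_nt.Imq.IfaceC

/-!
MP_50bb2e_nt, board IMQ, row RAYF: the ray classes modulo `D` form a finite set.
-/

namespace Pool.Agent.Lib.MP_50bb2e_nt.Imq.Rayf

open NumberField
open scoped nonZeroDivisors

set_option linter.unusedSectionVars false

variable {K : Type} [Field K] [NumberField K]

theorem symm' {D I J : Ideal (𝓞 K)} (h : RayEq D I J) : RayEq D J I := by
  obtain ⟨α, β, h1, h2, h3, h4, h5⟩ := h
  exact ⟨β, α, h2, h1, h4, h3, h5.symm⟩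

theorem refl' (D I : Ideal (𝓞 K)) : RayEq D I I :=
  ⟨1, 1, one_ne_zero, one_ne_zero, by simp, by simp, rfl⟩

theorem mul_sub_one {D : Ideal (𝓞 K)} {a b : 𝓞 K} (ha : a - 1 ∈ D) (hb : b - 1 ∈ D) :
    a * b - 1 ∈ D := by
  have h : a * (b - 1) + (a - 1) ∈ D := D.add_mem (D.mul_mem_left a hb) ha
  have e : a * (b - 1) + (a - 1) = a * b - 1 := by ring
  rwa [e] at h

theorem trans' {D I J L : Ideal (𝓞 K)} (h : RayEq D I J) (h' : RayEq D J L) :
    RayEq D I L := by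
  obtain ⟨α, β, h1, h2, h3, h4, h5⟩ := h
  obtain ⟨α', β', h1', h2', h3', h4', h5'⟩ := h'
  refine ⟨α * α', β * β', mul_ne_zero h1 h1', mul_ne_zero h2 h2', mul_sub_one h3 h3',
    mul_sub_one h4 h4', ?_⟩
  rw [← Ideal.span_singleton_mul_span_singleton, ← Ideal.span_singleton_mul_span_singleton]
  calc Ideal.span {α} * Ideal.span {α'} * I
      = Ideal.span {α'} * (Ideal.span {α} * I) := by ring
    _ = Ideal.span {β} * (Ideal.span {α'} * J) := by rw [h5]; ring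
    _ = Ideal.span {β} * Ideal.span {β'} * L := by rw [h5']; ring

/-- an element which is `1` modulo `D` generates an ideal coprime to `D` -/
theorem cop_span {D : Ideal (𝓞 K)} {γ : 𝓞 K} (h : γ - 1 ∈ D) : D ⊔ Ideal.span {γ} = ⊤ := by
  rw [Ideal.eq_top_iff_one]
  have h1 : (1 : 𝓞 K) = -(γ - 1) + γ := by ring
  rw [h1]
  exact Submodule.add_mem_sup (D.neg_mem h) (Ideal.mem_span_singleton_self γ)

theorem cop_left {D I J : Ideal (𝓞 K)} (h : D ⊔ I * J = ⊤) : D ⊔ I = ⊤ :=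
  top_le_iff.mp (h ▸ sup_le_sup_left Ideal.mul_le_left D)

theorem cop_right {D I J : Ideal (𝓞 K)} (h : D ⊔ I * J = ⊤) : D ⊔ J = ⊤ :=
  top_le_iff.mp (h ▸ sup_le_sup_left Ideal.mul_le_right D)

theorem cop_mul {D I J : Ideal (𝓞 K)} (h : D ⊔ I = ⊤) (h' : D ⊔ J = ⊤) : D ⊔ I * J = ⊤ := by
  exact Ideal.sup_mul_eq_of_coprime_left h |>.trans h'

theorem span_ne {γ : 𝓞 K} (h : γ ≠ 0) : Ideal.span {γ} ≠ (⊥ : Ideal (𝓞 K)) := by
  rwa [Ne, Ideal.span_singleton_eq_bot]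

theorem part4 {D I J : Ideal (𝓞 K)} (h : RayEq D I J) (hJ : J ≠ ⊥) (hc : D ⊔ J = ⊤) :
    I ≠ ⊥ ∧ D ⊔ I = ⊤ := by
  obtain ⟨α, β, h1, h2, h3, h4, h5⟩ := h
  constructor
  · intro h0
    rw [h0] at h5
    have h6 : Ideal.span {β} * J = ⊥ := by rw [← h5]; simp
    rcases Ideal.mul_eq_bot.mp h6 with h7 | h7
    · exact span_ne h2 h7
    · exact hJ h7
  · exact cop_right (I := Ideal.span {α}) (h5 ▸ cop_mul (cop_span h4) hc)

/-- a complement -/
theorem compl (D J : Ideal (𝓞 K)) (hJ : J ≠ ⊥) (hc : D ⊔ J = ⊤) :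
    ∃ b : Ideal (𝓞 K), ∃ γ : 𝓞 K, γ ≠ 0 ∧ γ - 1 ∈ D ∧ b ≠ ⊥ ∧ J * b = Ideal.span {γ} := by
  have key : ∃ γ : 𝓞 K, γ ≠ 0 ∧ γ - 1 ∈ D ∧ γ ∈ J := by
    by_cases hD : D = ⊤
    · obtain ⟨γ, h1, h2⟩ := Submodule.exists_mem_ne_zero_of_ne_bot hJ
      exact ⟨γ, h2, by rw [hD]; trivial, h1⟩
    · have h1 : (1 : 𝓞 K) ∈ D ⊔ J := by rw [hc]; trivial
      obtain ⟨y, hy, x, hx, e⟩ := Submodule.mem_sup.mp h1
      refine ⟨x, ?_, ?_, hx⟩
      · intro h0
        rw [h0, add_zero] at e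
        exact hD ((Ideal.eq_top_iff_one D).mpr (e ▸ hy))
      · have e' : x - 1 = -y := by rw [← e]; ring
        rw [e']
        exact D.neg_mem hy
  obtain ⟨γ, h1, h2, h3⟩ := key
  have hd : J ∣ Ideal.span {γ} := by
    rw [Ideal.dvd_span_singleton]
    exact h3
  obtain ⟨b, hb⟩ := hd
  refine ⟨b, γ, h1, h2, ?_, hb.symm⟩
  intro h0
  rw [h0] at hb
  exact span_ne h1 (hb.trans (by simp))

/-- the main step -/
theorem step {D I I' b : Ideal (𝓞 K)} {δ δ' : 𝓞 K} (hδ : δ ≠ 0) (hδ' : δ' ≠ 0)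
    (h : I * b = Ideal.span {δ}) (h' : I' * b = Ideal.span {δ'}) (hI : D ⊔ I = ⊤)
    (hb : D ⊔ b = ⊤) (hm : δ - δ' ∈ D) : RayEq D I I' := by
  have hc : D ⊔ Ideal.span {δ} = ⊤ := h ▸ cop_mul hI hb
  have key : ∃ ε : 𝓞 K, ε ≠ 0 ∧ ε * δ - 1 ∈ D := by
    by_cases hD : D = ⊤
    · exact ⟨1, one_ne_zero, by rw [hD]; trivial⟩
    · have h1 : (1 : 𝓞 K) ∈ D ⊔ Ideal.span {δ} := by rw [hc]; trivial
      obtain ⟨y, hy, x, hx, e⟩ := Submodule.mem_sup.mp h1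
      obtain ⟨ε, hε⟩ := Ideal.mem_span_singleton'.mp hx
      refine ⟨ε, ?_, ?_⟩
      · intro h0
        rw [h0, zero_mul] at hε
        rw [← hε, add_zero] at e
        exact hD ((Ideal.eq_top_iff_one D).mpr (e ▸ hy))
      · have e' : ε * δ - 1 = -y := by rw [hε, ← e]; ring
        rw [e']
        exact D.neg_mem hy
  obtain ⟨ε, h1, h2⟩ := key
  refine ⟨ε * δ', ε * δ, mul_ne_zero h1 hδ', mul_ne_zero h1 hδ, ?_, h2, ?_⟩
  · have e : ε * δ' - 1 = (ε * δ - 1) - ε * (δ - δ') := by ring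
    rw [e]
    exact D.sub_mem h2 (D.mul_mem_left ε hm)
  · rw [← Ideal.span_singleton_mul_span_singleton, ← Ideal.span_singleton_mul_span_singleton,
      ← h, ← h']
    ring

theorem rayf_proof : RayfStatement := by
  intro K _ _ D hD
  refine ⟨fun I J => symm', fun I => refl' D I, fun I J L => trans',
    fun I J h h1 h2 => part4 h h1 h2, ?_⟩
  classical
  let S : Type := {I : Ideal (𝓞 K) // I ≠ ⊥ ∧ D ⊔ I = ⊤}
  let st : Setoid S :=
    { r := fun I J => RayEq D I.1 J.1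
      iseqv := ⟨fun I => refl' D I.1, fun h => symm' h, fun h h' => trans' h h'⟩ }
  have hnz : ∀ I : S, I.1 ∈ (Ideal (𝓞 K))⁰ := fun I => mem_nonZeroDivisors_of_ne_zero I.2.1
  let cl : S → ClassGroup (𝓞 K) := fun I => ClassGroup.mk0 ⟨I.1, hnz I⟩
  have hS : Nonempty S := ⟨⟨⊤, top_ne_bot, by simp⟩⟩
  let rep : ClassGroup (𝓞 K) → S := fun C =>
    if h : ∃ J : S, cl J = C then h.choose else hS.some
  have hrep : ∀ I : S, cl (rep (cl I)) = cl I := by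
    intro I
    have h : ∃ J : S, cl J = cl I := ⟨I, rfl⟩
    have e : rep (cl I) = h.choose := dif_pos h
    rw [e]
    exact h.choose_spec
  have hcompl : ∀ J : S, ∃ b : Ideal (𝓞 K), ∃ γ : 𝓞 K, γ ≠ 0 ∧ γ - 1 ∈ D ∧ b ≠ ⊥ ∧
      J.1 * b = Ideal.span {γ} := fun J => compl D J.1 J.2.1 J.2.2
  choose b γ hγ hγD hb hJb using hcompl
  have hbc : ∀ J : S, D ⊔ b J = ⊤ := by
    intro J
    have h : D ⊔ J.1 * b J = ⊤ := (hJb J).symm ▸ cop_span (hγD J)
    exact cop_right h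
  have hδ : ∀ I : S, ∃ δ : 𝓞 K, δ ≠ 0 ∧ I.1 * b (rep (cl I)) = Ideal.span {δ} := by
    intro I
    have hbn : b (rep (cl I)) ∈ (Ideal (𝓞 K))⁰ :=
      mem_nonZeroDivisors_of_ne_zero (hb _)
    have e1 : cl (rep (cl I)) * ClassGroup.mk0 ⟨b (rep (cl I)), hbn⟩ = 1 := by
      have hp : (rep (cl I)).1 * b (rep (cl I)) ∈ (Ideal (𝓞 K))⁰ :=
        mul_mem (hnz _) hbn
      have e2 : ClassGroup.mk0 ⟨(rep (cl I)).1 * b (rep (cl I)), hp⟩ = 1 := by
        rw [ClassGroup.mk0_eq_one_iff]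
        exact ⟨γ (rep (cl I)), hJb (rep (cl I))⟩
      rw [← e2, ← map_mul]
      rfl
    rw [hrep I] at e1
    have hp : I.1 * b (rep (cl I)) ∈ (Ideal (𝓞 K))⁰ := mul_mem (hnz I) hbn
    have e3 : ClassGroup.mk0 ⟨I.1 * b (rep (cl I)), hp⟩ = 1 := by
      rw [← e1, ← map_mul]
      rfl
    rw [ClassGroup.mk0_eq_one_iff] at e3
    obtain ⟨δ, hd⟩ := e3
    have hd' : I.1 * b (rep (cl I)) = Ideal.span {δ} := hd
    refine ⟨δ, ?_, hd'⟩
    intro h0
    rw [h0] at hd'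
    have h4 : I.1 * b (rep (cl I)) = ⊥ := by rw [hd']; simp
    rcases Ideal.mul_eq_bot.mp h4 with h | h
    · exact I.2.1 h
    · exact hb _ h
  choose δ hδ0 hδ using hδ
  let f : S → ClassGroup (𝓞 K) × (𝓞 K ⧸ D) := fun I => (cl I, Ideal.Quotient.mk D (δ I))
  have hf : ∀ I I' : S, f I = f I' → RayEq D I.1 I'.1 := by
    intro I I' h
    have h1 : cl I = cl I' := congrArg Prod.fst h
    have h2 : Ideal.Quotient.mk D (δ I) = Ideal.Quotient.mk D (δ I') := congrArg Prod.snd h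
    have h3 : δ I - δ I' ∈ D := Ideal.Quotient.eq.mp h2
    have h4 := hδ I'
    rw [← h1] at h4
    exact step (hδ0 I) (hδ0 I') (hδ I) h4 I.2.2 (hbc _) h3
  have : Finite (𝓞 K ⧸ D) := Ring.HasFiniteQuotients.finiteQuotient hD
  have : Finite (Quotient st) := by
    refine Finite.of_injective (fun q : Quotient st => f q.out) ?_
    intro q q' h
    have h1 : RayEq D q.out.1 q'.out.1 := hf _ _ h
    have h2 : Quotient.mk st q.out = Quotient.mk st q'.out := Quotient.sound h1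
    rwa [Quotient.out_eq, Quotient.out_eq] at h2
  have : Fintype (Quotient st) := Fintype.ofFinite _
  refine ⟨Finset.univ.image (fun q : Quotient st => q.out.1), ?_, ?_⟩
  · intro J hJ
    obtain ⟨q, _, rfl⟩ := Finset.mem_image.mp hJ
    exact q.out.2
  · intro I h1 h2
    let I' : S := ⟨I, h1, h2⟩
    refine ⟨(Quotient.mk st I').out.1, ⟨Finset.mem_image.mpr ⟨_, Finset.mem_univ _, rfl⟩, ?_⟩, ?_⟩
    · have h : RayEq D (Quotient.mk st I').out.1 I'.1 :=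
        Quotient.exact (Quotient.out_eq (Quotient.mk st I'))
      exact symm' h
    · rintro J ⟨hJ, hr⟩
      obtain ⟨q, _, rfl⟩ := Finset.mem_image.mp hJ
      have h3 : Quotient.mk st I' = Quotient.mk st q.out := Quotient.sound hr
      rw [Quotient.out_eq] at h3
      rw [h3]

end Pool.Agent.Lib.MP_50bb2e_nt.Imq.Rayf
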