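import Pool.Agent.Lib.MP_50bb2e_nt.Imq.IfaceC
import Pool.Agent.Lib.MP_50bb2e_nt.PP.Summ

/-!
MP_50bb2e_nt, board IMQ, row SUMZ: convergence of the zeta function of a number field.
-/

namespace Pool.Agent.Lib.MP_50bb2e_nt.Imq.Sumz

open NumberField
open Pool.Agent.Lib.MP_50bb2e_nt.Imq

theorem sumz_proof : SumzStatement := by
  intro K _ _ σ hσ
  have h1 := PP.Summ.tsum_ideals (F := K) σ hσ
  have h2 := ENNReal.summable_toReal h1
  refine h2.congr ?_
  intro I
  exact ENNReal.toReal_ofReal (Real.rpow_nonneg (Nat.cast_nonneg _) _)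

end Pool.Agent.Lib.MP_50bb2e_nt.Imq.Sumz
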