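import Pool.Agent.Lib.MP_50bb2e_nt.Imq.Iface

/-!
MP_50bb2e_nt, board IMQ, row GFG (helper73): the limits at the cusps generate a finitely generated
group (descent with bounded denominators, any class number).
-/

namespace Pool.Agent.Lib.MP_50bb2e_nt.Imq.Gfg

set_option linter.unusedSectionVars false

open Complex Filter Topology NumberField
open scoped ComplexConjugate nonZeroDivisors

variable {K : Type} [Field K] [NumberField K] {i : K →+* ℂ} {δ : ℂ} {n : Ideal (𝓞 K)}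
  {c : Ideal (𝓞 K) → ℂ}

/-! ### The limits -/

/-- the limit at the cusp `g ∞` -/
noncomputable def L (hf : Form i δ n c) (A : FI K) (g : SLK K) : ℂ :=
  Classical.choose (hf.cusp A g)

theorem L_spec (hf : Form i δ n c) (A : FI K) (g : SLK K) (z : ℂ) :
    Tendsto (fun y : ℝ => HH i δ c A (actz (toC i g) z y) (acty (toC i g) z y)) atTop
      (𝓝 (L hf A g)) :=
  Classical.choose_spec (hf.cusp A g) z

theorem toC_mul (g k : SLK K) : toC i (g * k) = toC i g * toC i k :=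
  map_mul (Matrix.SpecialLinearGroup.map i) g k

theorem toC_apply (g : SLK K) (a b : Fin 2) : toC i g a b = i (g a b) := rfl

theorem L_left (hact : GactStatement) (hf : Form i δ n c) (A : FI K) (γ : SLK K)
    (hγ : InG n A γ) : ∃ k : ℂ, ∀ g : SLK K, L hf A (γ * g) = L hf A g + k := by
  obtain ⟨k, hk⟩ := hf.modular A γ hγ
  refine ⟨k, fun g => ?_⟩
  have h1 := L_spec hf A (γ * g) 0
  have h2 : Tendsto (fun y : ℝ => HH i δ c A (actz (toC i (γ * g)) 0 y)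
      (acty (toC i (γ * g)) 0 y)) atTop (𝓝 (L hf A g + k)) := by
    refine ((L_spec hf A g 0).add_const k).congr' ?_
    filter_upwards [eventually_gt_atTop (0 : ℝ)] with y hy
    obtain ⟨-, -, h3, h4, -⟩ := hact (toC i γ) (toC i g) 0 y hy
    obtain ⟨-, h5, -⟩ := hact (toC i g) (toC i g) 0 y hy
    rw [toC_mul, h3, h4, hk _ _ h5]
  exact tendsto_nhds_unique h1 h2

theorem L_right (hact : GactStatement) (hf : Form i δ n c) (A : FI K) (g k : SLK K)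
    (hk : k 1 0 = 0) : L hf A (g * k) = L hf A g := by
  have hk' : (toC i k) 1 0 = 0 := by rw [toC_apply, hk, map_zero]
  obtain ⟨-, -, -, -, h5, -⟩ := hact (toC i k) (toC i k) 0 1 one_pos
  obtain ⟨b, t, ht, hbt⟩ := h5 hk'
  have h1 := L_spec hf A (g * k) 0
  have h2 : Tendsto (fun y : ℝ => HH i δ c A (actz (toC i (g * k)) 0 y)
      (acty (toC i (g * k)) 0 y)) atTop (𝓝 (L hf A g)) := by
    have h3 : Tendsto (fun y : ℝ => t * y) atTop atTop := tendsto_id.const_mul_atTop ht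
    refine ((L_spec hf A g b).comp h3).congr' ?_
    filter_upwards [eventually_gt_atTop (0 : ℝ)] with y hy
    obtain ⟨-, -, h3, h4, -⟩ := hact (toC i g) (toC i k) 0 y hy
    obtain ⟨h6, h7⟩ := hbt 0 y hy
    rw [toC_mul, h3, h4, h6, h7, mul_zero, zero_add]
    rfl
  exact tendsto_nhds_unique h1 h2

theorem det_eq (g : SLK K) : g 0 0 * g 1 1 - g 0 1 * g 1 0 = 1 := by
  have := g.det_coe
  rwa [Matrix.det_fin_two] at this

theorem inv00 (g : SLK K) : (g⁻¹) 0 0 = g 1 1 := by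
  have h : ((g⁻¹ : SLK K) : Matrix (Fin 2) (Fin 2) K) 0 0 = g 1 1 := by
    rw [Matrix.SpecialLinearGroup.coe_inv, Matrix.adjugate_fin_two]
    rfl
  exact h

theorem inv01 (g : SLK K) : (g⁻¹) 0 1 = - g 0 1 := by
  have h : ((g⁻¹ : SLK K) : Matrix (Fin 2) (Fin 2) K) 0 1 = - g 0 1 := by
    rw [Matrix.SpecialLinearGroup.coe_inv, Matrix.adjugate_fin_two]
    rfl
  exact h

theorem inv10 (g : SLK K) : (g⁻¹) 1 0 = - g 1 0 := by
  have h : ((g⁻¹ : SLK K) : Matrix (Fin 2) (Fin 2) K) 1 0 = - g 1 0 := by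
    rw [Matrix.SpecialLinearGroup.coe_inv, Matrix.adjugate_fin_two]
    rfl
  exact h

theorem inv11 (g : SLK K) : (g⁻¹) 1 1 = g 0 0 := by
  have h : ((g⁻¹ : SLK K) : Matrix (Fin 2) (Fin 2) K) 1 1 = g 0 0 := by
    rw [Matrix.SpecialLinearGroup.coe_inv, Matrix.adjugate_fin_two]
    rfl
  exact h

theorem mul_ap (g k : SLK K) (a b : Fin 2) : (g * k) a b = g a 0 * k 0 b + g a 1 * k 1 b := by
  simp [Matrix.SpecialLinearGroup.coe_mul, Matrix.mul_apply, Fin.sum_univ_two]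

/-- the limit depends only on the cusp -/
theorem L_col (hact : GactStatement) (hf : Form i δ n c) (A : FI K) (g g' : SLK K)
    (h : g 0 0 * g' 1 0 = g 1 0 * g' 0 0) : L hf A g' = L hf A g := by
  have h1 : (g⁻¹ * g') 1 0 = 0 := by
    rw [mul_ap, inv10, inv11]
    linear_combination h
  have h2 := L_right hact hf A g (g⁻¹ * g') h1
  rwa [mul_inv_cancel_left] at h2

/-! ### Fractional ideals -/

theorem mulmem {I J M : FI K} (h : I * J = M) {a b : K}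
    (ha : a ∈ (I : FractionalIdeal (𝓞 K)⁰ K)) (hb : b ∈ (J : FractionalIdeal (𝓞 K)⁰ K)) :
    a * b ∈ (M : FractionalIdeal (𝓞 K)⁰ K) := by
  rw [← h, Units.val_mul]
  exact FractionalIdeal.mul_mem_mul ha hb

theorem addmem {I : FractionalIdeal (𝓞 K)⁰ K} {a b : K} (ha : a ∈ I) (hb : b ∈ I) :
    a + b ∈ I := by
  rw [← FractionalIdeal.mem_coe] at *
  exact add_mem ha hb

theorem submem {I : FractionalIdeal (𝓞 K)⁰ K} {a b : K} (ha : a ∈ I) (hb : b ∈ I) :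
    a - b ∈ I := by
  rw [← FractionalIdeal.mem_coe] at *
  exact sub_mem ha hb

theorem negmem {I : FractionalIdeal (𝓞 K)⁰ K} {a : K} (ha : a ∈ I) : -a ∈ I := by
  rw [← FractionalIdeal.mem_coe] at *
  exact neg_mem ha

theorem natmem {I : FractionalIdeal (𝓞 K)⁰ K} {a : K} (m : ℕ) (ha : a ∈ I) :
    (m : K) * a ∈ I := by
  rw [← FractionalIdeal.mem_coe] at *
  have := nsmul_mem ha m
  rwa [nsmul_eq_mul] at this

/-- finite quotients -/
theorem fin_quot (I : FractionalIdeal (𝓞 K)⁰ K) (n : Ideal (𝓞 K)) (hn : n ≠ ⊥) :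
    ∃ (Q : Type) (_ : Finite Q) (φ : K → Q), ∀ a b : K, a ∈ I → b ∈ I → φ a = φ b →
      a - b ∈ (n : FractionalIdeal (𝓞 K)⁰ K) * I := by
  classical
  let M := (I : Submodule (𝓞 K) K)
  have hnoeth : IsNoetherian (𝓞 K) M := FractionalIdeal.isNoetherian I
  have hfg : (⊤ : Submodule (𝓞 K) M).FG := hnoeth.noetherian ⊤
  have hfin : Finite (𝓞 K ⧸ n) := Ideal.finiteQuotientOfFreeOfNeBot n hn
  have hfin2 : Finite (M ⧸ (⊤ : Submodule (𝓞 K) M)) := inferInstance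
  have hQ : Finite (M ⧸ (n • (⊤ : Submodule (𝓞 K) M))) := Submodule.finite_quotient_smul n hfg
  refine ⟨M ⧸ (n • (⊤ : Submodule (𝓞 K) M)), hQ,
    fun a => if h : a ∈ M then Submodule.Quotient.mk ⟨a, h⟩ else 0, ?_⟩
  intro a b ha hb h
  have ha' : a ∈ M := ha
  have hb' : b ∈ M := hb
  simp only [dif_pos ha', dif_pos hb'] at h
  rw [Submodule.Quotient.eq] at h
  have key : ∀ x : M, x ∈ n • (⊤ : Submodule (𝓞 K) M) →
      (x : K) ∈ (n : FractionalIdeal (𝓞 K)⁰ K) * I := by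
    intro x hx
    induction hx using Submodule.smul_induction_on' with
    | smul r hr y hy =>
      have e : ((r • y : M) : K) = (r : K) * (y : K) := by
        rw [Submodule.coe_smul, Algebra.smul_def]
      rw [e]
      exact FractionalIdeal.mul_mem_mul (FractionalIdeal.mem_coeIdeal_of_mem _ hr) y.2
    | add y hy z hz h1 h2 =>
      rw [Submodule.coe_add]
      exact addmem h1 h2
  exact key _ h

/-- representatives modulo `m` -/
theorem reps (T : FI K) (m : ℕ) (hm : 1 ≤ m) : ∃ R : Finset K,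
    ∀ q : K, q ∈ (T : FractionalIdeal (𝓞 K)⁰ K) → ∃ q0 ∈ R,
      ∃ τ : K, τ ∈ (T : FractionalIdeal (𝓞 K)⁰ K) ∧ q = q0 + m * τ := by
  classical
  have hm0 : ((m : ℕ) : 𝓞 K) ≠ 0 := by
    rw [Nat.cast_ne_zero]; omega
  have hn : Ideal.span {((m : ℕ) : 𝓞 K)} ≠ ⊥ := by
    rw [Ne, Ideal.span_singleton_eq_bot]; exact hm0
  obtain ⟨Q, hQ, φ, hφ⟩ := fin_quot (T : FractionalIdeal (𝓞 K)⁰ K)
    (Ideal.span {((m : ℕ) : 𝓞 K)}) hn
  let r : Q → K := fun x => if h : ∃ a : K, a ∈ (T : FractionalIdeal (𝓞 K)⁰ K) ∧ φ a = x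
    then h.choose else 0
  refine ⟨(Set.finite_range r).toFinset, fun q hq => ?_⟩
  have hex : ∃ a : K, a ∈ (T : FractionalIdeal (𝓞 K)⁰ K) ∧ φ a = φ q := ⟨q, hq, rfl⟩
  have hr : r (φ q) = hex.choose := dif_pos hex
  have h1 := hex.choose_spec
  rw [← hr] at h1
  refine ⟨r (φ q), ?_, ?_⟩
  · rw [Set.Finite.mem_toFinset]
    exact ⟨_, rfl⟩
  · have h2 := hφ q (r (φ q)) hq h1.1 h1.2.symm
    rw [FractionalIdeal.coeIdeal_span_singleton, FractionalIdeal.mem_singleton_mul] at h2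
    obtain ⟨τ, hτ, h3⟩ := h2
    refine ⟨τ, hτ, ?_⟩
    rw [map_natCast] at h3
    linear_combination h3

theorem finite_image_of_factor {α β Q : Type*} [Finite Q] (S : Set α) (φ : α → Q) (f : α → β)
    (h : ∀ a ∈ S, ∀ b ∈ S, φ a = φ b → f a = f b) : (f '' S).Finite := by
  classical
  let F : {x : Q // ∃ a ∈ S, φ a = x} → β := fun x => f x.2.choose
  refine (Set.finite_range F).subset ?_
  rintro _ ⟨a, ha, rfl⟩
  have hex : ∃ b ∈ S, φ b = φ a := ⟨a, ha, rfl⟩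
  refine ⟨⟨φ a, hex⟩, ?_⟩
  exact h _ hex.choose_spec.1 _ ha hex.choose_spec.2

/-- the norm of a fractional ideal -/
noncomputable def Nm (I : FI K) : ℝ :=
  ((FractionalIdeal.absNorm (I : FractionalIdeal (𝓞 K)⁰ K) : ℚ) : ℝ)

theorem Nm_mul (I J : FI K) : Nm (I * J) = Nm I * Nm J := by
  unfold Nm
  rw [Units.val_mul, map_mul]
  push_cast
  rfl

theorem Nm_pos (I : FI K) : 0 < Nm I := by
  unfold Nm
  have h1 := FractionalIdeal.absNorm_nonneg (I : FractionalIdeal (𝓞 K)⁰ K)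
  have h2 : FractionalIdeal.absNorm (I : FractionalIdeal (𝓞 K)⁰ K) ≠ 0 := by
    rw [Ne, FractionalIdeal.absNorm_eq_zero_iff]
    exact I.ne_zero
  have h3 := lt_of_le_of_ne h1 h2.symm
  exact_mod_cast h3

theorem Nm_one : Nm (1 : FI K) = 1 := by
  unfold Nm
  rw [Units.val_one, FractionalIdeal.absNorm_one]
  norm_num

theorem Nm_inv (I : FI K) : Nm I * Nm I⁻¹ = 1 := by
  rw [← Nm_mul, mul_inv_cancel, Nm_one]

/-- an integral ideal has a natural norm -/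
theorem Nm_nat (I : FI K) (h : (I : FractionalIdeal (𝓞 K)⁰ K) ≤ 1) :
    ∃ k : ℕ, 1 ≤ k ∧ Nm I = k := by
  obtain ⟨J, hJ⟩ := FractionalIdeal.le_one_iff_exists_coeIdeal.1 h
  have h1 : FractionalIdeal.absNorm (I : FractionalIdeal (𝓞 K)⁰ K) = Ideal.absNorm J := by
    rw [← hJ, FractionalIdeal.coeIdeal_absNorm]
  refine ⟨Ideal.absNorm J, ?_, ?_⟩
  · have h2 := Nm_pos I
    unfold Nm at h2
    rw [h1] at h2
    have h3 : 0 < Ideal.absNorm J := by exact_mod_cast h2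
    omega
  · unfold Nm
    rw [h1]
    push_cast
    rfl

theorem mul_inv_le (I J : FI K) (h : (I : FractionalIdeal (𝓞 K)⁰ K) ≤ J) :
    ((I * J⁻¹ : FI K) : FractionalIdeal (𝓞 K)⁰ K) ≤ 1 := by
  rw [Units.val_mul]
  calc (I : FractionalIdeal (𝓞 K)⁰ K) * ((J⁻¹ : FI K) : FractionalIdeal (𝓞 K)⁰ K)
      ≤ (J : FractionalIdeal (𝓞 K)⁰ K) * ((J⁻¹ : FI K) : FractionalIdeal (𝓞 K)⁰ K) :=
        mul_le_mul_left h _
    _ = 1 := Units.mul_inv J

theorem Nm_le (I J : FI K) (h : (I : FractionalIdeal (𝓞 K)⁰ K) ≤ J) : Nm J ≤ Nm I := by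
  obtain ⟨k, hk, h1⟩ := Nm_nat _ (mul_inv_le I J h)
  rw [Nm_mul] at h1
  have h2 := Nm_inv J
  have h3 := Nm_pos J
  have h4 : (1 : ℝ) ≤ k := by exact_mod_cast hk
  have h5 := Nm_pos J⁻¹
  have h6 := Nm_pos I
  rw [← h1] at h4
  nlinarith [mul_le_mul_of_nonneg_right h4 h3.le]

/-- principal ideals -/
noncomputable def prin (a : K) (ha : a ≠ 0) : FI K :=
  Units.mk0 (FractionalIdeal.spanSingleton (𝓞 K)⁰ a) (by
    rwa [Ne, FractionalIdeal.spanSingleton_eq_zero_iff])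

theorem Nm_prin (hN : ∀ a : K, (‖i a‖ ^ 2 : ℝ) = |(Algebra.norm ℚ a : ℝ)|) (a : K) (ha : a ≠ 0) :
    Nm (prin a ha) = ‖i a‖ ^ 2 := by
  unfold Nm prin
  rw [Units.val_mk0, FractionalIdeal.absNorm_span_singleton, hN]
  push_cast
  rfl

theorem nat_val (hN : ∀ a : K, (‖i a‖ ^ 2 : ℝ) = |(Algebra.norm ℚ a : ℝ)|) (I : FI K) (a : K)
    (ha : a ∈ (I : FractionalIdeal (𝓞 K)⁰ K)) : ∃ k : ℕ, ‖i a‖ ^ 2 = k * Nm I := by
  by_cases h0 : a = 0
  · exact ⟨0, by simp [h0]⟩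
  · have h1 : ((prin a h0 : FI K) : FractionalIdeal (𝓞 K)⁰ K) ≤ I := by
      unfold prin
      rw [Units.val_mk0, FractionalIdeal.spanSingleton_le_iff_mem]
      exact ha
    obtain ⟨k, hk, h2⟩ := Nm_nat _ (mul_inv_le _ I h1)
    refine ⟨k, ?_⟩
    rw [← h2, Nm_mul, Nm_prin hN, mul_assoc, mul_comm (Nm I⁻¹), Nm_inv, mul_one]

/-! ### The classes -/

/-- the matrices of type `d` -/
def Gd (A d : FI K) (g : SLK K) : Prop :=
  g 0 0 ∈ (d : FractionalIdeal (𝓞 K)⁰ K) ∧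
  g 1 0 ∈ ((A * d : FI K) : FractionalIdeal (𝓞 K)⁰ K) ∧
  g 0 1 ∈ (((A * d)⁻¹ : FI K) : FractionalIdeal (𝓞 K)⁰ K) ∧
  g 1 1 ∈ ((d⁻¹ : FI K) : FractionalIdeal (𝓞 K)⁰ K)

/-- the difference `l_(g t) - l_g` -/
noncomputable def dif (hf : Form i δ n c) (A : FI K) (t g : SLK K) : ℂ :=
  L hf A (g * t) - L hf A g

theorem dif_congr (hact : GactStatement) (hf : Form i δ n c) (A : FI K) (t γ g g' : SLK K)
    (hγ : γ = g' * g⁻¹) (h : InG n A γ) : dif hf A t g = dif hf A t g' := by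
  obtain ⟨k, hk⟩ := L_left hact hf A γ h
  have e1 : g' * t = γ * (g * t) := by rw [hγ]; group
  have e2 : g' = γ * g := by rw [hγ]; group
  have e3 : L hf A g' = L hf A g + k := by
    conv_lhs => rw [e2]
    exact hk g
  rw [dif, dif, e1, hk, e3]
  ring

theorem inG_of (hn : n ≠ ⊥) (A d : FI K) (g g' : SLK K) (hg : Gd A d g) (hg' : Gd A d g')
    (h0 : g' 1 0 - g 1 0 ∈ (n : FractionalIdeal (𝓞 K)⁰ K) * ((A * d : FI K) :
      FractionalIdeal (𝓞 K)⁰ K))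
    (h1 : g' 1 1 - g 1 1 ∈ (n : FractionalIdeal (𝓞 K)⁰ K) * ((d⁻¹ : FI K) :
      FractionalIdeal (𝓞 K)⁰ K)) : InG n A (g' * g⁻¹) := by
  set nU : FI K := Units.mk0 (n : FractionalIdeal (𝓞 K)⁰ K)
    (by rwa [Ne, FractionalIdeal.coeIdeal_eq_zero]) with hnU
  have hnv : (nU : FractionalIdeal (𝓞 K)⁰ K) = (n : FractionalIdeal (𝓞 K)⁰ K) := rfl
  have h0' : g' 1 0 - g 1 0 ∈ ((nU * (A * d) : FI K) : FractionalIdeal (𝓞 K)⁰ K) := h0
  have h1' : g' 1 1 - g 1 1 ∈ ((nU * d⁻¹ : FI K) : FractionalIdeal (𝓞 K)⁰ K) := h1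
  obtain ⟨a1, a2, a3, a4⟩ := hg
  obtain ⟨b1, b2, b3, b4⟩ := hg'
  have hd1 : d * d⁻¹ = 1 := mul_inv_cancel d
  have hd2 : (A * d)⁻¹ * (A * d) = 1 := inv_mul_cancel _
  have hd3 : d * (A * d)⁻¹ = A⁻¹ := by rw [mul_inv, mul_comm A⁻¹, mul_inv_cancel_left]
  have hd4 : (A * d)⁻¹ * d = A⁻¹ := by rw [mul_comm, hd3]
  have hd5 : (A * d) * (A * d)⁻¹ = 1 := mul_inv_cancel _
  have hd6 : d⁻¹ * d = 1 := inv_mul_cancel _
  have hd7 : (nU * (A * d)) * d⁻¹ = nU * A := by group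
  have hd8 : (nU * d⁻¹) * (A * d) = nU * A := by
    rw [mul_assoc, mul_comm A d, inv_mul_cancel_left]
  refine ⟨?_, ?_, ?_, ?_⟩
  · rw [mul_ap, inv00, inv10]
    have e : g' 0 0 * g 1 1 + g' 0 1 * -g 1 0 = g' 0 0 * g 1 1 - g' 0 1 * g 1 0 := by ring
    rw [e]
    exact submem (mulmem hd1 b1 a4) (mulmem hd2 b3 a2)
  · rw [mul_ap, inv01, inv11]
    have e : g' 0 0 * -g 0 1 + g' 0 1 * g 0 0 = g' 0 1 * g 0 0 - g' 0 0 * g 0 1 := by ring
    rw [e]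
    exact submem (mulmem hd4 b3 a1) (mulmem hd3 b1 a3)
  · rw [mul_ap, inv00, inv10]
    have e : g' 1 0 * g 1 1 + g' 1 1 * -g 1 0 =
        (g' 1 0 - g 1 0) * g 1 1 - (g' 1 1 - g 1 1) * g 1 0 := by ring
    rw [e]
    have h2 := mulmem hd7 h0' a4
    have h3 := mulmem hd8 h1' a2
    rw [Units.val_mul, hnv] at h2 h3
    exact submem h2 h3
  · rw [mul_ap, inv01, inv11]
    have e : g' 1 0 * -g 0 1 + g' 1 1 * g 0 0 = g' 1 1 * g 0 0 - g' 1 0 * g 0 1 := by ring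
    rw [e]
    exact submem (mulmem hd6 b4 a1) (mulmem hd5 b2 a3)

theorem dif_finite (hact : GactStatement) (hn : n ≠ ⊥) (hf : Form i δ n c) (A d : FI K)
    (t : SLK K) : (dif hf A t '' {g | Gd A d g}).Finite := by
  obtain ⟨Q1, hQ1, φ1, h1⟩ := fin_quot ((A * d : FI K) : FractionalIdeal (𝓞 K)⁰ K) n hn
  obtain ⟨Q2, hQ2, φ2, h2⟩ := fin_quot ((d⁻¹ : FI K) : FractionalIdeal (𝓞 K)⁰ K) n hn
  refine finite_image_of_factor (Q := Q1 × Q2) _ (fun g => (φ1 (g 1 0), φ2 (g 1 1))) _ ?_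
  intro g hg g' hg' h
  have e1 : φ1 (g 1 0) = φ1 (g' 1 0) := congrArg Prod.fst h
  have e2 : φ2 (g 1 1) = φ2 (g' 1 1) := congrArg Prod.snd h
  exact dif_congr hact hf A t (g' * g⁻¹) g g' rfl
    (inG_of hn A d g g' hg hg' (h1 _ _ hg'.2.1 hg.2.1 e1.symm) (h2 _ _ hg'.2.2.2 hg.2.2.2 e2.symm))

/-- translation by `τ` -/
def T (τ : K) : SLK K := ⟨!![1, τ; 0, 1], by simp [Matrix.det_fin_two_of]⟩

theorem T00 (τ : K) : (T τ) 0 0 = 1 := rfl
theorem T01 (τ : K) : (T τ) 0 1 = τ := rfl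
theorem T10 (τ : K) : (T τ) 1 0 = 0 := rfl
theorem T11 (τ : K) : (T τ) 1 1 = 1 := rfl

/-- a matrix which maps infinity to `r` -/
def tt (r : K) : SLK K := ⟨!![r, -1; 1, 0], by simp [Matrix.det_fin_two_of]⟩

theorem tt00 (r : K) : (tt r) 0 0 = r := rfl
theorem tt10 (r : K) : (tt r) 1 0 = 1 := rfl

/-- one step of the descent -/
theorem step (hact : GactStatement) (hN : ∀ a : K, (‖i a‖ ^ 2 : ℝ) = |(Algebra.norm ℚ a : ℝ)|)
    (hf : Form i δ n c) (A d : FI K) (Δ : Finset (FI K))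
    (hΔ : ∀ x y : K, (x ≠ 0 ∨ y ≠ 0) → ∃ d ∈ Δ, ∃ g : SLK K, ∃ s : K, s ≠ 0 ∧
      g 0 0 = s * x ∧ g 1 0 = s * y ∧ Gd A d g)
    (ε : ℝ) (hε : 0 < ε) (hε2 : ε ^ 2 * (Nm A * Nm d * Nm d) ≤ 1)
    (g : SLK K) (hg : Gd A d g) (hg0 : g 1 0 ≠ 0) (m : ℕ) (hm : 1 ≤ m) (q q0 τ : K)
    (hq : q ∈ (((A * d ^ 2)⁻¹ : FI K) : FractionalIdeal (𝓞 K)⁰ K))
    (hτ : τ ∈ (((A * d ^ 2)⁻¹ : FI K) : FractionalIdeal (𝓞 K)⁰ K))
    (hq1 : q = q0 + m * τ)
    (hq2 : ‖(m : ℂ) * (-(i (g 1 1)) / i (g 1 0)) - i q‖ < ε) (k : ℕ)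
    (hk : ‖i (g 1 0)‖ ^ 2 = k * (Nm A * Nm d)) :
    ∃ d' ∈ Δ, ∃ g2 : SLK K, Gd A d' g2 ∧ ∃ k' : ℕ, k' < k ∧
      ‖i (g2 1 0)‖ ^ 2 = k' * (Nm A * Nm d') ∧
      ∃ g3 : SLK K, Gd A d g3 ∧ L hf A g = L hf A g2 - dif hf A (tt (q0 / m)) g3 := by
  have hm0 : (m : K) ≠ 0 := by
    rw [Nat.cast_ne_zero]; omega
  set g3 := g * T τ with hg3
  set g1 := g3 * tt (q0 / m) with hg1
  have e30 : g3 0 0 = g 0 0 := by rw [hg3, mul_ap, T00, T10]; ring
  have e31 : g3 0 1 = g 0 0 * τ + g 0 1 := by rw [hg3, mul_ap, T01, T11]; ring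
  have e32 : g3 1 0 = g 1 0 := by rw [hg3, mul_ap, T00, T10]; ring
  have e33 : g3 1 1 = g 1 0 * τ + g 1 1 := by rw [hg3, mul_ap, T01, T11]; ring
  have e10 : (m : K) * g1 0 0 = g 0 0 * q + g 0 1 * m := by
    rw [hg1, mul_ap, tt00, tt10, e30, e31, hq1]
    field_simp
    ring
  have e11 : (m : K) * g1 1 0 = g 1 0 * q + g 1 1 * m := by
    rw [hg1, mul_ap, tt00, tt10, e32, e33, hq1]
    field_simp
    ring
  obtain ⟨a1, a2, a3, a4⟩ := hg
  have hu1 : d * (A * d ^ 2)⁻¹ = (A * d)⁻¹ := by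
    rw [mul_inv, mul_inv, pow_two, mul_inv]
    rw [mul_left_comm, mul_inv_cancel_left]
  have hu2 : (A * d) * (A * d ^ 2)⁻¹ = d⁻¹ := by
    rw [mul_inv, pow_two, mul_inv]
    rw [mul_mul_mul_comm, mul_inv_cancel, one_mul, mul_inv_cancel_left]
  have hg3G : Gd A d g3 := by
    refine ⟨by rw [e30]; exact a1, by rw [e32]; exact a2, ?_, ?_⟩
    · rw [e31]
      exact addmem (mulmem hu1 a1 hτ) a3
    · rw [e33]
      exact addmem (mulmem hu2 a2 hτ) a4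
  have hne : g1 0 0 ≠ 0 ∨ g1 1 0 ≠ 0 := by
    by_contra hcon
    push Not at hcon
    have := det_eq g1
    rw [hcon.1, hcon.2] at this
    simp at this
  obtain ⟨d', hd', g2, s, hs, s0, s1, hg2⟩ := hΔ _ _ hne
  obtain ⟨b1, b2, b3, b4⟩ := hg2
  have hL : L hf A g2 = L hf A g1 := by
    apply L_col hact
    rw [s0, s1]
    ring
  have hLg : L hf A g = L hf A g2 - dif hf A (tt (q0 / m)) g3 := by
    rw [hL, dif, L_right hact hf A g (T τ) (T10 τ)]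
    show L hf A g = L hf A g1 - (L hf A g1 - L hf A g)
    ring
  -- the height
  have hms : (m : K) / s ≠ 0 := div_ne_zero hm0 hs
  have hincl : ((prin ((m : K) / s) hms * d' : FI K) : FractionalIdeal (𝓞 K)⁰ K) ≤
      (((A * d)⁻¹ : FI K) : FractionalIdeal (𝓞 K)⁰ K) := by
    intro x hx
    rw [Units.val_mul] at hx
    unfold prin at hx
    rw [Units.val_mk0, FractionalIdeal.mem_singleton_mul] at hx
    obtain ⟨w, hw, rfl⟩ := hx
    have hdet := det_eq g2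
    have e : (m : K) / s * w = (m * g1 0 0) * (g2 1 1 * w) - (m * g1 1 0) * (g2 0 1 * w) := by
      have h1 : (m : K) / s * w = (m : K) / s * w * (g2 0 0 * g2 1 1 - g2 0 1 * g2 1 0) := by
        rw [hdet, mul_one]
      rw [h1, s0, s1]
      field_simp
    rw [e, e10, e11]
    have hv1 : d'⁻¹ * d' = 1 := inv_mul_cancel _
    have hv2 : (A * d')⁻¹ * d' = A⁻¹ := by
      rw [mul_inv, mul_assoc, inv_mul_cancel, mul_one]
    have h1 := mulmem hv1 b4 hw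
    have h2 := mulmem hv2 b3 hw
    have h3 : g 0 0 * q + g 0 1 * m ∈ (((A * d)⁻¹ : FI K) : FractionalIdeal (𝓞 K)⁰ K) := by
      refine addmem (mulmem hu1 a1 hq) ?_
      rw [mul_comm (g 0 1) (m : K)]
      exact natmem m a3
    have h4 : g 1 0 * q + g 1 1 * m ∈ ((d⁻¹ : FI K) : FractionalIdeal (𝓞 K)⁰ K) := by
      refine addmem (mulmem hu2 a2 hq) ?_
      rw [mul_comm (g 1 1) (m : K)]
      exact natmem m a4
    refine submem (mulmem (mul_one _) h3 h1) (mulmem ?_ h4 h2)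
    rw [mul_inv, mul_comm]
  have hNle := Nm_le _ _ hincl
  rw [Nm_mul, Nm_prin hN] at hNle
  have hAd : Nm (A * d)⁻¹ * (Nm A * Nm d) = 1 := by
    rw [← Nm_mul, mul_comm, Nm_inv]
  have hpA := Nm_pos A
  have hpd := Nm_pos d
  have hpd' := Nm_pos d'
  have hH1 : 1 ≤ ‖i ((m : K) / s)‖ ^ 2 * Nm d' * (Nm A * Nm d) := by
    rw [← hAd]
    exact mul_le_mul_of_nonneg_right hNle (mul_pos hpA hpd).le
  obtain ⟨k', hk'⟩ := nat_val hN (A * d') (g2 1 0) b2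
  rw [Nm_mul] at hk'
  refine ⟨d', hd', g2, ⟨b1, b2, b3, b4⟩, k', ?_, hk', g3, hg3G, hLg⟩
  have hig : i (g 1 0) ≠ 0 := by
    rw [Ne, map_eq_zero]; exact hg0
  -- the new lower left entry
  have hnew : ‖i ((m : K) * g1 1 0)‖ < ‖i (g 1 0)‖ * ε := by
    rw [e11]
    have e : i (g 1 0 * q + g 1 1 * m) =
        -(i (g 1 0)) * ((m : ℂ) * (-(i (g 1 1)) / i (g 1 0)) - i q) := by
      rw [map_add, map_mul, map_mul, map_natCast]
      field_simp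
      ring
    rw [e, norm_mul, norm_neg]
    exact mul_lt_mul_of_pos_left hq2 (norm_pos_iff.2 hig)
  have hms1 : ‖i ((m : K) / s)‖ * ‖i (g2 1 0)‖ = ‖i ((m : K) * g1 1 0)‖ := by
    rw [← norm_mul, ← map_mul, s1]
    congr 2
    field_simp
  have hx0 : 0 < ‖i ((m : K) / s)‖ := by
    rw [norm_pos_iff, Ne, map_eq_zero]
    exact hms
  have hy0 : 0 < ‖i (g 1 0)‖ := norm_pos_iff.2 hig
  set X := ‖i ((m : K) / s)‖ with hX
  set Y := ‖i (g 1 0)‖ with hY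
  set Z := ‖i (g2 1 0)‖ with hZ
  have hZ0 : 0 ≤ Z := norm_nonneg _
  have h1 : (X * Z) ^ 2 < (Y * ε) ^ 2 := by
    apply pow_lt_pow_left₀ _ (mul_nonneg hx0.le hZ0) two_ne_zero
    rw [hms1]
    exact hnew
  have h2 : Z ^ 2 ≤ (X * Z) ^ 2 * (Nm d' * (Nm A * Nm d)) := by
    calc Z ^ 2 = 1 * Z ^ 2 := by ring
      _ ≤ (X ^ 2 * Nm d' * (Nm A * Nm d)) * Z ^ 2 :=
        mul_le_mul_of_nonneg_right hH1 (sq_nonneg _)
      _ = (X * Z) ^ 2 * (Nm d' * (Nm A * Nm d)) := by ring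
  have h3 : (X * Z) ^ 2 * (Nm d' * (Nm A * Nm d)) < (Y * ε) ^ 2 * (Nm d' * (Nm A * Nm d)) :=
    mul_lt_mul_of_pos_right h1 (by positivity)
  have h4 : (Y * ε) ^ 2 * (Nm d' * (Nm A * Nm d)) * Nm d ≤ Y ^ 2 * Nm d' := by
    calc (Y * ε) ^ 2 * (Nm d' * (Nm A * Nm d)) * Nm d
        = (Y ^ 2 * Nm d') * (ε ^ 2 * (Nm A * Nm d * Nm d)) := by ring
      _ ≤ (Y ^ 2 * Nm d') * 1 := mul_le_mul_of_nonneg_left hε2 (by positivity)
      _ = Y ^ 2 * Nm d' := mul_one _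
  have h5 : Z ^ 2 * Nm d < Y ^ 2 * Nm d' := by
    calc Z ^ 2 * Nm d < (Y * ε) ^ 2 * (Nm d' * (Nm A * Nm d)) * Nm d :=
          mul_lt_mul_of_pos_right (lt_of_le_of_lt h2 h3) hpd
      _ ≤ Y ^ 2 * Nm d' := h4
  rw [hk, hk'] at h5
  have h6 : (k' : ℝ) * (Nm A * Nm d' * Nm d) < k * (Nm A * Nm d' * Nm d) := by
    calc (k' : ℝ) * (Nm A * Nm d' * Nm d) = k' * (Nm A * Nm d') * Nm d := by ring
      _ < k * (Nm A * Nm d) * Nm d' := h5
      _ = k * (Nm A * Nm d' * Nm d) := by ring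
  have h7 : (k' : ℝ) < k := lt_of_mul_lt_mul_right h6 (by positivity)
  exact_mod_cast h7

/-- row GFG -/
theorem gfg_proof (hact : GactStatement) (hlat : GlatStatement) (hrep : GrepStatement) :
    GfgStatement := by
  classical
  intro K _ _ i δ hK n c hn hf A
  obtain ⟨Δ, hΔ⟩ := hrep K A
  have hΔ' : ∀ x y : K, (x ≠ 0 ∨ y ≠ 0) → ∃ d ∈ Δ, ∃ g : SLK K, ∃ s : K, s ≠ 0 ∧
      g 0 0 = s * x ∧ g 1 0 = s * y ∧ Gd A d g := by
    intro x y h
    obtain ⟨d, hd, g, s, hs, h0, h1, h2, h3, h4, h5⟩ := hΔ x y h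
    exact ⟨d, hd, g, s, hs, h0, h1, h2, h3, h4, h5⟩
  have hN : ∀ a : K, (‖i a‖ ^ 2 : ℝ) = |(Algebra.norm ℚ a : ℝ)| := (hlat K i δ hK A).2.1
  -- the bounds for the denominators
  have hpos : ∀ d : FI K, 0 < Nm A * Nm d * Nm d := fun d =>
    mul_pos (mul_pos (Nm_pos A) (Nm_pos d)) (Nm_pos d)
  let ε : FI K → ℝ := fun d => (1 + Nm A * Nm d * Nm d)⁻¹
  have hε : ∀ d, 0 < ε d := fun d => inv_pos.2 (by linarith [hpos d])
  have hε2 : ∀ d, ε d ^ 2 * (Nm A * Nm d * Nm d) ≤ 1 := by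
    intro d
    show ((1 + Nm A * Nm d * Nm d)⁻¹) ^ 2 * (Nm A * Nm d * Nm d) ≤ 1
    have h := hpos d
    rw [inv_pow, inv_mul_eq_div, div_le_one (by positivity)]
    nlinarith
  have happ : ∀ d : FI K, ∃ N : ℕ, ∀ z : ℂ, ∃ m : ℕ, 1 ≤ m ∧ m ≤ N ∧
      ∃ q : K, q ∈ (((A * d ^ 2)⁻¹ : FI K) : FractionalIdeal (𝓞 K)⁰ K) ∧
        ‖(m : ℂ) * z - i q‖ < ε d := fun d =>
    (hlat K i δ hK (A * d ^ 2)⁻¹).2.2.2.2 (ε d) (hε d)
  choose N hNd using happ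
  have hR : ∀ (d : FI K) (m : ℕ), ∃ R : Finset K, 1 ≤ m →
      ∀ q : K, q ∈ (((A * d ^ 2)⁻¹ : FI K) : FractionalIdeal (𝓞 K)⁰ K) → ∃ q0 ∈ R,
      ∃ τ : K, τ ∈ (((A * d ^ 2)⁻¹ : FI K) : FractionalIdeal (𝓞 K)⁰ K) ∧ q = q0 + m * τ := by
    intro d m
    by_cases hm : 1 ≤ m
    · obtain ⟨R, hR⟩ := reps (A * d ^ 2)⁻¹ m hm
      exact ⟨R, fun _ => hR⟩
    · exact ⟨∅, fun h => absurd h hm⟩
  choose R hRs using hR
  have hV : (insert (L hf A 1) (⋃ d ∈ Δ, ⋃ m ∈ Finset.Icc 1 (N d), ⋃ q0 ∈ R d m,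
      dif hf A (tt (q0 / m)) '' {g | Gd A d g})).Finite := by
    refine Set.Finite.insert _ ?_
    refine Set.Finite.biUnion (Finset.finite_toSet _) fun d _ => ?_
    refine Set.Finite.biUnion (Finset.finite_toSet _) fun m _ => ?_
    refine Set.Finite.biUnion (Finset.finite_toSet _) fun q0 _ => ?_
    exact dif_finite hact hn hf A d _
  refine ⟨hV.toFinset, ?_⟩
  rw [Set.Finite.coe_toFinset]
  set V := (insert (L hf A 1) (⋃ d ∈ Δ, ⋃ m ∈ Finset.Icc 1 (N d), ⋃ q0 ∈ R d m,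
      dif hf A (tt (q0 / m)) '' {g | Gd A d g})) with hVdef
  have main : ∀ k : ℕ, ∀ d ∈ Δ, ∀ g : SLK K, Gd A d g →
      ‖i (g 1 0)‖ ^ 2 = k * (Nm A * Nm d) → L hf A g ∈ AddSubgroup.closure V := by
    intro k
    induction k using Nat.strong_induction_on with
    | _ k ih =>
      intro d hd g hg hk
      by_cases hg0 : g 1 0 = 0
      · have h1 : L hf A g = L hf A 1 := by
          have := L_right hact hf A 1 g hg0
          rwa [one_mul] at this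
        rw [h1]
        exact AddSubgroup.subset_closure (Set.mem_insert _ _)
      · obtain ⟨m, hm1, hmN, q, hqT, hq⟩ := hNd d (-(i (g 1 1)) / i (g 1 0))
        obtain ⟨q0, hq0, τ, hτ, hqq⟩ := hRs d m hm1 q hqT
        obtain ⟨d', hd', g2, hg2, k', hk', hk2, g3, hg3, hL⟩ :=
          step hact hN hf A d Δ hΔ' (ε d) (hε d) (hε2 d) g hg hg0 m hm1 q q0 τ hqT hτ hqq hq k hk
        rw [hL]
        refine sub_mem (ih k' hk' d' hd' g2 hg2 hk2) (AddSubgroup.subset_closure ?_)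
        refine Set.mem_insert_of_mem _ ?_
        simp only [Set.mem_iUnion]
        exact ⟨d, hd, m, Finset.mem_Icc.2 ⟨hm1, hmN⟩, q0, hq0, g3, hg3, rfl⟩
  intro g l hl
  have hlL : l = L hf A g := tendsto_nhds_unique (hl 0) (L_spec hf A g 0)
  have hne : g 0 0 ≠ 0 ∨ g 1 0 ≠ 0 := by
    by_contra hcon
    push Not at hcon
    have := det_eq g
    rw [hcon.1, hcon.2] at this
    simp at this
  obtain ⟨d, hd, g', s, hs, h0, h1, hg'⟩ := hΔ' _ _ hne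
  have hLL : L hf A g' = L hf A g := by
    apply L_col hact
    rw [h0, h1]
    ring
  obtain ⟨k, hk⟩ := nat_val hN (A * d) (g' 1 0) hg'.2.1
  rw [Nm_mul] at hk
  rw [hlL, ← hLL]
  exact main k d hd g' hg' hk

end Pool.Agent.Lib.MP_50bb2e_nt.Imq.Gfg
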