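import Pool.Agent.Lib.MP_50bb2e_nt.Bia.Iface

/-!
MP_50bb2e_nt, board IMQ: integrality (boundedness at 2) of the central partial L-values of a
weight 2 cuspidal eigenform over an arbitrary imaginary quadratic field. Definitions and
statements. Paper: Imq/Paper.md
-/

namespace Pool.Agent.Lib.MP_50bb2e_nt.Imq

open Complex MeasureTheory Filter Topology NumberField
open scoped ComplexConjugate nonZeroDivisors
open Pool.Agent.Lib.MP_50bb2e_nt.Bia (bes ee kap)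

noncomputable section

/-! ### The action of `SL_2(C)` on hyperbolic 3-space -/

/-- `SL_2(ℂ)` -/
abbrev SLC := Matrix.SpecialLinearGroup (Fin 2) ℂ

/-- the denominator of the action -/
def den (g : SLC) (z : ℂ) (y : ℝ) : ℝ := ‖g 1 0 * z + g 1 1‖ ^ 2 + ‖g 1 0‖ ^ 2 * y ^ 2

/-- the first coordinate of `g (z, y)` -/
def actz (g : SLC) (z : ℂ) (y : ℝ) : ℂ :=
  ((g 0 0 * z + g 0 1) * conj (g 1 0 * z + g 1 1) + g 0 0 * conj (g 1 0) * (y : ℂ) ^ 2) /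
    (den g z y : ℂ)

/-- the second coordinate of `g (z, y)` -/
def acty (g : SLC) (z : ℂ) (y : ℝ) : ℝ := y / den g z y

/-! ### Forms -/

variable (K : Type) [Field K] [NumberField K]

/-- non-zero fractional ideals -/
abbrev FI := (FractionalIdeal (𝓞 K)⁰ K)ˣ

variable {K}

open Classical in
/-- the value at the fractional ideal `J` of the function `c` on ideals (zero if `J` is not
integral) -/
def cF (c : Ideal (𝓞 K) → ℂ) (J : FractionalIdeal (𝓞 K)⁰ K) : ℂ :=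
  if h : ∃ I : Ideal (𝓞 K), (I : FractionalIdeal (𝓞 K)⁰ K) = J then c h.choose else 0

open Classical in
/-- The primitive, on the component of the fractional ideal `A`, of the harmonic form attached to
the coefficients `c`: the sum over non-zero `a ∈ A` of
`c(a A^(-1)) N(a)^(-1) bes(κ |a| y) ee(a z)`. -/
def HH (i : K →+* ℂ) (δ : ℂ) (c : Ideal (𝓞 K) → ℂ) (A : FI K) (z : ℂ) (y : ℝ) : ℂ :=
  ∑' a : K, if a = 0 then 0 else
    cF c (FractionalIdeal.spanSingleton (𝓞 K)⁰ a * ((A⁻¹ : FI K) : FractionalIdeal (𝓞 K)⁰ K)) /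
      (‖i a‖ : ℂ) ^ 2 * (bes (kap δ * ‖i a‖ * y) : ℂ) * ee δ (i a * z)

/-- `SL_2(K)` -/
abbrev SLK (K : Type) [Field K] := Matrix.SpecialLinearGroup (Fin 2) K

/-- the matrix over `ℂ` -/
def toC (i : K →+* ℂ) (g : SLK K) : SLC := Matrix.SpecialLinearGroup.map i g

/-- membership in the group of the component `A` at level `n`: the entries are in
`O, A^(-1); n A, O` -/
def InG (n : Ideal (𝓞 K)) (A : FI K) (g : SLK K) : Prop :=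
  g 0 0 ∈ (1 : FractionalIdeal (𝓞 K)⁰ K) ∧
  g 0 1 ∈ ((A⁻¹ : FI K) : FractionalIdeal (𝓞 K)⁰ K) ∧
  g 1 0 ∈ (n : FractionalIdeal (𝓞 K)⁰ K) * (A : FractionalIdeal (𝓞 K)⁰ K) ∧
  g 1 1 ∈ (1 : FractionalIdeal (𝓞 K)⁰ K)

/-- `c` is the family of coefficients of a normalized weight 2 cuspidal eigenform of level `n`
and trivial character over the imaginary quadratic field `K`. -/
structure Form (i : K →+* ℂ) (δ : ℂ) (n : Ideal (𝓞 K)) (c : Ideal (𝓞 K) → ℂ) : Prop where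
  one : c ⊤ = 1
  growth : ∃ C : ℝ, ∃ m : ℕ, ∀ I : Ideal (𝓞 K), I ≠ ⊥ → ‖c I‖ ≤ C * (Ideal.absNorm I : ℝ) ^ m
  modular : ∀ A : FI K, ∀ g : SLK K, InG n A g → ∃ k : ℂ, ∀ z : ℂ, ∀ y : ℝ, 0 < y →
    HH i δ c A (actz (toC i g) z y) (acty (toC i g) z y) = HH i δ c A z y + k
  cusp : ∀ A : FI K, ∀ g : SLK K, ∃ l : ℂ, ∀ z : ℂ,
    Tendsto (fun y : ℝ => HH i δ c A (actz (toC i g) z y) (acty (toC i g) z y)) atTop (𝓝 l)
  hecke : ∀ v : Ideal (𝓞 K), v.IsPrime → v ≠ ⊥ → ¬ n ≤ v → ∀ I : Ideal (𝓞 K), ¬ I ≤ v →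
    c (v * I) = c v * c I
  hecke' : ∀ v : Ideal (𝓞 K), v.IsPrime → v ≠ ⊥ → ¬ n ≤ v → ∀ I : Ideal (𝓞 K), I ≠ ⊥ →
    c (v * (v * I)) + (Ideal.absNorm v : ℂ) * c I = c v * c (v * I)

/-- `K` is an imaginary quadratic field with the embedding `i` and `δ` a square root of its
discriminant. -/
def ImQ (i : K →+* ℂ) (δ : ℂ) : Prop :=
  Module.finrank ℚ K = 2 ∧ (∃ x : K, (i x).im ≠ 0) ∧ δ ^ 2 = ((NumberField.discr K : ℤ) : ℂ)

/-- The Dirichlet series `∑ e(I) N(I)^(-s)` over the ideals has an analytic continuation to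
`Re s > 1`, which tends to `l` as `s` tends to `1` along the reals. -/
def CValI (e : Ideal (𝓞 K) → ℂ) (l : ℂ) : Prop :=
  ∃ L : ℂ → ℂ, DifferentiableOn ℂ L {s | 1 < s.re} ∧
    (∃ σ : ℝ, ∀ s : ℂ, σ < s.re →
      HasSum (fun I : Ideal (𝓞 K) => e I * (Ideal.absNorm I : ℂ) ^ (-s)) (L s)) ∧
    Tendsto (fun t : ℝ => L t) (𝓝[>] 1) (𝓝 l)

/-- `I` and `J` are in the same (wide) ray class modulo `D`. -/
def RayEq (D I J : Ideal (𝓞 K)) : Prop :=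
  ∃ α β : 𝓞 K, α ≠ 0 ∧ β ≠ 0 ∧ α - 1 ∈ D ∧ β - 1 ∈ D ∧
    Ideal.span {α} * I = Ideal.span {β} * J

/-! ### Statements -/

/-- row GCVM: central values by the Mellin transform, for any Dirichlet series -/
def GcvmStatement : Prop :=
  ∀ (T : Type) (e : T → ℂ) (ν : T → ℝ) (κ ρ : ℝ) (l : ℂ), 0 < κ → 0 < ρ →
    (∀ t, e t ≠ 0 → ρ ≤ ν t) →
    (∃ r : ℝ, Summable (fun t => ‖e t‖ * ν t ^ (-r))) →
    Tendsto (fun y : ℝ => ∑' t : T, e t / (ν t : ℂ) ^ 2 * (bes (κ * ν t * y) : ℂ))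
      (𝓝[>] 0) (𝓝 l) →
    ∃ L : ℂ → ℂ, DifferentiableOn ℂ L {s | 1 < s.re} ∧
      (∃ σ : ℝ, ∀ s : ℂ, σ < s.re → HasSum (fun t => e t * (ν t : ℂ) ^ (-2 * s)) (L s)) ∧
      Tendsto (fun t : ℝ => L t) (𝓝[>] 1) (𝓝 l)

/-- row GACT: the action of `SL_2(ℂ)` -/
def GactStatement : Prop :=
  ∀ (g k : SLC) (z : ℂ) (y : ℝ), 0 < y →
    0 < den g z y ∧ 0 < acty g z y ∧
    actz (g * k) z y = actz g (actz k z y) (acty k z y) ∧
    acty (g * k) z y = acty g (actz k z y) (acty k z y) ∧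
    (g 1 0 = 0 → ∃ b : ℂ, ∃ t : ℝ, 0 < t ∧ ∀ (z' : ℂ) (y' : ℝ), 0 < y' →
      actz g z' y' = g 0 0 / g 1 1 * z' + b ∧ acty g z' y' = t * y') ∧
    (g 1 0 ≠ 0 → actz g (-(g 1 1) / g 1 0) y = g 0 0 / g 1 0 ∧
      acty g (-(g 1 1) / g 1 0) y = 1 / (‖g 1 0‖ ^ 2 * y))

/-- row GLAT: lattices: summability and approximation with bounded denominators -/
def GlatStatement : Prop :=
  ∀ (K : Type) [Field K] [NumberField K] (i : K →+* ℂ) (δ : ℂ), ImQ i δ → ∀ A : FI K,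
    (∃ ρ : ℝ, 0 < ρ ∧ ∀ a : K, a ∈ (A : FractionalIdeal (𝓞 K)⁰ K) → a ≠ 0 → ρ ≤ ‖i a‖) ∧
    (∀ a : K, (‖i a‖ ^ 2 : ℝ) = |(Algebra.norm ℚ a : ℝ)|) ∧
    (∀ r : ℝ, 2 < r → Summable
      (fun a : {a : K // a ∈ (A : FractionalIdeal (𝓞 K)⁰ K)} => ‖i a.1‖ ^ (-r))) ∧
    (∀ R : ℝ, {a : K | a ∈ (A : FractionalIdeal (𝓞 K)⁰ K) ∧ ‖i a‖ ≤ R}.Finite) ∧
    (∀ ε : ℝ, 0 < ε → ∃ N : ℕ, ∀ z : ℂ, ∃ m : ℕ, 1 ≤ m ∧ m ≤ N ∧
      ∃ q : K, q ∈ (A : FractionalIdeal (𝓞 K)⁰ K) ∧ ‖(m : ℂ) * z - i q‖ < ε)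

/-- row GDUA: duality and orthogonality of the additive characters modulo an ideal `D` -/
def GduaStatement : Prop :=
  ∀ (K : Type) [Field K] [NumberField K] (i : K →+* ℂ) (δ : ℂ), ImQ i δ → ∀ A : FI K,
    (∀ a b : K, a ∈ (A : FractionalIdeal (𝓞 K)⁰ K) →
      b ∈ ((A⁻¹ : FI K) : FractionalIdeal (𝓞 K)⁰ K) → ee δ (i (a * b)) = 1) ∧
    (∀ D : Ideal (𝓞 K), D ≠ ⊥ → ∃ T : Finset K, T.card = Ideal.absNorm D ∧
      (∀ r ∈ T, ∀ a : K, a ∈ (D : FractionalIdeal (𝓞 K)⁰ K) * (A : FractionalIdeal (𝓞 K)⁰ K) →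
        ee δ (i (a * r)) = 1) ∧
      (∀ a : K, a ∈ (A : FractionalIdeal (𝓞 K)⁰ K) →
        a ∉ (D : FractionalIdeal (𝓞 K)⁰ K) * (A : FractionalIdeal (𝓞 K)⁰ K) →
        ∑ r ∈ T, ee δ (i (a * r)) = 0) ∧
      (∀ r ∈ T, ∀ a : K, a ∈ (A : FractionalIdeal (𝓞 K)⁰ K) →
        (ee δ (i (a * r))) ^ (Ideal.absNorm D) = 1))

/-- row GREP: finitely many types of cusps -/
def GrepStatement : Prop :=
  ∀ (K : Type) [Field K] [NumberField K] (A : FI K),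
    ∃ Δ : Finset (FI K), ∀ x y : K, (x ≠ 0 ∨ y ≠ 0) → ∃ d ∈ Δ, ∃ g : SLK K, ∃ s : K, s ≠ 0 ∧
      g 0 0 = s * x ∧ g 1 0 = s * y ∧
      g 0 0 ∈ (d : FractionalIdeal (𝓞 K)⁰ K) ∧
      g 1 0 ∈ ((A * d : FI K) : FractionalIdeal (𝓞 K)⁰ K) ∧
      g 0 1 ∈ (((A * d)⁻¹ : FI K) : FractionalIdeal (𝓞 K)⁰ K) ∧
      g 1 1 ∈ ((d⁻¹ : FI K) : FractionalIdeal (𝓞 K)⁰ K)

/-- row GFG: the limits at the cusps generate a finitely generated group -/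
def GfgStatement : Prop :=
  ∀ (K : Type) [Field K] [NumberField K] (i : K →+* ℂ) (δ : ℂ), ImQ i δ →
    ∀ (n : Ideal (𝓞 K)) (c : Ideal (𝓞 K) → ℂ), n ≠ ⊥ → Form i δ n c → ∀ A : FI K,
    ∃ V : Finset ℂ, ∀ (g : SLK K) (l : ℂ),
      (∀ z : ℂ, Tendsto (fun y : ℝ => HH i δ c A (actz (toC i g) z y) (acty (toC i g) z y))
        atTop (𝓝 l)) → l ∈ AddSubgroup.closure (V : Set ℂ)

open Classical in
/-- row GINT: the central partial L-values of the ray classes modulo `D0 * D`, `D0` fixed and `D`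
odd, are bounded at `2` -/
def GintStatement : Prop :=
  ∀ (K : Type) [Field K] [NumberField K] (i : K →+* ℂ) (δ : ℂ), ImQ i δ →
    ∀ (n : Ideal (𝓞 K)) (c : Ideal (𝓞 K) → ℂ), n ≠ ⊥ → Form i δ n c →
    ∀ v : AbsoluteValue ℂ ℝ, (∀ x y : ℂ, v (x + y) ≤ max (v x) (v y)) → v 2 < 1 →
    ∀ D0 : Ideal (𝓞 K), D0 ≠ ⊥ →
    ∃ B : ℝ, ∀ D J : Ideal (𝓞 K), D ≠ ⊥ → J ≠ ⊥ → Odd (Ideal.absNorm D) → (D0 * D) ⊔ J = ⊤ →
      ∃ l : ℂ, v l ≤ B ∧ CValI (fun I => if RayEq (D0 * D) I J then c I else 0) l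

end

end Pool.Agent.Lib.MP_50bb2e_nt.Imq
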